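import Mathlib
import Pool.Agent.W_MP_35cfd6_ag.Coord

/-!
Reflexive powers of an ideal, the dual of the Frobenius pushforward, finite generation on the
punctured spectrum. Notation of proofs row 303.
-/

namespace Pool.Agent.UL35

open IsLocalRing Polynomial Pool.Agent.W_MP_35cfd6_ag

variable {R : Type*} [CommRing R]

/-- `(R : 𝔟)`: all `z` in the fraction field of `R` with `z 𝔟 ⊆ R`. -/
def inv (𝔟 : Ideal R) : Set (FractionRing R) :=
  {z | ∀ y ∈ 𝔟, z * algebraMap R (FractionRing R) y ∈ (algebraMap R (FractionRing R)).range}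

/-- The reflexive power `𝔞^{(n)} = (R : (R : 𝔞^n))`. -/
def symb (𝔞 : Ideal R) (n : ℕ) : Ideal R where
  carrier := {x | ∀ z ∈ inv (𝔞 ^ n),
    z * algebraMap R (FractionRing R) x ∈ (algebraMap R (FractionRing R)).range}
  zero_mem' := fun z _ => by
    rw [map_zero, mul_zero]
    exact zero_mem _
  add_mem' := by
    intro x y hx hy z hz
    rw [map_add, mul_add]
    exact add_mem (hx z hz) (hy z hz)
  smul_mem' := by
    intro c x hx z hz
    rw [smul_eq_mul, map_mul, mul_left_comm]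
    exact mul_mem ⟨c, rfl⟩ (hx z hz)

theorem mem_symb {𝔞 : Ideal R} {n : ℕ} {x : R} : x ∈ symb 𝔞 n ↔ ∀ z ∈ inv (𝔞 ^ n),
    z * algebraMap R (FractionRing R) x ∈ (algebraMap R (FractionRing R)).range := Iff.rfl

theorem mem_inv {𝔟 : Ideal R} {z : FractionRing R} : z ∈ inv 𝔟 ↔ ∀ y ∈ 𝔟,
    z * algebraMap R (FractionRing R) y ∈ (algebraMap R (FractionRing R)).range := Iff.rfl

/-- The ideal `𝔞` is isomorphic to `Hom_R(F_* R, R)` as a module over `F_* R`: there is a linear map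
`γ : F_* 𝔞 → R` such that every linear map `F_* R → R` is `r ↦ γ (r x)` for exactly one `x ∈ 𝔞`. -/
def IsFDual (p : ℕ) [Fact p.Prime] [CharP R p] (𝔞 : Ideal R) : Prop :=
  ∃ γ : FPush p 1 𝔞 →ₗ[R] R, ∀ φ : FPush p 1 R →ₗ[R] R, ∃! x : 𝔞, ∀ r : R,
    φ (toF r) = γ (toF (r • x))

/-- `R` is `F`-split. -/
def FSplit (p : ℕ) (R : Type*) [Fact p.Prime] [CommRing R] [CharP R p] : Prop :=
  ∃ φ : FPush p 1 R →ₗ[R] R, φ (toF 1) = 1

/-- The subalgebra of `⊕ 𝔞^{(n)} T^n` generated by its elements of degree at most `d`. -/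
noncomputable def genAlg (𝔞 : Ideal R) (d : ℕ) : Subalgebra R R[X] :=
  Algebra.adjoin R {f | ∃ i ≤ d, ∃ z ∈ symb 𝔞 i, f = monomial i z}

/-- The algebra `⊕ 𝔞^{(n)} T^n` is finitely generated on the punctured spectrum: for some `d` its
subalgebra generated in degrees at most `d` agrees with it after inverting any `y ∈ 𝔪`. -/
def FGPunctured [IsLocalRing R] (𝔞 : Ideal R) : Prop :=
  ∃ d : ℕ, ∀ (n : ℕ), ∀ x ∈ symb 𝔞 n, ∀ y ∈ maximalIdeal R, ∃ N : ℕ,
    monomial n (y ^ N * x) ∈ genAlg 𝔞 d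

/-- For some `n > 0` the reflexive power `𝔞^{(n)}` is locally principal on the punctured
spectrum. -/
def QGorPunctured [IsLocalRing R] (𝔞 : Ideal R) : Prop :=
  ∃ n : ℕ, 0 < n ∧ ∀ P : Ideal R, P.IsPrime → P ≠ maximalIdeal R →
    ∃ g ∈ symb 𝔞 n, ∃ u ∉ P, ∀ x ∈ symb 𝔞 n, ∃ r, u * x = r * g

/-- Uniform lifting. -/
def UniformLift (p : ℕ) (R : Type*) [Fact p.Prime] [CommRing R] [CharP R p] [IsLocalRing R] :
    Prop :=
  ∃ T : ℕ, ∀ (e : ℕ) (φ : FPush p e R →ₗ[R] R ⧸ (maximalIdeal R ^ T)) (r : FPush p e R), φ r = 1 →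
    ∃ Φ : FPush p e R →ₗ[R] R, IsUnit (Φ r)

end Pool.Agent.UL35
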