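import Mathlib
import Pool.Agent.W_35cfd6_h67.Defs

/-!
The abstract data of the uniform lifting theorem, see proofs row 303.
-/

namespace Pool.Agent.UL35

open IsLocalRing Polynomial Pool.Agent.W_MP_35cfd6_ag

/-- An ideal `𝔞` with `g : 𝔞 → R` (a total function for convenience) which is `p^{-1}`-linear and
dualising for `Hom_R(F_* R, R)`. -/
structure PreData (p : ℕ) (R : Type*) [Fact p.Prime] [CommRing R] [CharP R p] where
  /-- the ideal -/
  𝔞 : Ideal R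
  /-- the map -/
  g : R → R
  ne_bot : 𝔞 ≠ ⊥
  g_add : ∀ x ∈ 𝔞, ∀ y ∈ 𝔞, g (x + y) = g x + g y
  g_frob : ∀ r, ∀ x ∈ 𝔞, g (r ^ p * x) = r * g x
  dual : ∀ φ : FPush p 1 R →ₗ[R] R, ∃ x ∈ 𝔞, ∀ r : R, φ (toF r) = g (r * x)
  uniq : ∀ x ∈ 𝔞, (∀ r, g (r * x) = 0) → x = 0

/-- The same with a graded family of ideals `W n` (in the application `W n = 𝔞^{(n)}`). -/
structure FData (p : ℕ) (R : Type*) [Fact p.Prime] [CommRing R] [CharP R p]
    extends PreData p R where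
  /-- the family -/
  W : ℕ → Ideal R
  W_zero : W 0 = ⊤
  W_mul : ∀ m n, W m * W n ≤ W (m + n)
  W_le : ∀ n, W (p * n + 1) ≤ 𝔞
  g_mem : ∀ n, ∀ x ∈ W (p * n + 1), g x ∈ W n
  mem_W : ∀ n, ∀ x ∈ 𝔞, (∀ r, g (r * x) ∈ W n) → x ∈ W (p * n + 1)

section

variable {p : ℕ} {R : Type*} [Fact p.Prime] [CommRing R] [CharP R p]

theorem PreData.g_zero (D : PreData p R) : D.g 0 = 0 := by
  have h := D.g_add 0 (zero_mem _) 0 (zero_mem _)
  rw [add_zero] at h
  exact left_eq_add.1 h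

theorem PreData.g_neg (D : PreData p R) {x : R} (hx : x ∈ D.𝔞) : D.g (-x) = -D.g x := by
  have h := D.g_add x hx (-x) (neg_mem hx)
  rw [add_neg_cancel, D.g_zero] at h
  exact (neg_eq_of_add_eq_zero_right h.symm).symm

theorem PreData.g_sub (D : PreData p R) {x y : R} (hx : x ∈ D.𝔞) (hy : y ∈ D.𝔞) :
    D.g (x - y) = D.g x - D.g y := by
  rw [sub_eq_add_neg, D.g_add x hx (-y) (neg_mem hy), D.g_neg hy, sub_eq_add_neg]

theorem PreData.g_sum (D : PreData p R) {ι : Type*} (s : Finset ι) (f : ι → R)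
    (hf : ∀ i ∈ s, f i ∈ D.𝔞) : D.g (∑ i ∈ s, f i) = ∑ i ∈ s, D.g (f i) := by
  classical
  induction s using Finset.induction_on with
  | empty => simp [D.g_zero]
  | insert a s ha ih =>
    rw [Finset.sum_insert ha, Finset.sum_insert ha,
      D.g_add _ (hf a (Finset.mem_insert_self a s)) _
        (Ideal.sum_mem _ fun i hi => hf i (Finset.mem_insert_of_mem hi)),
      ih fun i hi => hf i (Finset.mem_insert_of_mem hi)]

/-- The filtration `𝔪^s 𝓥` of a subalgebra `𝓥` of `R[T]`. -/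
noncomputable def Fil [IsLocalRing R] (𝓥 : Subalgebra R R[X]) (s : ℕ) : Submodule R R[X] :=
  maximalIdeal R ^ s • Subalgebra.toSubmodule 𝓥

/-- What we need about the subalgebra `𝓥 ⊆ ⊕ W n T^n`: Noetherian, graded, `F`-finite, and equal to
the whole algebra on the punctured spectrum. -/
structure Good [IsLocalRing R] (D : FData p R) (𝓥 : Subalgebra R R[X]) : Prop where
  noeth : IsNoetherianRing 𝓥
  graded : ∀ f ∈ 𝓥, ∀ n, monomial n (coeff f n) ∈ 𝓥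
  ffin : ∃ (r : ℕ) (h : Fin r → R[X]), (∀ j, h j ∈ 𝓥) ∧
    ∀ f ∈ 𝓥, ∃ a : Fin r → R[X], (∀ j, a j ∈ 𝓥) ∧ f = ∑ j, a j ^ p * h j
  le : ∀ f ∈ 𝓥, ∀ n, coeff f n ∈ D.W n
  tors : ∀ n, ∀ x ∈ D.W n, ∃ c, ∀ y ∈ maximalIdeal R ^ c, monomial n (y * x) ∈ 𝓥

end

end Pool.Agent.UL35
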