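import Mathlib
import Pool.Agent.W_35cfd6_h67.Data

/-!
Dimension two: every ideal is locally principal on the punctured spectrum.
-/

namespace Pool.Agent.UL35

open IsLocalRing Polynomial

variable {R : Type*} [CommRing R] [IsDomain R] [IsNoetherianRing R] [IsIntegrallyClosed R]

/-- The local ring at `P` is a discrete valuation ring. -/
theorem Dim2_dvr {P : Ideal R} (hP : P.IsPrime) (hP0 : P ≠ ⊥)
    (hmin : ∀ Q : Ideal R, Q.IsPrime → Q ≤ P → Q = ⊥ ∨ Q = P) :
    IsDiscreteValuationRing (Localization.AtPrime P) := by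
  have hinj : Function.Injective (algebraMap R (Localization.AtPrime P)) :=
    IsLocalization.injective _ P.primeCompl_le_nonZeroDivisors
  have hnoeth : IsNoetherianRing (Localization.AtPrime P) :=
    IsLocalization.isNoetherianRing P.primeCompl _ inferInstance
  have hic : IsIntegrallyClosed (Localization.AtPrime P) :=
    isIntegrallyClosed_of_isLocalization _ P.primeCompl P.primeCompl_le_nonZeroDivisors
  obtain ⟨x, hxP, hx0⟩ := Submodule.exists_mem_ne_zero_of_ne_bot hP0
  have hxm : algebraMap R (Localization.AtPrime P) x ∈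
      maximalIdeal (Localization.AtPrime P) := by
    rw [← IsLocalization.AtPrime.to_map_mem_maximal_iff (Localization.AtPrime P) P] at hxP
    exact hxP
  have hm0 : maximalIdeal (Localization.AtPrime P) ≠ ⊥ := by
    intro h
    rw [h, Ideal.mem_bot] at hxm
    exact hx0 (hinj (by rw [hxm, map_zero]))
  have hnf : ¬ IsField (Localization.AtPrime P) := by
    rw [isField_iff_maximalIdeal_eq]
    exact hm0
  have htfae := (IsDiscreteValuationRing.TFAE (Localization.AtPrime P) hnf).out 3 0
  refine htfae.mp ?_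
  refine ⟨hic, maximalIdeal _, ⟨hm0, inferInstance⟩, ?_⟩
  have hcm : (maximalIdeal (Localization.AtPrime P)).comap
      (algebraMap R (Localization.AtPrime P)) = P :=
    IsLocalization.AtPrime.under_maximalIdeal (Localization.AtPrime P) P
  rintro Q ⟨hQ0, hQ⟩
  have hQm : Q ≤ maximalIdeal (Localization.AtPrime P) := le_maximalIdeal hQ.ne_top
  have h1 : Q.comap (algebraMap R (Localization.AtPrime P)) ≤ P := by
    have h2 := Ideal.comap_mono (f := algebraMap R (Localization.AtPrime P)) hQm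
    rwa [hcm] at h2
  have hmap : ∀ J : Ideal (Localization.AtPrime P),
      (J.comap (algebraMap R (Localization.AtPrime P))).map
        (algebraMap R (Localization.AtPrime P)) = J := fun J =>
    IsLocalization.map_under P.primeCompl _ J
  rcases hmin _ (hQ.comap _) h1 with h2 | h2
  · exact absurd (by rw [← hmap Q, h2, Ideal.map_bot]) hQ0
  · calc Q = (Q.comap (algebraMap R (Localization.AtPrime P))).map
          (algebraMap R (Localization.AtPrime P)) := (hmap Q).symm
      _ = ((maximalIdeal (Localization.AtPrime P)).comap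
          (algebraMap R (Localization.AtPrime P))).map
            (algebraMap R (Localization.AtPrime P)) := by rw [h2, hcm]
      _ = maximalIdeal (Localization.AtPrime P) := hmap _

/-- Let `P` be a nonzero prime such that no prime is strictly between `⊥` and `P`. Then the local ring
`R_P` (`Localization.AtPrime P`) is a Noetherian integrally closed domain of dimension one, so it is a
principal ideal ring (`IsDedekindDomain` + local, `IsLocalRing.isPrincipalIdealRing...`,
`IsDiscreteValuationRing.TFAE`). So `𝔟 R_P` is generated by one element, which may be taken in the image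
of `𝔟` (`g ∈ 𝔟`), and as `𝔟` is finitely generated there is `u ∉ P` with `u 𝔟 ⊆ g R`. -/
theorem locally_principal (𝔟 : Ideal R) {P : Ideal R} (hP : P.IsPrime) (hP0 : P ≠ ⊥)
    (hmin : ∀ Q : Ideal R, Q.IsPrime → Q ≤ P → Q = ⊥ ∨ Q = P) :
    ∃ g ∈ 𝔟, ∃ u ∉ P, ∀ x ∈ 𝔟, ∃ r, u * x = r * g := by
  have := hP
  have hdvr : IsDiscreteValuationRing (Localization.AtPrime P) := Dim2_dvr hP hP0 hmin
  have hinj : Function.Injective (algebraMap R (Localization.AtPrime P)) :=
    IsLocalization.injective _ P.primeCompl_le_nonZeroDivisors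
  -- an element of smallest valuation
  obtain ⟨g, hg, hgmin⟩ : ∃ g ∈ 𝔟, ∀ x ∈ 𝔟,
      algebraMap R (Localization.AtPrime P) g ∣ algebraMap R (Localization.AtPrime P) x := by
    let v : 𝔟 → ℕ∞ := fun x => IsDiscreteValuationRing.addVal (Localization.AtPrime P)
      (algebraMap R (Localization.AtPrime P) x)
    have hwf : WellFounded (fun a b : 𝔟 => v a < v b) := InvImage.wf v wellFounded_lt
    obtain ⟨g, -, hg⟩ := hwf.has_min Set.univ ⟨0, trivial⟩
    refine ⟨g, g.2, fun x hx => ?_⟩
    have h1 := not_lt.mp (hg ⟨x, hx⟩ trivial)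
    exact IsDiscreteValuationRing.addVal_le_iff_dvd.mp h1
  refine ⟨g, hg, ?_⟩
  have hone : ∀ x ∈ 𝔟, ∃ u ∉ P, ∃ r, u * x = r * g := by
    intro x hx
    obtain ⟨s, hs⟩ := hgmin x hx
    obtain ⟨⟨r, u⟩, hru⟩ := IsLocalization.surj P.primeCompl s
    refine ⟨u, u.2, r, hinj ?_⟩
    rw [map_mul, map_mul, hs, ← hru]
    ring
  obtain ⟨S, hS⟩ := IsNoetherian.noetherian 𝔟
  choose! u hu r hr using hone
  refine ⟨∏ x ∈ S, u x, ?_, fun x hx => ?_⟩
  · rw [Ideal.IsPrime.prod_mem_iff]
    rintro ⟨x, hxS, hx⟩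
    exact hu x (hS ▸ Submodule.subset_span hxS) hx
  · rw [← hS] at hx
    induction hx using Submodule.span_induction with
    | mem x hx =>
      obtain ⟨c, hc⟩ := Finset.dvd_prod_of_mem u hx
      refine ⟨c * r x, ?_⟩
      rw [hc, mul_assoc, mul_comm c x, ← mul_assoc, hr x (hS ▸ Submodule.subset_span hx)]
      ring
    | zero => exact ⟨0, by ring⟩
    | add x y _ _ hx hy =>
      obtain ⟨a, ha⟩ := hx
      obtain ⟨b, hb⟩ := hy
      exact ⟨a + b, by rw [mul_add, ha, hb]; ring⟩
    | smul a x _ hx =>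
      obtain ⟨b, hb⟩ := hx
      exact ⟨a * b, by rw [smul_eq_mul, mul_left_comm, hb]; ring⟩

/-- In a local ring of dimension at most two a nonmaximal nonzero prime is as above: otherwise
`⊥ < Q < P < 𝔪` is a chain of length `3` (`ringKrullDim`, `Order.krullDim`, `LTSeries`). For `P = ⊥` take
`g = u ≠ 0` in `𝔟` (for `𝔟 = ⊥` take `g = 0`, `u = 1`). -/
theorem locally_principal_of_dim [IsLocalRing R] (hdim : ringKrullDim R ≤ 2) (𝔟 : Ideal R)
    {P : Ideal R} (hP : P.IsPrime) (hPm : P ≠ maximalIdeal R) :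
    ∃ g ∈ 𝔟, ∃ u ∉ P, ∀ x ∈ 𝔟, ∃ r, u * x = r * g := by
  have := hP
  by_cases hP0 : P = ⊥
  · by_cases hb : 𝔟 = ⊥
    · refine ⟨0, zero_mem _, 1, fun h => hP.ne_top ((Ideal.eq_top_iff_one P).mpr h),
        fun x hx => ⟨0, ?_⟩⟩
      rw [hb, Ideal.mem_bot] at hx
      rw [hx, mul_zero, mul_zero]
    · obtain ⟨g, hg, hg0⟩ := Submodule.exists_mem_ne_zero_of_ne_bot hb
      refine ⟨g, hg, g, fun h => ?_, fun x _ => ⟨x, mul_comm g x⟩⟩
      rw [hP0, Ideal.mem_bot] at h
      exact hg0 h
  · refine locally_principal 𝔟 hP hP0 fun Q hQ hQP => ?_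
    by_contra hcon
    push Not at hcon
    obtain ⟨hQ0, hQP'⟩ := hcon
    have := hQ
    have h1 : (⊥ : Ideal R) < Q := bot_lt_iff_ne_bot.mpr hQ0
    have h2 : Q < P := lt_of_le_of_ne hQP hQP'
    have h3 : P < maximalIdeal R := lt_of_le_of_ne (le_maximalIdeal hP.ne_top) hPm
    have e1 := Ideal.height_add_one_le_of_lt_of_isPrime h1
    have e2 := Ideal.height_add_one_le_of_lt_of_isPrime h2
    have e3 := Ideal.height_add_one_le_of_lt_of_isPrime h3
    have e4 : (maximalIdeal R).height ≤ 2 := by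
      have := IsLocalRing.maximalIdeal_height_eq_ringKrullDim (R := R)
      rw [← this] at hdim
      exact WithBot.coe_le_coe.mp
        (show ((maximalIdeal R).height : WithBot ℕ∞) ≤ ((2 : ℕ∞) : WithBot ℕ∞) from hdim)
    have e5 : (0 : ℕ∞) + 1 + 1 + 1 ≤ 2 := by
      calc (0 : ℕ∞) + 1 + 1 + 1 ≤ (⊥ : Ideal R).height + 1 + 1 + 1 := by gcongr; exact zero_le
        _ ≤ Q.height + 1 + 1 := by gcongr
        _ ≤ P.height + 1 := by gcongr
        _ ≤ (maximalIdeal R).height := e3
        _ ≤ 2 := e4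
    have e6 : ((0 + 1 + 1 + 1 : ℕ) : ℕ∞) ≤ ((2 : ℕ) : ℕ∞) := by exact_mod_cast e5
    have e7 : 0 + 1 + 1 + 1 ≤ 2 := by exact_mod_cast e6
    omega

theorem qGorPunctured_of_dim [IsLocalRing R] (hdim : ringKrullDim R ≤ 2) (𝔞 : Ideal R) :
    QGorPunctured 𝔞 :=
  ⟨1, Nat.one_pos, fun _ hP hPm => locally_principal_of_dim hdim (symb 𝔞 1) hP hPm⟩

end Pool.Agent.UL35
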