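import Mathlib
import Pool.Agent.W_35cfd6_h67.Data
import Pool.Agent.W_MP_35cfd6_ag.Len

/-!
A presentation of `F_* R`.
-/

namespace Pool.Agent.UL35

open IsLocalRing Polynomial Pool.Agent.W_MP_35cfd6_ag

variable {p : ℕ} {R : Type*} [Fact p.Prime] [CommRing R] [CharP R p]

/-- The action of `R` on `F_* R` (`fpush_smul`). -/
theorem smul_toF (a x : R) : (a • (toF x : FPush p 1 R)) = toF (a ^ p * x) := by
  rw [fpush_smul, pow_one]
  rfl

/-- A presentation of `F_* R`: generators `e i` and finitely many relations `ρ j` such that a vector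
`v` with `∑ i, ρ j i * v i = 0` for all `j` gives a linear map `F_* R → R`, `e i ↦ v i`. Take a
surjection `π : (Fin α → R) →ₗ[R] F_* R` (`Module.Finite.exists_fin'`), `e i = π (Pi.single i 1)`,
and finitely many generators `ρ j` of `ker π` (`R` is Noetherian). For the last property the map
`(Fin α → R) → R`, `c ↦ ∑ i, c i * v i`, vanishes on `ker π`; use `Submodule.liftQ` and
`LinearMap.quotKerEquivOfSurjective`. -/
theorem exists_presentation [IsNoetherianRing R] (hF : Module.Finite R (FPush p 1 R)) :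
    ∃ (α : ℕ) (e : Fin α → R) (β : ℕ) (ρ : Fin β → Fin α → R),
      (∀ r : R, ∃ c : Fin α → R, r = ∑ i, c i ^ p * e i) ∧ (∀ j, ∑ i, ρ j i ^ p * e i = 0) ∧
      ∀ v : Fin α → R, (∀ j, ∑ i, ρ j i * v i = 0) →
        ∃ φ : FPush p 1 R →ₗ[R] R, ∀ i, φ (toF (e i)) = v i := by
  classical
  obtain ⟨α, π, hπ⟩ := Module.Finite.exists_fin' R (FPush p 1 R)
  obtain ⟨β, ρ, hρ⟩ := Submodule.fg_iff_exists_fin_generating_family.mp
    (IsNoetherian.noetherian (LinearMap.ker π))
  set e : Fin α → R := fun i => ofF (π (fun j => if i = j then 1 else 0)) with he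
  set T : R →+ FPush p 1 R := AddMonoidHom.mk' (fun x => toF x) (fun _ _ => rfl) with hT
  have hTi : ∀ x y : R, T x = T y → x = y := fun x y h => h
  have key : ∀ c : Fin α → R, π c = T (∑ i, c i ^ p * e i) := by
    intro c
    rw [LinearMap.pi_apply_eq_sum_univ π c, map_sum]
    refine Finset.sum_congr rfl fun i _ => ?_
    exact smul_toF (c i) (e i)
  refine ⟨α, e, β, ρ, fun r => ?_, fun j => ?_, fun v hv => ?_⟩
  · obtain ⟨c, hc⟩ := hπ (T r)
    exact ⟨c, hTi _ _ (hc.symm.trans (key c))⟩
  · have h1 : ρ j ∈ LinearMap.ker π := by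
      rw [← hρ]
      exact Submodule.subset_span ⟨j, rfl⟩
    have h2 := LinearMap.mem_ker.mp h1
    rw [key] at h2
    exact hTi _ _ (h2.trans (map_zero T).symm)
  · set ψ : (Fin α → R) →ₗ[R] R := ∑ i, v i • LinearMap.proj i with hψ
    have hψa : ∀ c, ψ c = ∑ i, c i * v i := by
      intro c
      rw [hψ, LinearMap.sum_apply]
      refine Finset.sum_congr rfl fun i _ => ?_
      rw [LinearMap.smul_apply, LinearMap.proj_apply, smul_eq_mul, mul_comm]
    have hker : LinearMap.ker π ≤ LinearMap.ker ψ := by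
      rw [← hρ, Submodule.span_le]
      rintro _ ⟨j, rfl⟩
      rw [SetLike.mem_coe, LinearMap.mem_ker, hψa]
      exact hv j
    refine ⟨((LinearMap.ker π).liftQ ψ hker).comp
      (π.quotKerEquivOfSurjective hπ).symm.toLinearMap, fun i => ?_⟩
    have h3 : (toF (e i) : FPush p 1 R) = π (fun j => if i = j then 1 else 0) := rfl
    rw [h3]
    have h4 : (π.quotKerEquivOfSurjective hπ).symm (π (fun j => if i = j then 1 else 0)) =
        (LinearMap.ker π).mkQ (fun j => if i = j then 1 else 0) := by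
      rw [LinearEquiv.symm_apply_eq]
      rfl
    rw [LinearMap.comp_apply, LinearEquiv.coe_coe, h4, Submodule.mkQ_apply,
      Submodule.liftQ_apply, hψa]
    simp

end Pool.Agent.UL35
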