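import Mathlib
import Pool.Agent.W_35cfd6_h67.Pres

/-!
Duality for `F_* K`, `K` the fraction field of an `F`-finite domain.
-/

namespace Pool.Agent.UL35

open IsLocalRing Polynomial Pool.Agent.W_MP_35cfd6_ag

variable {p : ℕ} {K : Type*} [Fact p.Prime] [Field K] [CharP K p]

/-- The map `x ↦ lam (x ·)`. -/
noncomputable def Ex1_map (lam : FPush p 1 K →ₗ[K] K) :
    FPush p 1 K →ₗ[K] Module.Dual K (FPush p 1 K) where
  toFun x :=
    { toFun := fun y => lam (toF (ofF x * ofF y))
      map_add' := by
        intro y z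
        have h1 : (toF (ofF x * ofF (y + z)) : FPush p 1 K) =
            toF (ofF x * ofF y) + toF (ofF x * ofF z) := by
          change ofF x * (ofF y + ofF z) = ofF x * ofF y + ofF x * ofF z
          rw [mul_add]
        rw [h1, map_add]
      map_smul' := by
        intro a y
        have h1 : (toF (ofF x * ofF (a • y)) : FPush p 1 K) = a • toF (ofF x * ofF y) := by
          rw [smul_toF]
          have h2 : a • y = (toF (a ^ p * ofF y) : FPush p 1 K) := smul_toF a (ofF y)
          rw [h2]
          change ofF x * (a ^ p * ofF y) = a ^ p * (ofF x * ofF y)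
          ring
        rw [h1, map_smul, RingHom.id_apply] }
  map_add' := by
    intro x x'
    apply LinearMap.ext
    intro y
    have h1 : (toF (ofF (x + x') * ofF y) : FPush p 1 K) =
        toF (ofF x * ofF y) + toF (ofF x' * ofF y) := by
      change (ofF x + ofF x') * ofF y = ofF x * ofF y + ofF x' * ofF y
      rw [add_mul]
    change lam (toF (ofF (x + x') * ofF y)) =
      lam (toF (ofF x * ofF y)) + lam (toF (ofF x' * ofF y))
    rw [h1, map_add]
  map_smul' := by
    intro a x
    apply LinearMap.ext
    intro y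
    have h1 : (toF (ofF (a • x) * ofF y) : FPush p 1 K) = a • toF (ofF x * ofF y) := by
      rw [smul_toF]
      have h2 : a • x = (toF (a ^ p * ofF x) : FPush p 1 K) := smul_toF a (ofF x)
      rw [h2]
      change a ^ p * ofF x * ofF y = a ^ p * (ofF x * ofF y)
      ring
    change lam (toF (ofF (a • x) * ofF y)) = a • lam (toF (ofF x * ofF y))
    rw [h1, map_smul]

theorem Ex1_map_apply (lam : FPush p 1 K →ₗ[K] K) (x y : K) :
    Ex1_map lam (toF x) (toF y) = lam (toF (x * y)) := rfl

/-- Let `K` be `F`-finite. For a nonzero linear `lam : F_* K → K` every linear `φ : F_* K → K` is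
`y ↦ lam (x y)` for some `x`: the map `x ↦ lam (x ·)` from `F_* K` to `Module.Dual K (F_* K)` is `K`-linear
(`(a • x) y = a^p x y = a • (x y)`) and injective (`lam (x y) = 0` for all `y` and `x ≠ 0` gives `lam = 0`), and both
spaces have the same finite dimension (`Subspace.dual_finrank_eq`,
`LinearMap.injective_iff_surjective_of_finrank_eq_finrank`). -/
theorem exists_mul_of_dual (hK : Module.Finite K (FPush p 1 K)) {lam : FPush p 1 K →ₗ[K] K}
    (hlam : lam ≠ 0) (φ : FPush p 1 K →ₗ[K] K) :
    ∃ x : K, ∀ y : K, φ (toF y) = lam (toF (x * y)) := by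
  have := hK
  have hinj : Function.Injective (Ex1_map lam) := by
    rw [injective_iff_map_eq_zero]
    intro x hx
    by_contra hx0
    have hx1 : ofF x ≠ (0 : K) := hx0
    apply hlam
    apply LinearMap.ext
    intro z
    have h1 : Ex1_map lam x (toF ((ofF x)⁻¹ * ofF z)) = 0 := by rw [hx]; rfl
    have h2 : Ex1_map lam x (toF ((ofF x)⁻¹ * ofF z)) = lam z := by
      change lam (toF (ofF x * ((ofF x)⁻¹ * ofF z))) = lam z
      rw [mul_inv_cancel_left₀ hx1]
      rfl
    rw [← h2, h1]
    rfl
  have hdim : Module.finrank K (FPush p 1 K) = Module.finrank K (Module.Dual K (FPush p 1 K)) :=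
    Subspace.dual_finrank_eq.symm
  have hsurj : Function.Surjective (Ex1_map lam) :=
    (LinearMap.injective_iff_surjective_of_finrank_eq_finrank hdim).1 hinj
  obtain ⟨x, hx⟩ := hsurj φ
  refine ⟨ofF x, fun y => ?_⟩
  rw [← hx]
  rfl

/-- There is a nonzero functional (`Module.forall_dual_apply_eq_zero_iff`). -/
theorem exists_dual_ne_zero : ∃ lam : FPush p 1 K →ₗ[K] K, lam ≠ 0 := by
  by_contra hcon
  push Not at hcon
  have h1 : (toF (1 : K) : FPush p 1 K) = 0 := by
    rw [← Module.forall_dual_apply_eq_zero_iff K]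
    intro φ
    rw [hcon φ]
    rfl
  exact one_ne_zero (α := K) h1

end Pool.Agent.UL35
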