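import Mathlib
import Pool.Agent.W_35cfd6_h67.Ex1

/-!
Existence of an ideal isomorphic to `Hom_R(F_* R, R)`.
-/

namespace Pool.Agent.UL35

open IsLocalRing Polynomial Pool.Agent.W_MP_35cfd6_ag

variable {p : ℕ} {R : Type*} [Fact p.Prime] [CommRing R] [CharP R p] [IsDomain R]

instance charP_fractionRing : CharP (FractionRing R) p :=
  charP_of_injective_algebraMap (IsFractionRing.injective R (FractionRing R)) p

omit [IsDomain R] in
/-- The action of `R` on `F_* K`. -/
theorem smul_toF_frac (a : R) (x : FractionRing R) :
    (a • (toF x : FPush p 1 (FractionRing R))) =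
      toF (algebraMap R (FractionRing R) a ^ p * x) := by
  rw [fpush_smul, pow_one]
  change (a ^ p) • x = _
  rw [Algebra.smul_def, map_pow]
  rfl

omit [IsDomain R] in
/-- The actions of `R` and of `K` on `F_* K` are compatible. -/
theorem smul_eq_algebraMap_smul (a : R) (x : FPush p 1 (FractionRing R)) :
    a • x = (algebraMap R (FractionRing R) a) • x := by
  change a • (toF (ofF x) : FPush p 1 (FractionRing R)) =
    (algebraMap R (FractionRing R) a) • (toF (ofF x) : FPush p 1 (FractionRing R))
  rw [smul_toF_frac, smul_toF]

/-- The inclusion `F_* R → F_* K`. -/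
noncomputable def incF (p : ℕ) (R : Type*) [Fact p.Prime] [CommRing R] [CharP R p] [IsDomain R] :
    FPush p 1 R →ₗ[R] FPush p 1 (FractionRing R) where
  toFun x := toF (algebraMap R (FractionRing R) (ofF x))
  map_add' x y := map_add (algebraMap R (FractionRing R)) (ofF x) (ofF y)
  map_smul' a x := by
    change (toF (algebraMap R (FractionRing R) (ofF (a • (toF (ofF x) : FPush p 1 R)))) :
      FPush p 1 (FractionRing R)) = a • (toF (algebraMap R (FractionRing R) (ofF x)) :
        FPush p 1 (FractionRing R))
    rw [smul_toF, smul_toF_frac]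
    change (toF (algebraMap R (FractionRing R) (a ^ p * ofF x)) : FPush p 1 (FractionRing R)) = _
    rw [map_mul, map_pow]

theorem incF_apply (r : R) :
    incF p R (toF r) = toF (algebraMap R (FractionRing R) r) := rfl

/-- Every element of `F_* K` is an element of `F_* R` divided by an element of `R`. -/
theorem exists_smul_eq_incF (x : FPush p 1 (FractionRing R)) :
    ∃ (y : nonZeroDivisors R) (r : FPush p 1 R), (y : R) • x = incF p R r := by
  obtain ⟨a, b, hb, hab⟩ := IsFractionRing.div_surjective (A := R) (ofF x : FractionRing R)
  have hb0 : algebraMap R (FractionRing R) b ≠ 0 :=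
    IsFractionRing.to_map_ne_zero_of_mem_nonZeroDivisors hb
  refine ⟨⟨b, hb⟩, toF (a * b ^ (p - 1)), ?_⟩
  change b • (toF (ofF x) : FPush p 1 (FractionRing R)) = _
  rw [smul_toF_frac, incF_apply, ← hab, map_mul, map_pow]
  congr 1
  have hp : p = p - 1 + 1 := (Nat.succ_pred_eq_of_pos (Fact.out : p.Prime).pos).symm
  conv_lhs => rw [hp, pow_succ]
  field_simp

/-- The fraction field is `F`-finite: generated by the images of generators `e i` of `F_* R`, since
`x / y = (1/y)^p (x y^{p-1})`. -/
theorem finite_fpush_fractionRing (hF : Module.Finite R (FPush p 1 R)) :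
    Module.Finite (FractionRing R) (FPush p 1 (FractionRing R)) := by
  classical
  obtain ⟨s, hs⟩ := hF.fg_top
  refine ⟨⟨s.image (incF p R), ?_⟩⟩
  rw [eq_top_iff]
  intro x _
  have h1 : ∀ r : FPush p 1 R, incF p R r ∈ Submodule.span (FractionRing R)
      ((s.image (incF p R) : Finset (FPush p 1 (FractionRing R))) :
        Set (FPush p 1 (FractionRing R))) := by
    intro r
    have hr : r ∈ Submodule.span R (s : Set (FPush p 1 R)) := by
      rw [hs]
      exact Submodule.mem_top
    refine Submodule.span_induction (p := fun r _ => incF p R r ∈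
      Submodule.span (FractionRing R) ((s.image (incF p R) :
        Finset (FPush p 1 (FractionRing R))) : Set (FPush p 1 (FractionRing R)))) ?_ ?_ ?_ ?_ hr
    · intro z hz
      exact Submodule.subset_span (Finset.mem_coe.2 (Finset.mem_image_of_mem _ hz))
    · rw [map_zero]
      exact zero_mem _
    · intro z w _ _ hz hw
      rw [map_add]
      exact add_mem hz hw
    · intro a z _ hz
      rw [map_smul, smul_eq_algebraMap_smul]
      exact Submodule.smul_mem _ _ hz
  obtain ⟨y, r, hy⟩ := exists_smul_eq_incF x
  have hy0 : algebraMap R (FractionRing R) (y : R) ≠ 0 :=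
    IsFractionRing.to_map_ne_zero_of_mem_nonZeroDivisors y.2
  have h2 := h1 r
  rw [← hy, smul_eq_algebraMap_smul] at h2
  exact (Submodule.smul_mem_iff _ hy0).1 h2

/-- `F_* K` is the localization of `F_* R`. -/
theorem isLocalizedModule_incF :
    IsLocalizedModule (nonZeroDivisors R) (incF p R) where
  map_units x := by
    have hy0 : algebraMap R (FractionRing R) (x : R) ≠ 0 :=
      IsFractionRing.to_map_ne_zero_of_mem_nonZeroDivisors x.2
    rw [Module.End.isUnit_iff]
    constructor
    · intro m m' h
      change (x : R) • m = (x : R) • m' at h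
      rw [smul_eq_algebraMap_smul, smul_eq_algebraMap_smul] at h
      exact smul_right_injective _ hy0 h
    · intro m
      refine ⟨(algebraMap R (FractionRing R) (x : R))⁻¹ • m, ?_⟩
      change (x : R) • ((algebraMap R (FractionRing R) (x : R))⁻¹ • m) = m
      rw [smul_eq_algebraMap_smul, smul_smul, mul_inv_cancel₀ hy0, one_smul]
  surj y := by
    obtain ⟨b, r, h⟩ := exists_smul_eq_incF y
    exact ⟨(r, b), h⟩
  exists_of_eq := by
    intro x y h
    refine ⟨1, ?_⟩
    rw [one_smul, one_smul]
    exact IsFractionRing.injective R (FractionRing R) h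

/-- A linear map `φ : F_* R → R` extends to a linear map `F_* K → K`, by
`x / y = (x y^{p-1}) / y^p ↦ φ (x y^{p-1}) / y`. (Choose numerators and denominators with
`IsLocalization.mk'` or `IsFractionRing.div_surjective`; check independence.) -/
theorem exists_extend (φ : FPush p 1 R →ₗ[R] R) :
    ∃ Φ : FPush p 1 (FractionRing R) →ₗ[FractionRing R] FractionRing R, ∀ r : R,
      Φ (toF (algebraMap R (FractionRing R) r)) = algebraMap R (FractionRing R) (φ (toF r)) := by
  have hloc := isLocalizedModule_incF (p := p) (R := R)
  have ht : IsScalarTower R (FractionRing R) (FPush p 1 (FractionRing R)) := by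
    constructor
    intro a b x
    rw [smul_eq_algebraMap_smul a (b • x), smul_smul, Algebra.smul_def]
  refine ⟨IsLocalizedModule.mapExtendScalars (nonZeroDivisors R) (incF p R)
    (Algebra.linearMap R (FractionRing R)) (FractionRing R) φ, ?_⟩
  intro r
  rw [← incF_apply, IsLocalizedModule.mapExtendScalars_apply_apply]
  rw [IsLocalizedModule.map_apply]
  rfl

/-- A nonzero `lam : F_* K → K` which maps (the image of) `R` to `R`: multiply a nonzero functional by a
common denominator of the values on generators of `F_* R` (`IsLocalization.exist_integer_multiples`). -/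
theorem exists_integral_functional (hF : Module.Finite R (FPush p 1 R)) :
    ∃ lam : FPush p 1 (FractionRing R) →ₗ[FractionRing R] FractionRing R, lam ≠ 0 ∧
      ∀ r : R, lam (toF (algebraMap R (FractionRing R) r)) ∈
        (algebraMap R (FractionRing R)).range := by
  classical
  obtain ⟨lam, hlam⟩ := exists_dual_ne_zero (p := p) (K := FractionRing R)
  obtain ⟨s, hs⟩ := hF.fg_top
  obtain ⟨b, hb⟩ := IsLocalization.exist_integer_multiples_of_finset (nonZeroDivisors R)
    (s.image fun x => lam (incF p R x))
  have hb0 : algebraMap R (FractionRing R) (b : R) ≠ 0 :=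
    IsFractionRing.to_map_ne_zero_of_mem_nonZeroDivisors b.2
  refine ⟨(algebraMap R (FractionRing R) (b : R)) • lam, smul_ne_zero hb0 hlam, ?_⟩
  intro r
  rw [LinearMap.smul_apply, ← incF_apply]
  have hr : (toF r : FPush p 1 R) ∈ Submodule.span R (s : Set (FPush p 1 R)) := by
    rw [hs]
    exact Submodule.mem_top
  refine Submodule.span_induction (p := fun r _ =>
    (algebraMap R (FractionRing R) (b : R)) • lam (incF p R r) ∈
      (algebraMap R (FractionRing R)).range) ?_ ?_ ?_ ?_ hr
  · intro z hz
    obtain ⟨c, hc⟩ := hb _ (Finset.mem_image_of_mem (fun x => lam (incF p R x)) hz)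
    refine ⟨c, ?_⟩
    rw [hc, Algebra.smul_def, smul_eq_mul]
  · rw [map_zero, map_zero, smul_zero]
    exact zero_mem _
  · intro z w _ _ hz hw
    rw [map_add, map_add, smul_add]
    exact add_mem hz hw
  · intro a z _ hz
    rw [map_smul, smul_eq_algebraMap_smul, map_smul, smul_comm, smul_eq_mul (a := algebraMap R _ a)]
    exact mul_mem ⟨a, rfl⟩ hz

/-- For such `lam` the set `𝔲` of all `x ∈ K` with `lam (x R) ⊆ R` has a common denominator `d ≠ 0`:
with generators `e i` of `F_* R` the map `x ↦ (lam (x e_i))_i` from `𝔲` (an `R`-module via `a • x = a^p x`)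
to `Fin α → R` is linear and injective, so `𝔲` is finitely generated over `R` via `p`-th powers; take a
common denominator of the generators. -/
theorem exists_denominator [IsNoetherianRing R] (hF : Module.Finite R (FPush p 1 R))
    {lam : FPush p 1 (FractionRing R) →ₗ[FractionRing R] FractionRing R} (hlam : lam ≠ 0) :
    ∃ d : R, d ≠ 0 ∧ ∀ x : FractionRing R,
      (∀ r : R, lam (toF (x * algebraMap R (FractionRing R) r)) ∈
        (algebraMap R (FractionRing R)).range) →
      x * algebraMap R (FractionRing R) d ∈ (algebraMap R (FractionRing R)).range := by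
  classical
  obtain ⟨s, hs⟩ := hF.fg_top
  -- the linear map `x ↦ (lam (x e))_e`
  let Θ : FPush p 1 (FractionRing R) →ₗ[R] (s → FractionRing R) :=
    { toFun := fun x e => lam (toF (ofF x * algebraMap R (FractionRing R) (ofF (e : FPush p 1 R))))
      map_add' := by
        intro x y
        funext e
        change lam (toF ((ofF x + ofF y) * algebraMap R (FractionRing R)
          (ofF (e : FPush p 1 R)))) = _
        rw [add_mul]
        exact map_add lam (toF _) (toF _)
      map_smul' := by
        intro a x
        funext e
        change lam (toF (ofF (a • (toF (ofF x) : FPush p 1 (FractionRing R))) *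
          algebraMap R (FractionRing R) (ofF (e : FPush p 1 R)))) =
          a • lam (toF (ofF x * algebraMap R (FractionRing R) (ofF (e : FPush p 1 R))))
        rw [smul_toF_frac]
        change lam (toF (algebraMap R (FractionRing R) a ^ p * ofF x *
          algebraMap R (FractionRing R) (ofF (e : FPush p 1 R)))) = _
        rw [mul_assoc, ← smul_toF, map_smul, smul_eq_mul, Algebra.smul_def] }
  have hΘ : ∀ (x : FractionRing R) (e : s), Θ (toF x) e =
      lam (toF (x * algebraMap R (FractionRing R) (ofF (e : FPush p 1 R)))) := fun _ _ => rfl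
  have hΘinj : Function.Injective Θ := by
    rw [injective_iff_map_eq_zero]
    intro x hx
    by_contra hx0
    apply hlam
    -- `lam (x r) = 0` for all `r`
    have h1 : ∀ r : FPush p 1 R, lam (toF (ofF x * algebraMap R (FractionRing R) (ofF r))) = 0 := by
      intro r
      have hr : r ∈ Submodule.span R (s : Set (FPush p 1 R)) := by
        rw [hs]
        exact Submodule.mem_top
      refine Submodule.span_induction (p := fun r _ =>
        lam (toF (ofF x * algebraMap R (FractionRing R) (ofF r))) = 0) ?_ ?_ ?_ ?_ hr
      · intro z hz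
        have := congrFun hx ⟨z, hz⟩
        exact this
      · change lam (toF (ofF x * algebraMap R (FractionRing R) 0)) = 0
        rw [map_zero, mul_zero]
        exact map_zero lam
      · intro z w _ _ hz hw
        change lam (toF (ofF x * algebraMap R (FractionRing R) (ofF z + ofF w))) = 0
        rw [map_add, mul_add]
        have := map_add lam (toF (ofF x * algebraMap R (FractionRing R) (ofF z)))
          (toF (ofF x * algebraMap R (FractionRing R) (ofF w)))
        rw [hz, hw, add_zero] at this
        exact this
      · intro a z _ hz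
        change lam (toF (ofF x * algebraMap R (FractionRing R)
          (ofF (a • (toF (ofF z) : FPush p 1 R))))) = 0
        rw [smul_toF]
        change lam (toF (ofF x * algebraMap R (FractionRing R) (a ^ p * ofF z))) = 0
        rw [map_mul, map_pow, mul_left_comm, ← smul_toF, map_smul, hz, smul_zero]
    refine LinearMap.ext fun y => ?_
    have hx0' : (ofF x : FractionRing R) ≠ 0 := hx0
    obtain ⟨b, r, hb⟩ := exists_smul_eq_incF (toF ((ofF x)⁻¹ * ofF y) : FPush p 1 (FractionRing R))
    have hb0 : algebraMap R (FractionRing R) (b : R) ≠ 0 :=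
      IsFractionRing.to_map_ne_zero_of_mem_nonZeroDivisors b.2
    have h2 := h1 r
    have h3 : (toF (algebraMap R (FractionRing R) (ofF r)) : FPush p 1 (FractionRing R)) =
        (b : R) • (toF ((ofF x)⁻¹ * ofF y) : FPush p 1 (FractionRing R)) := hb.symm
    rw [smul_toF_frac] at h3
    have h4 : algebraMap R (FractionRing R) (ofF r) =
      algebraMap R (FractionRing R) (b : R) ^ p * ((ofF x)⁻¹ * ofF y) := h3
    rw [h4] at h2
    have h5 : ofF x * (algebraMap R (FractionRing R) (b : R) ^ p * ((ofF x)⁻¹ * ofF y)) =
        algebraMap R (FractionRing R) (b : R) ^ p * ofF y := by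
      field_simp
    rw [h5, ← smul_toF, map_smul] at h2
    rcases smul_eq_zero.1 h2 with h | h
    · exact absurd h hb0
    · exact h
  -- the Noetherian module of integral vectors
  let N : Submodule R (s → FractionRing R) :=
    LinearMap.range (LinearMap.pi (R := R) (φ := fun _ : s => FractionRing R)
      fun e : s => (Algebra.linearMap R (FractionRing R)).comp (LinearMap.proj (φ := fun _ : s => R) e))
  have hNn : IsNoetherian R N := inferInstance
  let U : Submodule R (FPush p 1 (FractionRing R)) := N.comap Θ
  have hU : IsNoetherian R U := by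
    refine isNoetherian_of_injective (Θ.restrict (p := U) (q := N) fun x hx => hx) ?_
    intro x y hxy
    exact Subtype.ext (hΘinj (congrArg Subtype.val hxy))
  obtain ⟨t, ht⟩ := (isNoetherian_submodule.1 hU) U le_rfl
  obtain ⟨b, hb⟩ := IsLocalization.exist_integer_multiples_of_finset (nonZeroDivisors R)
    (t.image fun x => (ofF x : FractionRing R))
  refine ⟨(b : R), nonZeroDivisors.ne_zero b.2, ?_⟩
  intro x hx
  have hxU : (toF x : FPush p 1 (FractionRing R)) ∈ U := by
    choose c hc using hx
    refine ⟨fun e => c (ofF (e : FPush p 1 R)), ?_⟩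
    funext e
    exact hc _
  rw [← ht] at hxU
  have key : ∀ z : FPush p 1 (FractionRing R), z ∈ Submodule.span R (t : Set _) →
      ofF z * algebraMap R (FractionRing R) (b : R) ∈ (algebraMap R (FractionRing R)).range := by
    intro z hz
    refine Submodule.span_induction (p := fun z _ =>
      ofF z * algebraMap R (FractionRing R) (b : R) ∈ (algebraMap R (FractionRing R)).range)
      ?_ ?_ ?_ ?_ hz
    · intro z hz
      obtain ⟨c, hc⟩ := hb _ (Finset.mem_image_of_mem _ hz)
      refine ⟨c, ?_⟩
      rw [hc, Algebra.smul_def, mul_comm]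
    · change (0 : FractionRing R) * algebraMap R (FractionRing R) (b : R) ∈ _
      rw [zero_mul]
      exact zero_mem _
    · intro z w _ _ hz hw
      change (ofF z + ofF w) * algebraMap R (FractionRing R) (b : R) ∈ _
      rw [add_mul]
      exact add_mem hz hw
    · intro a z _ hz
      change ofF (a • (toF (ofF z) : FPush p 1 (FractionRing R))) *
        algebraMap R (FractionRing R) (b : R) ∈ _
      rw [smul_toF_frac]
      change algebraMap R (FractionRing R) a ^ p * ofF z *
        algebraMap R (FractionRing R) (b : R) ∈ _
      rw [mul_assoc]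
      exact mul_mem (pow_mem (RingHom.mem_range_self _ a) _) hz
  exact key _ hxU

end Pool.Agent.UL35
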