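import Mathlib
import Pool.Agent.W_35cfd6_h67.Ex2

/-!
Existence of an ideal isomorphic to `Hom_R(F_* R, R)`, conclusion.
-/

namespace Pool.Agent.UL35

open IsLocalRing Polynomial Pool.Agent.W_MP_35cfd6_ag

variable {p : ℕ} {R : Type*} [Fact p.Prime] [CommRing R] [CharP R p] [IsDomain R]

/-- If `lam` vanishes on `z R`, `z ≠ 0`, then `lam = 0`. -/
theorem Ex3_zero {lam : FPush p 1 (FractionRing R) →ₗ[FractionRing R] FractionRing R}
    {z : FractionRing R} (hz : z ≠ 0)
    (h : ∀ r : R, lam (toF (z * algebraMap R (FractionRing R) r)) = 0) : lam = 0 := by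
  refine LinearMap.ext fun y => ?_
  obtain ⟨b, r, hb⟩ := exists_smul_eq_incF (toF (z⁻¹ * ofF y) : FPush p 1 (FractionRing R))
  have hb0 : algebraMap R (FractionRing R) (b : R) ≠ 0 :=
    IsFractionRing.to_map_ne_zero_of_mem_nonZeroDivisors b.2
  have h2 := h (ofF r)
  have h3 : (toF (algebraMap R (FractionRing R) (ofF r)) : FPush p 1 (FractionRing R)) =
      (b : R) • (toF (z⁻¹ * ofF y) : FPush p 1 (FractionRing R)) := hb.symm
  rw [smul_toF_frac] at h3
  have h4 : algebraMap R (FractionRing R) (ofF r) =
    algebraMap R (FractionRing R) (b : R) ^ p * (z⁻¹ * ofF y) := h3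
  rw [h4] at h2
  have h5 : z * (algebraMap R (FractionRing R) (b : R) ^ p * (z⁻¹ * ofF y)) =
      algebraMap R (FractionRing R) (b : R) ^ p * ofF y := by
    field_simp
  rw [h5, ← smul_toF, map_smul] at h2
  rcases smul_eq_zero.1 h2 with h | h
  · exact absurd h hb0
  · exact h

/-- The ideal of all `a` with `lam ((a / d) R) ⊆ R`. -/
def Ex3_ideal (lam : FPush p 1 (FractionRing R) →ₗ[FractionRing R] FractionRing R) (d : R) :
    Ideal R where
  carrier := {a | ∀ r : R, lam (toF (algebraMap R (FractionRing R) a /
    algebraMap R (FractionRing R) d * algebraMap R (FractionRing R) r)) ∈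
      (algebraMap R (FractionRing R)).range}
  zero_mem' := by
    intro r
    rw [map_zero, zero_div, zero_mul]
    have h : lam (toF (0 : FractionRing R)) = 0 := map_zero lam
    rw [h]
    exact zero_mem _
  add_mem' := by
    intro a b ha hb r
    rw [map_add, add_div, add_mul]
    have h := map_add lam (toF (algebraMap R (FractionRing R) a /
      algebraMap R (FractionRing R) d * algebraMap R (FractionRing R) r))
      (toF (algebraMap R (FractionRing R) b /
        algebraMap R (FractionRing R) d * algebraMap R (FractionRing R) r))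
    have h2 := add_mem (ha r) (hb r)
    rw [← h] at h2
    exact h2
  smul_mem' := by
    intro c a ha r
    have h := ha (c * r)
    have e : algebraMap R (FractionRing R) (c • a) / algebraMap R (FractionRing R) d *
        algebraMap R (FractionRing R) r = algebraMap R (FractionRing R) a /
          algebraMap R (FractionRing R) d * algebraMap R (FractionRing R) (c * r) := by
      rw [smul_eq_mul, map_mul, map_mul]
      ring
    rw [e]
    exact h

theorem Ex3_mem {lam : FPush p 1 (FractionRing R) →ₗ[FractionRing R] FractionRing R} {d a : R} :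
    a ∈ Ex3_ideal lam d ↔ ∀ r : R, lam (toF (algebraMap R (FractionRing R) a /
      algebraMap R (FractionRing R) d * algebraMap R (FractionRing R) r)) ∈
        (algebraMap R (FractionRing R)).range := Iff.rfl

/-- The functional `γ`. -/
theorem Ex3_gamma (lam : FPush p 1 (FractionRing R) →ₗ[FractionRing R] FractionRing R) (d : R) :
    ∃ γ : FPush p 1 (Ex3_ideal lam d) →ₗ[R] R, ∀ a : Ex3_ideal lam d,
      algebraMap R (FractionRing R) (γ (toF a)) =
        lam (toF (algebraMap R (FractionRing R) (a : R) / algebraMap R (FractionRing R) d)) := by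
  have hex : ∀ a : Ex3_ideal lam d, ∃ c : R, algebraMap R (FractionRing R) c =
      lam (toF (algebraMap R (FractionRing R) (a : R) / algebraMap R (FractionRing R) d)) := by
    intro a
    obtain ⟨c, hc⟩ := a.2 1
    refine ⟨c, ?_⟩
    rw [hc, map_one, mul_one]
  choose g hg using hex
  refine ⟨{ toFun := fun x => g (ofF x), map_add' := ?_, map_smul' := ?_ }, fun a => hg a⟩
  · intro x y
    apply IsFractionRing.injective R (FractionRing R)
    rw [map_add, hg, hg, hg]
    have h := map_add lam (toF (algebraMap R (FractionRing R) ((ofF x : Ex3_ideal lam d) : R) /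
      algebraMap R (FractionRing R) d))
      (toF (algebraMap R (FractionRing R) ((ofF y : Ex3_ideal lam d) : R) /
        algebraMap R (FractionRing R) d))
    rw [← h]
    congr 1
    change algebraMap R (FractionRing R) (((ofF x : Ex3_ideal lam d) : R) +
      ((ofF y : Ex3_ideal lam d) : R)) / algebraMap R (FractionRing R) d = _
    rw [map_add, add_div]
    rfl
  · intro c x
    apply IsFractionRing.injective R (FractionRing R)
    rw [RingHom.id_apply, smul_eq_mul, map_mul, hg, hg]
    have h := map_smul lam (algebraMap R (FractionRing R) c)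
      (toF (algebraMap R (FractionRing R) ((ofF x : Ex3_ideal lam d) : R) /
        algebraMap R (FractionRing R) d))
    rw [smul_eq_mul, smul_toF] at h
    rw [← h]
    congr 1
    have e : ((ofF (c • x) : Ex3_ideal lam d) : R) = c ^ p * ((ofF x : Ex3_ideal lam d) : R) := by
      have h1 := fpush_smul (p := p) (e := 1) c x
      rw [pow_one] at h1
      exact congrArg (fun z : FPush p 1 (Ex3_ideal lam d) => ((ofF z : Ex3_ideal lam d) : R)) h1
    rw [e, map_mul, map_pow, mul_div_assoc]

/-- Take `lam` from `exists_integral_functional`, `d` from `exists_denominator`, and let `𝔞` be the ideal of all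
`a ∈ R` with `lam ((a / d) R) ⊆ R` and `γ a ∈ R` with `ι (γ a) = lam (a / d)`. It contains `d ≠ 0`. A linear map
`φ : F_* R → R` extends to `F_* K` (`exists_extend`), so it is `lam (x ·)` with `x ∈ K`
(`exists_mul_of_dual`); then `lam (x R) ⊆ R`, so `x d = ι a` with `a ∈ R`, `a ∈ 𝔞`, and
`φ r = γ (r a)`. Uniqueness: if `lam (a r / d) = lam (a' r / d)` for all `r ∈ R` then this holds for all
`r ∈ K` (`r = s / t = t^{-p} (s t^{p-1})`), and `lam ≠ 0` gives `a = a'`. -/
theorem exists_isFDual [IsNoetherianRing R] (hF : Module.Finite R (FPush p 1 R)) :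
    ∃ 𝔞 : Ideal R, 𝔞 ≠ ⊥ ∧ IsFDual p 𝔞 := by
  obtain ⟨lam, hlam, hint⟩ := exists_integral_functional (p := p) (R := R) hF
  obtain ⟨d, hd0, hd⟩ := exists_denominator hF hlam
  have hdK : algebraMap R (FractionRing R) d ≠ 0 := by
    intro h
    exact hd0 ((map_eq_zero_iff _ (IsFractionRing.injective R (FractionRing R))).1 h)
  obtain ⟨γ, hγ⟩ := Ex3_gamma lam d
  have hdm : d ∈ Ex3_ideal lam d := by
    intro r
    rw [div_self hdK, one_mul]
    exact hint r
  refine ⟨Ex3_ideal lam d, ?_, γ, ?_⟩
  · intro h
    rw [h] at hdm
    exact hd0 ((Submodule.mem_bot R).1 hdm)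
  intro φ
  obtain ⟨Φ, hΦ⟩ := exists_extend φ
  obtain ⟨x, hx⟩ := exists_mul_of_dual (finite_fpush_fractionRing hF) hlam Φ
  have hx1 : ∀ r : R, lam (toF (x * algebraMap R (FractionRing R) r)) =
      algebraMap R (FractionRing R) (φ (toF r)) := by
    intro r
    rw [← hx, hΦ]
  obtain ⟨a, ha⟩ := hd x fun r => ⟨φ (toF r), (hx1 r).symm⟩
  have hxa : x = algebraMap R (FractionRing R) a / algebraMap R (FractionRing R) d := by
    rw [ha, mul_div_cancel_right₀ _ hdK]
  have ham : a ∈ Ex3_ideal lam d := by
    intro r
    rw [← hxa, hx1]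
    exact ⟨_, rfl⟩
  have hval : ∀ (b : Ex3_ideal lam d) (r : R),
      algebraMap R (FractionRing R) (γ (toF (r • b))) =
        lam (toF (algebraMap R (FractionRing R) (b : R) / algebraMap R (FractionRing R) d *
          algebraMap R (FractionRing R) r)) := by
    intro b r
    rw [hγ]
    congr 2
    change algebraMap R (FractionRing R) (r * (b : R)) / algebraMap R (FractionRing R) d = _
    rw [map_mul]
    ring
  refine ⟨⟨a, ham⟩, ?_, ?_⟩
  · intro r
    apply IsFractionRing.injective R (FractionRing R)
    rw [hval, ← hxa, hx1]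
  · intro b hb
    by_contra hne
    apply hlam
    have hz : algebraMap R (FractionRing R) (b : R) / algebraMap R (FractionRing R) d -
        algebraMap R (FractionRing R) a / algebraMap R (FractionRing R) d ≠ 0 := by
      intro h
      rw [← sub_div, div_eq_zero_iff] at h
      rcases h with h | h
      · rw [← map_sub, map_eq_zero_iff _ (IsFractionRing.injective R (FractionRing R)),
          sub_eq_zero] at h
        exact hne (Subtype.ext h)
      · exact hdK h
    refine Ex3_zero hz fun r => ?_
    have h1 := hval b r
    rw [← hb r, ← hx1, hxa] at h1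
    have h2 := map_sub lam (toF (algebraMap R (FractionRing R) (b : R) /
      algebraMap R (FractionRing R) d * algebraMap R (FractionRing R) r))
      (toF (algebraMap R (FractionRing R) a /
        algebraMap R (FractionRing R) d * algebraMap R (FractionRing R) r))
    rw [← h1, sub_self] at h2
    rw [sub_mul]
    exact h2

end Pool.Agent.UL35
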