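import Mathlib
import Pool.Agent.W_MP_35cfd6_ag.Irred
import Pool.Agent.W_MP_35cfd6_ag.Identity

/-!
`R / I` is self-injective for `I` irreducible (no coefficient field).
-/

namespace Pool.Agent.UL35

open IsLocalRing Pool.Agent.W_MP_35cfd6_ag

variable {R : Type*} [CommRing R] [IsLocalRing R] [IsNoetherianRing R]

/-- The socle of `R / I` has length at most one. -/
theorem SelfInj_socle {I : Ideal R} {u : R} (hI : IsSocle I u) :
    ∃ S : Submodule R (R ⧸ I), Module.length R S ≤ 1 ∧
      ∀ q : R ⧸ I, (∀ a ∈ maximalIdeal R, a • q = 0) → q ∈ S := by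
  have hker : maximalIdeal R ≤
      LinearMap.ker (LinearMap.toSpanSingleton R (R ⧸ I) (Ideal.Quotient.mk I u)) := by
    intro a ha
    rw [LinearMap.mem_ker, LinearMap.toSpanSingleton_apply]
    have h1 := hI.mul_mem ha
    have h2 : a • (Ideal.Quotient.mk I u) = Ideal.Quotient.mk I (a * u) := by
      rw [map_mul, Algebra.smul_def]
      rfl
    rw [h2, Ideal.Quotient.eq_zero_iff_mem]
    exact h1
  let κ : (R ⧸ maximalIdeal R) →ₗ[R] (R ⧸ I) :=
    Submodule.liftQ (maximalIdeal R) (LinearMap.toSpanSingleton R (R ⧸ I)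
      (Ideal.Quotient.mk I u)) hker
  refine ⟨LinearMap.range κ, ?_, ?_⟩
  · have h1 : Module.length R (LinearMap.range κ) ≤ Module.length R (R ⧸ maximalIdeal R) :=
      Module.length_le_of_surjective κ.rangeRestrict κ.surjective_rangeRestrict
    have h2 : IsSimpleModule R (R ⧸ maximalIdeal R) :=
      isSimpleModule_iff_quot_maximal.2 ⟨maximalIdeal R, inferInstance, ⟨LinearEquiv.refl R _⟩⟩
    rw [Module.length_eq_one R (R ⧸ maximalIdeal R)] at h1
    exact h1
  · intro q hq
    obtain ⟨z, rfl⟩ := Ideal.Quotient.mk_surjective q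
    by_cases hz : z ∈ I
    · rw [Ideal.Quotient.eq_zero_iff_mem.2 hz]
      exact zero_mem _
    · obtain ⟨b, hb⟩ := hI.exists_mul hz
      have hbu : IsUnit b := by
        by_contra hnu
        have h1 := hq b ((mem_maximalIdeal b).2 hnu)
        have h2 : b • (Ideal.Quotient.mk I z) = Ideal.Quotient.mk I (z * b) := by
          rw [mul_comm, map_mul, Algebra.smul_def]
          rfl
        rw [h2, Ideal.Quotient.eq_zero_iff_mem] at h1
        apply hI.1
        have h3 := I.sub_mem h1 hb
        rwa [sub_sub_cancel] at h3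
      obtain ⟨c, rfl⟩ := hbu
      refine ⟨Submodule.Quotient.mk (↑c⁻¹ : R), ?_⟩
      change (↑c⁻¹ : R) • (Ideal.Quotient.mk I u) = Ideal.Quotient.mk I z
      have h2 : (↑c⁻¹ : R) • (Ideal.Quotient.mk I u) = Ideal.Quotient.mk I (↑c⁻¹ * u) := by
        rw [map_mul, Algebra.smul_def]
        rfl
      rw [h2, Ideal.Quotient.eq]
      have h3 : (↑c⁻¹ : R) * u - z = -(↑c⁻¹ * (z * ↑c - u)) := by
        have h4 : (↑c⁻¹ : R) * (z * ↑c - u) = z * (↑c⁻¹ * ↑c) - ↑c⁻¹ * u := by ring
        rw [h4, Units.inv_mul]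
        ring
      rw [h3]
      exact I.neg_mem (I.mul_mem_left _ hb)

/-- One simple quotient. -/
theorem SelfInj_step {I : Ideal R} {u : R} (hI : IsSocle I u) {M : Type*} [AddCommGroup M]
    [Module R M] (N : Submodule R M) [IsSimpleModule R (M ⧸ N)] :
    Module.length R (M →ₗ[R] R ⧸ I) ≤ 1 + Module.length R (N →ₗ[R] R ⧸ I) := by
  obtain ⟨S, hS, hS'⟩ := SelfInj_socle hI
  let res : (M →ₗ[R] R ⧸ I) →ₗ[R] (N →ₗ[R] R ⧸ I) := LinearMap.lcomp R (R ⧸ I) N.subtype
  have hres : ∀ (φ : M →ₗ[R] R ⧸ I) (x : N), res φ x = φ x := fun φ x => rfl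
  have h1 : Module.length R (M →ₗ[R] R ⧸ I) =
      Module.length R (LinearMap.ker res) + Module.length R (LinearMap.range res) := by
    refine Module.length_eq_add_of_exact (LinearMap.ker res).subtype res.rangeRestrict
      (Submodule.injective_subtype _) res.surjective_rangeRestrict ?_
    intro x
    constructor
    · intro hx
      have hx' : res x = 0 := congrArg Subtype.val hx
      exact ⟨⟨x, hx'⟩, rfl⟩
    · rintro ⟨y, rfl⟩
      apply Subtype.ext
      exact y.2
  have h2 : Module.length R (LinearMap.range res) ≤ Module.length R (N →ₗ[R] R ⧸ I) :=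
    Module.length_le_of_injective (LinearMap.range res).subtype (Submodule.injective_subtype _)
  have hnt : Nontrivial (M ⧸ N) := IsSimpleModule.nontrivial R (M ⧸ N)
  obtain ⟨m', hm'⟩ := exists_ne (0 : M ⧸ N)
  obtain ⟨m, rfl⟩ := N.mkQ_surjective m'
  have hmax : ∀ a ∈ maximalIdeal R, a • m ∈ N := by
    intro a ha
    have h3 := IsSimpleModule.ker_toSpanSingleton_isMaximal R hm'
    have h4 := IsLocalRing.eq_maximalIdeal h3
    rw [← h4, LinearMap.mem_ker, LinearMap.toSpanSingleton_apply, ← map_smul] at ha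
    exact (Submodule.Quotient.mk_eq_zero N).1 ha
  have hspan : ∀ x : M, ∃ r : R, x - r • m ∈ N := by
    intro x
    have h3 := IsSimpleModule.span_singleton_eq_top R hm'
    have h4 : N.mkQ x ∈ Submodule.span R {N.mkQ m} := by
      rw [h3]
      exact Submodule.mem_top
    obtain ⟨r, hr⟩ := Submodule.mem_span_singleton.1 h4
    refine ⟨r, ?_⟩
    rw [← Submodule.Quotient.mk_eq_zero N]
    have h5 : N.mkQ (x - r • m) = 0 := by
      rw [map_sub, map_smul, hr, sub_self]
    exact h5
  let ev : LinearMap.ker res →ₗ[R] S := LinearMap.codRestrict S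
    ((LinearMap.applyₗ m : (M →ₗ[R] R ⧸ I) →ₗ[R] R ⧸ I).comp (LinearMap.ker res).subtype) (by
      rintro ⟨φ, hφ⟩
      apply hS'
      intro a ha
      change a • φ m = 0
      rw [← map_smul]
      have h3 : res φ ⟨a • m, hmax a ha⟩ = 0 := by
        rw [LinearMap.mem_ker.1 hφ]
        rfl
      exact h3)
  have hev : Function.Injective ev := by
    rw [injective_iff_map_eq_zero]
    rintro ⟨φ, hφ⟩ h0
    have h3 : φ m = 0 := congrArg Subtype.val h0
    apply Subtype.ext
    apply LinearMap.ext
    intro x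
    change φ x = 0
    obtain ⟨r, hr⟩ := hspan x
    have h4 : res φ ⟨x - r • m, hr⟩ = 0 := by
      rw [LinearMap.mem_ker.1 hφ]
      rfl
    have h5 : φ (x - r • m) = 0 := h4
    rwa [map_sub, map_smul, h3, smul_zero, sub_zero] at h5
  have h3 : Module.length R (LinearMap.ker res) ≤ 1 :=
    (Module.length_le_of_injective ev hev).trans hS
  rw [h1]
  exact add_le_add h3 h2

/-- The length of `Hom_R(M, R / I)` is at most the length of `M`, for `M` of finite length, if `R / I`
has a simple socle. Induction on `IsFiniteLength`: for `N ≤ M` with `M / N` simple,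
`0 → Hom(M/N, R/I) → Hom(M, R/I) → Hom(N, R/I)` is exact, and `Hom(M/N, R/I)` has length at most `1`:
`M / N ≅ R / 𝔪`, and a homomorphism `R / 𝔪 → R / I` is determined by the image of `1`, which is killed
by `𝔪`, so it is a multiple `r u` of `u` (if `z ∉ I` and `𝔪 z ⊆ I`, `IsSocle.exists_mul` gives `b` with
`z b - u ∈ I`, and `b` is a unit because `u ∉ I`); so `Hom(M/N, R/I)` is a quotient of `R / 𝔪`. -/
theorem length_hom_le {I : Ideal R} {u : R} (hI : IsSocle I u) {M : Type*} [AddCommGroup M]
    [Module R M] (h : IsFiniteLength R M) :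
    Module.length R (M →ₗ[R] R ⧸ I) ≤ Module.length R M := by
  induction h with
  | @of_subsingleton M _ _ _ =>
    have h1 : Subsingleton (M →ₗ[R] R ⧸ I) := by
      refine ⟨fun φ ψ => LinearMap.ext fun x => ?_⟩
      rw [Subsingleton.elim x 0, map_zero, map_zero]
    rw [Module.length_eq_zero]
    exact bot_le
  | @of_simple_quotient M _ _ N _ hN ih =>
    have h1 : Module.length R M = Module.length R N + Module.length R (M ⧸ N) :=
      Module.length_eq_add_of_exact N.subtype N.mkQ (Submodule.injective_subtype _)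
        N.mkQ_surjective (LinearMap.exact_subtype_mkQ N)
    rw [h1, Module.length_eq_one R (M ⧸ N), add_comm]
    exact (SelfInj_step hI N).trans (add_le_add le_rfl ih)

end Pool.Agent.UL35
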