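import Mathlib
import Pool.Agent.W_35cfd6_h67.SelfInj

/-!
`R / I` is self-injective for `I` irreducible (no coefficient field), conclusion.
-/

namespace Pool.Agent.UL35

open IsLocalRing Pool.Agent.W_MP_35cfd6_ag

variable {R : Type*} [CommRing R] [IsLocalRing R] [IsNoetherianRing R]

/-- For an ideal `𝔟 ⊇ I` every linear map `f : 𝔟 → R / I` vanishing on `I` is multiplication by an
element `c`. Let `N = 𝔟 / I ⊆ S = R / I` (a submodule, or `𝔟.map (Ideal.Quotient.mk I)`): the sequence
`0 → Hom(S / N, S) → Hom(S, S) → Hom(N, S)` is exact, `Hom(S, S) ≅ S` (`R`-linear maps), and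
`length_hom_le` for `S / N` and `N` shows that the image of the last map has length at least
`ℓ(S) - ℓ(S / N) = ℓ(N) ≥ ℓ(Hom(N, S))`, so it is everything (all lengths are finite). -/
theorem exists_mul_of_hom {I : Ideal R} {u : R} (hI : IsSocle I u)
    (hlen : IsFiniteLength R (R ⧸ I)) (N : Submodule R (R ⧸ I)) (f : N →ₗ[R] R ⧸ I) :
    ∃ c : R ⧸ I, ∀ x : N, f x = c * (x : R ⧸ I) := by
  have hS := isFiniteLength_iff_isNoetherian_isArtinian.1 hlen
  have hn : IsNoetherian R (R ⧸ I) := hS.1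
  have ha : IsArtinian R (R ⧸ I) := hS.2
  have hN : IsFiniteLength R N := isFiniteLength_iff_isNoetherian_isArtinian.2
    ⟨inferInstance, inferInstance⟩
  have hQ : IsFiniteLength R ((R ⧸ I) ⧸ N) := isFiniteLength_iff_isNoetherian_isArtinian.2
    ⟨inferInstance, inferInstance⟩
  have hH : IsFiniteLength R (N →ₗ[R] R ⧸ I) := by
    rw [← Module.length_ne_top_iff]
    exact ne_top_of_le_ne_top (Module.length_ne_top_iff.2 hN) (length_hom_le hI hN)
  have hH2 := isFiniteLength_iff_isNoetherian_isArtinian.1 hH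
  have hHn : IsNoetherian R (N →ₗ[R] R ⧸ I) := hH2.1
  have hHa : IsArtinian R (N →ₗ[R] R ⧸ I) := hH2.2
  obtain ⟨μ, hμ⟩ : ∃ μ : (R ⧸ I) →ₗ[R] N →ₗ[R] R ⧸ I, ∀ c x, μ c x = c * (x : R ⧸ I) :=
    ⟨(LinearMap.mul R (R ⧸ I)).compl₁₂ LinearMap.id N.subtype, fun c x => rfl⟩
  obtain ⟨κ, hκ⟩ : ∃ κ : LinearMap.ker μ →ₗ[R] ((R ⧸ I) ⧸ N) →ₗ[R] R ⧸ I,
      ∀ c x, κ c (Submodule.Quotient.mk x) = c * x := by
    have hle : ∀ c : LinearMap.ker μ, N ≤ LinearMap.ker (LinearMap.mul R (R ⧸ I) (c : R ⧸ I)) := by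
      intro c x hx
      have h1 : μ c = 0 := c.2
      have h2 := hμ c ⟨x, hx⟩
      rw [h1] at h2
      rw [LinearMap.mem_ker]
      exact h2.symm
    refine ⟨{ toFun := fun c => N.liftQ (LinearMap.mul R (R ⧸ I) (c : R ⧸ I)) (hle c)
              map_add' := ?_
              map_smul' := ?_ }, ?_⟩
    · intro c d
      refine Submodule.linearMap_qext _ (LinearMap.ext fun x => ?_)
      show ((c + d : LinearMap.ker μ) : R ⧸ I) * x = (c : R ⧸ I) * x + (d : R ⧸ I) * x
      rw [Submodule.coe_add, add_mul]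
    · intro r c
      refine Submodule.linearMap_qext _ (LinearMap.ext fun x => ?_)
      show ((r • c : LinearMap.ker μ) : R ⧸ I) * x = r • ((c : R ⧸ I) * x)
      rw [Submodule.coe_smul, smul_mul_assoc]
    · intro c x
      rfl
  have hκi : Function.Injective κ := by
    rw [injective_iff_map_eq_zero]
    intro c hc
    have h1 := hκ c 1
    rw [hc, mul_one] at h1
    exact Subtype.ext h1.symm
  have l1 : Module.length R (LinearMap.ker μ) ≤ Module.length R ((R ⧸ I) ⧸ N) :=
    (Module.length_le_of_injective κ hκi).trans (length_hom_le hI hQ)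
  have l2 : Module.length R (R ⧸ I) =
      Module.length R (LinearMap.ker μ) + Module.length R (LinearMap.range μ) :=
    Module.length_eq_add_of_exact (LinearMap.ker μ).subtype μ.rangeRestrict
      (Submodule.subtype_injective _) μ.surjective_rangeRestrict (by
        intro x
        constructor
        · intro hx
          exact ⟨⟨x, congrArg Subtype.val hx⟩, rfl⟩
        · rintro ⟨y, rfl⟩
          exact Subtype.ext y.2)
  have l3 : Module.length R (R ⧸ I) = Module.length R N + Module.length R ((R ⧸ I) ⧸ N) :=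
    Module.length_eq_add_of_exact N.subtype N.mkQ (Submodule.subtype_injective _)
      (Submodule.mkQ_surjective _) (by
        intro x
        constructor
        · intro hx
          exact ⟨⟨x, (Submodule.Quotient.mk_eq_zero _).1 hx⟩, rfl⟩
        · rintro ⟨y, rfl⟩
          exact (Submodule.Quotient.mk_eq_zero _).2 y.2)
  have l4 := length_hom_le hI hN
  have f1 : Module.length R ((R ⧸ I) ⧸ N) ≠ ⊤ := Module.length_ne_top_iff.2 hQ
  have l5 : Module.length R N ≤ Module.length R (LinearMap.range μ) := by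
    have l6 : Module.length R N + Module.length R ((R ⧸ I) ⧸ N) ≤
        Module.length R (LinearMap.range μ) + Module.length R ((R ⧸ I) ⧸ N) := by
      rw [← l3, l2, add_comm]
      exact add_le_add_right l1 _
    exact (ENat.add_le_add_iff_right f1).1 l6
  have htop : LinearMap.range μ = ⊤ := by
    by_contra hne
    have h1 := Submodule.length_lt hne
    exact absurd (h1.trans_le (l4.trans l5)) (lt_irrefl _)
  obtain ⟨c, hc⟩ : f ∈ LinearMap.range μ := by
    rw [htop]
    exact Submodule.mem_top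
  exact ⟨c, fun x => by rw [← hc, hμ]⟩

/-- `Module.Baer (R ⧸ I) (R ⧸ I)`. -/
theorem baer {I : Ideal R} {u : R} (hI : IsSocle I u) (hlen : IsFiniteLength R (R ⧸ I)) :
    Module.Baer (R ⧸ I) (R ⧸ I) := by
  intro J g
  obtain ⟨c, hc⟩ := exists_mul_of_hom hI hlen (J.restrictScalars R) (g.restrictScalars R)
  exact ⟨LinearMap.mulLeft (R ⧸ I) c, fun x hx => (hc ⟨x, hx⟩).symm⟩

/-- As `exists_functional` in `Pool/Agent/W_MP_35cfd6_ag/Dual.lean`, without a coefficient field. `M / I M` is a
module over `S = R / I`, and the annihilator of the class `z̄` of `z` in `S` is `0`: otherwise it contains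
`ū`. So `S z̄ ≅ S`, and the map `S z̄ → S`, `z̄ ↦ 1`, extends to `M / I M → S` by `baer`
(`Module.Baer.extension_property`). -/
theorem exists_functional' {I : Ideal R} {u : R} (hI : IsSocle I u)
    (hlen : IsFiniteLength R (R ⧸ I)) {M : Type*} [AddCommGroup M] [Module R M] (z : M)
    (hz : u • z ∉ (I • ⊤ : Submodule R M)) : ∃ φ : M →ₗ[R] R ⧸ I, φ z = 1 := by
  obtain ⟨i, hi⟩ : ∃ i : (R ⧸ I) →ₗ[R ⧸ I] (M ⧸ (I • ⊤ : Submodule R M)),
      ∀ c, i c = c • (Submodule.Quotient.mk z : M ⧸ (I • ⊤ : Submodule R M)) :=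
    ⟨LinearMap.toSpanSingleton (R ⧸ I) _ _, fun c => rfl⟩
  have hinj : Function.Injective i := by
    rw [injective_iff_map_eq_zero]
    intro c hc
    obtain ⟨a, rfl⟩ := Ideal.Quotient.mk_surjective c
    rw [Ideal.Quotient.eq_zero_iff_mem]
    by_contra ha
    obtain ⟨b, hb⟩ := hI.exists_mul ha
    apply hz
    rw [← Submodule.Quotient.mk_eq_zero, Submodule.Quotient.mk_smul]
    have h1 : (u • (Submodule.Quotient.mk z : M ⧸ (I • ⊤ : Submodule R M))) =
        (Ideal.Quotient.mk I u) • (Submodule.Quotient.mk z : M ⧸ (I • ⊤ : Submodule R M)) := rfl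
    have h2 : Ideal.Quotient.mk I u = Ideal.Quotient.mk I b * Ideal.Quotient.mk I a := by
      rw [← map_mul, eq_comm, Ideal.Quotient.eq, mul_comm]
      exact hb
    rw [h1, h2, mul_smul, ← hi, hc, smul_zero]
  obtain ⟨φ, hφ⟩ := (baer hI hlen).extension_property i hinj LinearMap.id
  refine ⟨(φ.restrictScalars R) ∘ₗ (I • ⊤ : Submodule R M).mkQ, ?_⟩
  have h1 := LinearMap.congr_fun hφ 1
  rw [LinearMap.comp_apply, hi, one_smul] at h1
  exact h1

end Pool.Agent.UL35
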