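import Mathlib
import Pool.Agent.W_35cfd6_h67.Pres

/-!
Finitely generated algebras over `F`-finite rings are `F`-finite.
-/

namespace Pool.Agent.UL35

open IsLocalRing Polynomial Pool.Agent.W_MP_35cfd6_ag

variable {p : ℕ} {R : Type*} [Fact p.Prime] [CommRing R] [CharP R p]

/-- `F_* R` is finite over `R` iff the Frobenius `R → R` is a finite ring map (the module structure of
`FPush p 1 R` is the one of `iterateFrobenius R p 1`, `iterateFrobenius_one`). -/
theorem finite_frobenius (hF : Module.Finite R (FPush p 1 R)) : (frobenius R p).Finite := by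
  have h1 : (iterateFrobenius R p 1).Finite := hF
  rwa [iterateFrobenius_one] at h1

/-- Generators for a finite ring map. -/
theorem VD2_gens {A B : Type*} [CommRing A] [CommRing B] {φ : A →+* B} (h : φ.Finite) :
    ∃ (r : ℕ) (g : Fin r → B), ∀ b : B, ∃ a : Fin r → A, b = ∑ j, φ (a j) * g j := by
  let _ : Algebra A B := φ.toAlgebra
  have h2 : Module.Finite A B := h
  obtain ⟨r, g, hg⟩ := Module.Finite.exists_fin (R := A) (M := B)
  refine ⟨r, g, fun b => ?_⟩
  have h3 : b ∈ Submodule.span A (Set.range g) := by
    rw [hg]
    exact Submodule.mem_top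
  rw [Submodule.mem_span_range_iff_exists_fun] at h3
  obtain ⟨a, ha⟩ := h3
  exact ⟨a, ha.symm⟩

/-- Frobenius is integral. -/
theorem VD2_integral {S : Type*} [CommRing S] [CharP S p] : (frobenius S p).IsIntegral := by
  intro x
  refine ⟨X ^ p - C x, monic_X_pow_sub_C x (Fact.out : p.Prime).ne_zero, ?_⟩
  rw [eval₂_sub, eval₂_pow, eval₂_X, eval₂_C, frobenius_def, sub_self]

/-- The iterated Frobenius is finite. -/
theorem VD2_iterate (h : (frobenius R p).Finite) (e : ℕ) : (iterateFrobenius R p e).Finite := by
  induction e with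
  | zero =>
    rw [iterateFrobenius_zero]
    exact RingHom.Finite.id R
  | succ e ih =>
    have h2 : iterateFrobenius R p (e + 1) = (iterateFrobenius R p e).comp (frobenius R p) := by
      rw [iterateFrobenius_add, iterateFrobenius_one]
    rw [h2]
    exact RingHom.Finite.comp ih h

/-- If the Frobenius of `R` is finite and `S` is an `R`-algebra of finite type then the Frobenius of `S`
is finite: it is of finite type because `(frobenius S p).comp (algebraMap R S) =
(algebraMap R S).comp (frobenius R p)` is (`RingHom.FiniteType.of_comp_finiteType`), and it is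
integral (`x` is a root of `T^p - x^p`); `RingHom.finite_iff_isIntegral_and_finiteType`. -/
theorem finite_frobenius_of_finiteType {S : Type*} [CommRing S] [Algebra R S] [CharP S p]
    (h : (frobenius R p).Finite) (hS : Algebra.FiniteType R S) : (frobenius S p).Finite := by
  rw [RingHom.finite_iff_isIntegral_and_finiteType]
  refine ⟨VD2_integral, ?_⟩
  have hc : (frobenius S p).comp (algebraMap R S) = (algebraMap R S).comp (frobenius R p) := by
    ext x
    simp [frobenius_def]
  refine RingHom.FiniteType.of_comp_finiteType (f := algebraMap R S) ?_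
  rw [hc]
  exact RingHom.FiniteType.comp (RingHom.finiteType_algebraMap.2 hS) h.finiteType

/-- The consequence for subalgebras of `R[T]`: `Good.ffin`. (`𝓥` has characteristic `p`:
`Subalgebra` of `R[X]`; generators `h j` of the module of `frobenius 𝓥 p`.) -/
theorem exists_ffin (hF : Module.Finite R (FPush p 1 R)) {𝓥 : Subalgebra R R[X]} (h𝓥 : 𝓥.FG) :
    ∃ (r : ℕ) (h : Fin r → R[X]), (∀ j, h j ∈ 𝓥) ∧
      ∀ f ∈ 𝓥, ∃ a : Fin r → R[X], (∀ j, a j ∈ 𝓥) ∧ f = ∑ j, a j ^ p * h j := by
  have hS : Algebra.FiniteType R 𝓥 := (Subalgebra.fg_iff_finiteType 𝓥).1 h𝓥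
  have hch : CharP 𝓥 p := RingHom.charP (algebraMap 𝓥 R[X]) Subtype.val_injective p
  have h1 : (frobenius 𝓥 p).Finite := finite_frobenius_of_finiteType (finite_frobenius hF) hS
  obtain ⟨r, h, hh⟩ := VD2_gens h1
  refine ⟨r, fun j => (h j : R[X]), fun j => (h j).2, fun f hf => ?_⟩
  obtain ⟨a, ha⟩ := hh ⟨f, hf⟩
  refine ⟨fun j => (a j : R[X]), fun j => (a j).2, ?_⟩
  have h4 := congrArg (Subtype.val) ha
  rw [AddSubmonoidClass.coe_finsetSum] at h4
  exact h4

/-- All `F^e_* R` are finite: `iterateFrobenius R p (e+1)` is the composition of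
`iterateFrobenius R p e` and `frobenius R p` (compare `finite_fpush_field` in
`Pool/Agent/W_MP_35cfd6_ag/Final.lean`). -/
theorem finite_fpush (hF : Module.Finite R (FPush p 1 R)) (e : ℕ) :
    Module.Finite R (FPush p e R) := by
  exact VD2_iterate (finite_frobenius hF) e

/-- The residue field is `F`-finite (compare `finite_fpush_of_surjective` in
`Pool/Agent/W_MP_35cfd6_ag/Final.lean`; here `R` is not a field, the proof is the same). -/
theorem finite_fpush_residueField [IsLocalRing R] (hF : Module.Finite R (FPush p 1 R)) (e : ℕ) :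
    Module.Finite (ResidueField R) (FPush p e (ResidueField R)) := by
  have h1 := VD2_iterate (finite_frobenius hF) e
  have hc : (iterateFrobenius (ResidueField R) p e).comp (residue R) =
      (residue R).comp (iterateFrobenius R p e) := by
    ext x
    simp [iterateFrobenius_def]
  have h2 : (iterateFrobenius (ResidueField R) p e).Finite := by
    refine RingHom.Finite.of_comp_finite (f := residue R) ?_
    rw [hc]
    exact RingHom.Finite.comp (RingHom.Finite.of_surjective _ residue_surjective) h1
  exact h2

end Pool.Agent.UL35
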