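import Mathlib
import Pool.Agent.W_MP_35cfd6_ag.Final
import Pool.Agent.W_35cfd6_h67.SelfInj2
import Pool.Agent.W_35cfd6_h67.VD2

/-!
The identity of Q1 from uniform lifting (`identity_of_lift` of `W_MP_35cfd6_ag`, without the
coefficient field).
-/

namespace Pool.Agent.UL35

open IsLocalRing Pool.Agent.W_MP_35cfd6_ag

theorem identity_of_lift' {p : ℕ} [Fact p.Prime] {R : Type*} [CommRing R] [IsDomain R]
    [IsLocalRing R] [IsNoetherianRing R] [IsIntegrallyClosed R] [CharP R p]
    (hR : ¬ IsField R)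
    (hfin : ∀ e, Module.Finite R (FPush p e R))
    (hfinκ : ∀ e, Module.Finite (ResidueField R) (FPush p e (ResidueField R)))
    {Q : Ideal R} {N : ℕ} (hN : maximalIdeal R ^ N ≤ Q)
    (hlift : ∀ (e : ℕ) (φ : FPush p e R →ₗ[R] R ⧸ Q) (r : FPush p e R), φ r = 1 →
      ∃ Φ : FPush p e R →ₗ[R] R, IsUnit (Φ r)) :
    ∃ I J : Ideal R, I < J ∧ I.radical = maximalIdeal R ∧ J.radical = maximalIdeal R ∧
      ∀ e : ℕ, (freeRank R (FPush p e R) : ℚ) /
        (Module.finrank (ResidueField R) (FPush p e (ResidueField R)) : ℚ) =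
      ((HK p I e : ℚ) - (HK p J e : ℚ)) / (lengthBetween I J : ℚ) := by
  classical
  have hmtop : maximalIdeal R ≠ ⊤ := Ideal.IsPrime.ne_top inferInstance
  have hK : Q ⊓ maximalIdeal R ^ 2 ≠ ⊤ := by
    intro h
    have h1 : maximalIdeal R ^ 2 = ⊤ := top_le_iff.1 (h ▸ inf_le_right)
    exact hmtop (top_le_iff.1 (h1 ▸ Ideal.pow_le_self two_ne_zero))
  obtain ⟨I, u, hI, hIK⟩ := exists_isSocle_le' hR hK (N := N + 2)
    (le_inf ((Ideal.pow_le_pow_right (Nat.le_add_right N 2)).trans hN)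
      (Ideal.pow_le_pow_right (by omega)))
  obtain ⟨n, hn⟩ := hI.exists_pow_le
  have hIm : I ≤ maximalIdeal R := hIK.trans (inf_le_right.trans (Ideal.pow_le_self two_ne_zero))
  have hum : u ∈ maximalIdeal R := by
    by_contra hnu
    have hu : IsUnit u := by
      by_contra h
      exact hnu ((mem_maximalIdeal _).2 h)
    have h1 : maximalIdeal R ≤ maximalIdeal R ^ 2 := by
      intro a ha
      have h2 := hI.mul_mem ha
      rw [mul_comm] at h2
      exact (hIK ((Ideal.unit_mul_mem_iff_mem I hu).1 h2)).2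
    apply hR
    rw [IsLocalRing.isField_iff_maximalIdeal_eq]
    apply Submodule.eq_bot_of_le_smul_of_le_jacobson_bot (maximalIdeal R) _
      (IsNoetherian.noetherian _) _ (IsLocalRing.maximalIdeal_le_jacobson _)
    rw [smul_eq_mul, ← pow_two]
    exact h1
  have hIJ : I < I ⊔ Ideal.span {u} := by
    refine lt_of_le_of_ne le_sup_left fun h => hI.1 ?_
    rw [h]
    exact Ideal.mem_sup_right (Ideal.mem_span_singleton_self u)
  have hJm : I ⊔ Ideal.span {u} ≤ maximalIdeal R :=
    sup_le hIm ((Ideal.span_singleton_le_iff_mem _).2 hum)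
  have hrad : ∀ L : Ideal R, I ≤ L → L ≤ maximalIdeal R → L.radical = maximalIdeal R := by
    intro L h1 h2
    apply le_antisymm
    · exact (Ideal.IsPrime.radical_le_iff inferInstance).2 h2
    · intro a ha
      exact ⟨n, h1 (hn (Ideal.pow_mem_pow ha n))⟩
  refine ⟨I, I ⊔ Ideal.span {u}, hIJ, hrad I le_rfl hIm, hrad _ le_sup_left hJm, ?_⟩
  intro e
  have := hfin e
  have := hfinκ e
  apply identity hIJ hn
  rintro π hπ ⟨i, hi⟩
  apply le_antisymm _ (Submodule.smul_mono_left hIJ.le)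
  rw [Submodule.sup_smul]
  apply sup_le le_rfl
  rw [Submodule.smul_le]
  intro a ha z _
  rw [Ideal.mem_span_singleton'] at ha
  obtain ⟨c, rfl⟩ := ha
  rw [mul_smul]
  apply Submodule.smul_mem
  by_contra hz
  obtain ⟨φ, hφ⟩ := exists_functional' hI (isFiniteLength_quot hn) z hz
  -- extend by zero
  have hproj : ∀ x : FPush p e R,
      ((LinearMap.id : FPush p e R →ₗ[R] FPush p e R) - i ∘ₗ π) x ∈ LinearMap.ker π := by
    intro x
    rw [LinearMap.mem_ker, LinearMap.sub_apply, LinearMap.id_apply, map_sub, sub_eq_zero]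
    have h1 := LinearMap.congr_fun hi (π x)
    exact h1.symm
  let ρ : FPush p e R →ₗ[R] LinearMap.ker π :=
    LinearMap.codRestrict (LinearMap.ker π) (LinearMap.id - i ∘ₗ π) hproj
  have hρz : ρ (z : FPush p e R) = z := by
    apply Subtype.ext
    change (z : FPush p e R) - i (π z) = z
    rw [(LinearMap.mem_ker).1 z.2, map_zero, sub_zero]
  have hIQ : I ≤ Q := hIK.trans inf_le_left
  let ψ : FPush p e R →ₗ[R] R ⧸ Q := (Submodule.factor hIQ) ∘ₗ φ ∘ₗ ρ
  have hψ : ψ z = 1 := by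
    change Submodule.factor hIQ (φ (ρ (z : FPush p e R))) = 1
    rw [hρz, hφ]
    rfl
  obtain ⟨Φ, hΦ⟩ := hlift e ψ z hψ
  exact hπ (Φ ∘ₗ (LinearMap.ker π).subtype) z hΦ

/-- The identity of Q1 from uniform lifting. -/
theorem identity_of_uniformLift {p : ℕ} [Fact p.Prime] {R : Type*} [CommRing R] [IsDomain R]
    [IsLocalRing R] [IsNoetherianRing R] [IsIntegrallyClosed R] [CharP R p]
    (hR : ¬ IsField R) (hF : Module.Finite R (FPush p 1 R)) (h : UniformLift p R) :
    ∃ I J : Ideal R, I < J ∧ I.radical = maximalIdeal R ∧ J.radical = maximalIdeal R ∧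
      ∀ e : ℕ, (freeRank R (FPush p e R) : ℚ) /
        (Module.finrank (ResidueField R) (FPush p e (ResidueField R)) : ℚ) =
      ((HK p I e : ℚ) - (HK p J e : ℚ)) / (lengthBetween I J : ℚ) := by
  obtain ⟨T, hT⟩ := h
  exact identity_of_lift' hR (finite_fpush hF) (finite_fpush_residueField hF) (N := T) le_rfl hT

end Pool.Agent.UL35
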