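import Mathlib
import Pool.Agent.W_35cfd6_h67.Pres

/-!
Uniform lifting for rings which are not `F`-split.
-/

namespace Pool.Agent.UL35

open IsLocalRing Polynomial Pool.Agent.W_MP_35cfd6_ag

variable {p : ℕ} {R : Type*} [Fact p.Prime] [CommRing R] [CharP R p] [IsLocalRing R]
  [IsNoetherianRing R]

/-- Artin-Rees for `Hom(F_* R, R)`: there is `N` such that if there is a linear map
`ψ : F_* R → R / 𝔪^N` with `ψ 1 = 1` then `R` is `F`-split. With a presentation (`exists_presentation`):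
lift `ψ (e i)` to `v i ∈ R`; then `ρ v ∈ 𝔪^N` and by Artin-Rees for the image of `ρ : R^α → R^β`
(`Ideal.exists_pow_inf_eq_pow_smul`) there is `v'` with `ρ v' = 0` and `v - v' ∈ 𝔪^{N-κ}`, `N = κ + 1`; the
linear map `Φ` with `Φ (e i) = v' i` satisfies `Φ 1 ∈ 1 + 𝔪`; divide by this unit. -/
theorem exists_fsplit_bound (hF : Module.Finite R (FPush p 1 R)) :
    ∃ N, ∀ ψ : FPush p 1 R →ₗ[R] R ⧸ (maximalIdeal R ^ N), ψ (toF 1) = 1 → FSplit p R := by
  classical
  obtain ⟨α, e, β, ρ, hgen, hrel, hlin⟩ := exists_presentation hF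
  let ρm : (Fin α → R) →ₗ[R] (Fin β → R) :=
    LinearMap.pi fun j => ∑ i, (ρ j i) • LinearMap.proj i
  have hρm : ∀ (v : Fin α → R) (j : Fin β), ρm v j = ∑ i, ρ j i * v i := by
    intro v j
    change (∑ i, (ρ j i) • (LinearMap.proj i : (Fin α → R) →ₗ[R] R)) v = _
    rw [LinearMap.sum_apply]
    rfl
  obtain ⟨κ, hκ⟩ := Ideal.exists_pow_inf_eq_pow_smul (maximalIdeal R) (LinearMap.range ρm)
  refine ⟨κ + 1, ?_⟩
  intro ψ hψ
  have hv : ∀ i, ∃ v : R, Ideal.Quotient.mk (maximalIdeal R ^ (κ + 1)) v = ψ (toF (e i)) :=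
    fun i => Ideal.Quotient.mk_surjective _
  choose v hv using hv
  -- evaluation of `ψ`
  have hψe : ∀ c : Fin α → R, ψ (toF (∑ i, c i ^ p * e i)) =
      Ideal.Quotient.mk (maximalIdeal R ^ (κ + 1)) (∑ i, c i * v i) := by
    intro c
    have h1 : (toF (∑ i, c i ^ p * e i) : FPush p 1 R) =
        ∑ i, (c i • (toF (e i) : FPush p 1 R)) := by
      rw [Finset.sum_congr rfl fun i _ => smul_toF (c i) (e i)]
      rfl
    rw [h1, map_sum, map_sum]
    refine Finset.sum_congr rfl fun i _ => ?_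
    rw [map_smul, ← hv, map_mul, Algebra.smul_def]
    rfl
  have hρv : ∀ j, ∑ i, ρ j i * v i ∈ maximalIdeal R ^ (κ + 1) := by
    intro j
    rw [← Ideal.Quotient.eq_zero_iff_mem, ← hψe, hrel j]
    exact map_zero ψ
  have h2 : ρm v ∈ (maximalIdeal R ^ (κ + 1) • ⊤ : Submodule R (Fin β → R)) ⊓
      LinearMap.range ρm := by
    refine ⟨?_, ⟨v, rfl⟩⟩
    have h3 : ρm v = ∑ j, (∑ i, ρ j i * v i) • (Pi.single j 1 : Fin β → R) := by
      funext j
      rw [hρm, Finset.sum_apply, Finset.sum_eq_single j]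
      · simp
      · intro j' _ hj'
        simp [hj'.symm]
      · intro h
        exact absurd (Finset.mem_univ j) h
    rw [h3]
    exact sum_mem fun j _ => Submodule.smul_mem_smul (hρv j) Submodule.mem_top
  rw [hκ (κ + 1) (Nat.le_succ κ), Nat.add_sub_cancel_left, pow_one] at h2
  have h4 : ρm v ∈ (maximalIdeal R • (⊤ : Submodule R (Fin α → R))).map ρm := by
    rw [Submodule.map_smul'', Submodule.map_top]
    exact Submodule.smul_mono le_rfl inf_le_right h2
  obtain ⟨w, hw, hwv⟩ := h4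
  have hwm : ∀ i, w i ∈ maximalIdeal R := by
    intro i
    have h5 : (LinearMap.proj i : (Fin α → R) →ₗ[R] R) w ∈
        (maximalIdeal R • (⊤ : Submodule R (Fin α → R))).map
          (LinearMap.proj i : (Fin α → R) →ₗ[R] R) := ⟨w, hw, rfl⟩
    rw [Submodule.map_smul''] at h5
    exact (Submodule.smul_le.2 fun r hr n _ => Ideal.mul_mem_right n _ hr) h5
  obtain ⟨Φ, hΦ⟩ := hlin (v - w) (by
    intro j
    rw [← hρm, map_sub, hwv, sub_self]
    rfl)
  obtain ⟨c, hc⟩ := hgen 1
  have hΦ1 : Φ (toF 1) = ∑ i, c i * (v i - w i) := by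
    have h1 : (toF (1 : R) : FPush p 1 R) =
        ∑ i, (c i • (toF (e i) : FPush p 1 R)) := by
      rw [Finset.sum_congr rfl fun i _ => smul_toF (c i) (e i)]
      exact hc
    rw [h1, map_sum]
    refine Finset.sum_congr rfl fun i _ => ?_
    rw [map_smul, hΦ, smul_eq_mul]
    rfl
  have hψ1 : ∑ i, c i * v i - 1 ∈ maximalIdeal R := by
    have h6 : ψ (toF (∑ i, c i ^ p * e i)) = 1 := by
      rw [← hc]
      exact hψ
    rw [hψe, ← sub_eq_zero, ← map_one (Ideal.Quotient.mk (maximalIdeal R ^ (κ + 1))), ← map_sub,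
      Ideal.Quotient.eq_zero_iff_mem] at h6
    exact Ideal.pow_le_self (Nat.succ_ne_zero κ) h6
  have hunit : IsUnit (Φ (toF 1)) := by
    rw [← IsLocalRing.notMem_maximalIdeal]
    intro h7
    apply (Ideal.ne_top_iff_one _).1 (IsLocalRing.maximalIdeal.isMaximal R).ne_top
    have h8 : (1 : R) = Φ (toF 1) + ∑ i, c i * w i - (∑ i, c i * v i - 1) := by
      rw [hΦ1]
      have : ∑ i, c i * (v i - w i) = ∑ i, c i * v i - ∑ i, c i * w i := by
        rw [← Finset.sum_sub_distrib]
        exact Finset.sum_congr rfl fun i _ => mul_sub _ _ _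
      rw [this]
      ring
    rw [h8]
    exact sub_mem (add_mem h7 (Ideal.sum_mem _ fun i _ => Ideal.mul_mem_left _ _ (hwm i))) hψ1
  obtain ⟨u, hu⟩ := hunit
  refine ⟨((u⁻¹ : Rˣ) : R) • Φ, ?_⟩
  rw [LinearMap.smul_apply, ← hu, smul_eq_mul, Units.inv_mul]

/-- Take `T = N` from `exists_fsplit_bound`. For `e ≥ 1` and `φ : F^e_* R → R / 𝔪^N` with `φ r = 1`
the map `s ↦ φ (s ^ p ^ (e - 1) * r)` is linear `F_* R → R / 𝔪^N` and maps `1` to `1`, so `R` is
`F`-split, contradiction. For `e = 0`: `r` is a unit (or `𝔪^N = R`; take `N ≥ 1`, enlarging `N` if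
necessary), as `1 = φ r = r φ 1`, and `Φ = id` works (`FPush p 0 R`, `a ^ p ^ 0 = a`). -/
theorem uniformLift_of_not_fsplit (hF : Module.Finite R (FPush p 1 R)) (h : ¬ FSplit p R) :
    UniformLift p R := by
  obtain ⟨N, hN⟩ := exists_fsplit_bound hF
  refine ⟨N + 1, ?_⟩
  intro e φ r hr
  have hsmul : ∀ (e : ℕ) (a x : R), (a • (toF x : FPush p e R)) = toF (a ^ p ^ e * x) := by
    intro e a x
    rw [fpush_smul]
    rfl
  rcases e with _ | e
  · -- `e = 0`
    let Φ : FPush p 0 R →ₗ[R] R :=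
      { toFun := fun x => ofF x
        map_add' := fun x y => rfl
        map_smul' := by
          intro a x
          change (ofF (a • (toF (ofF x) : FPush p 0 R)) : R) = a * ofF x
          rw [hsmul, pow_zero, pow_one]
          rfl }
    refine ⟨Φ, ?_⟩
    change IsUnit (ofF r : R)
    rw [← IsLocalRing.notMem_maximalIdeal]
    intro hm
    obtain ⟨y, hy⟩ := Ideal.Quotient.mk_surjective (φ (toF 1))
    have h1 : φ r = Ideal.Quotient.mk (maximalIdeal R ^ (N + 1)) (ofF r * y) := by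
      have h2 : r = (ofF r : R) • (toF 1 : FPush p 0 R) := by
        rw [hsmul, pow_zero, pow_one, mul_one]
        rfl
      conv_lhs => rw [h2]
      rw [map_smul, ← hy, map_mul, Algebra.smul_def]
      rfl
    rw [hr, ← map_one (Ideal.Quotient.mk (maximalIdeal R ^ (N + 1))), Ideal.Quotient.eq] at h1
    apply (Ideal.ne_top_iff_one _).1 (IsLocalRing.maximalIdeal.isMaximal R).ne_top
    have h3 : (1 : R) = (1 - ofF r * y) + ofF r * y := by ring
    rw [h3]
    exact add_mem (Ideal.pow_le_self (Nat.succ_ne_zero N) h1) (Ideal.mul_mem_right _ _ hm)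
  · -- `e + 1`
    exfalso
    apply h
    have hle : maximalIdeal R ^ (N + 1) ≤ maximalIdeal R ^ N := Ideal.pow_le_pow_right (Nat.le_succ N)
    let q : (R ⧸ maximalIdeal R ^ (N + 1)) →ₗ[R] (R ⧸ maximalIdeal R ^ N) :=
      Submodule.factor hle
    let ψ0 : FPush p 1 R →ₗ[R] (R ⧸ maximalIdeal R ^ (N + 1)) :=
      { toFun := fun s => φ (toF (iterateFrobenius R p e (ofF s) * ofF r))
        map_add' := by
          intro s s'
          change φ (toF (iterateFrobenius R p e (ofF s + ofF s') * ofF r)) = _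
          rw [map_add, add_mul]
          exact map_add φ (toF _) (toF _)
        map_smul' := by
          intro a s
          change φ (toF (iterateFrobenius R p e (ofF (a • (toF (ofF s) : FPush p 1 R))) * ofF r)) =
            a • φ (toF (iterateFrobenius R p e (ofF s) * ofF r))
          rw [smul_toF]
          change φ (toF (iterateFrobenius R p e (a ^ p * ofF s) * ofF r)) = _
          rw [map_mul, mul_assoc, ← map_smul, hsmul, iterateFrobenius_def, ← pow_mul,
            ← pow_succ'] }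
    refine hN (q.comp ψ0) ?_
    change q (φ (toF (iterateFrobenius R p e 1 * ofF r))) = 1
    rw [map_one, one_mul]
    change q (φ r) = 1
    rw [hr]
    rfl

end Pool.Agent.UL35
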