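import Mathlib
import Pool.Agent.W_35cfd6_h67.Data

/-!
The key lemma (KL) of proofs row 303 and first properties of the reflexive powers. Write `K` for
`FractionRing R` and `ι` for `algebraMap R K`.
-/

namespace Pool.Agent.UL35

open IsLocalRing Polynomial

variable {R : Type*} [CommRing R]

theorem inv_anti {𝔟 𝔟' : Ideal R} (h : 𝔟 ≤ 𝔟') : inv 𝔟' ⊆ inv 𝔟 := by
  exact fun z hz y hy => hz y (h hy)

theorem one_mem_inv (𝔟 : Ideal R) : (1 : FractionRing R) ∈ inv 𝔟 := by
  exact fun y _ => ⟨y, by rw [one_mul]⟩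

/-- `z ∈ (R : 𝔟)`, `z' ∈ (R : 𝔟')` implies `z z' ∈ (R : 𝔟 𝔟')` (`Submodule.mul_induction_on`). -/
theorem mul_mem_inv {𝔟 𝔟' : Ideal R} {z z' : FractionRing R} (hz : z ∈ inv 𝔟) (hz' : z' ∈ inv 𝔟') :
    z * z' ∈ inv (𝔟 * 𝔟') := by
  intro y hy
  refine Submodule.mul_induction_on hy (fun a ha b hb => ?_) (fun a b ha hb => ?_)
  · have h := mul_mem (hz a ha) (hz' b hb)
    have e : z * z' * algebraMap R (FractionRing R) (a * b) =
        z * algebraMap R (FractionRing R) a * (z' * algebraMap R (FractionRing R) b) := by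
      rw [map_mul]
      ring
    rw [e]
    exact h
  · rw [map_add, mul_add]
    exact add_mem ha hb

theorem pow_mem_inv {𝔟 : Ideal R} {z : FractionRing R} (hz : z ∈ inv 𝔟) (n : ℕ) :
    z ^ n ∈ inv (𝔟 ^ n) := by
  induction n with
  | zero =>
    rw [pow_zero]
    exact one_mem_inv _
  | succ n ih =>
    rw [pow_succ, pow_succ]
    exact mul_mem_inv ih hz

theorem prod_mem_inv {𝔟 : Ideal R} {n : ℕ} (z : Fin n → FractionRing R) (hz : ∀ i, z i ∈ inv 𝔟) :
    ∏ i, z i ∈ inv (𝔟 ^ n) := by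
  induction n with
  | zero =>
    rw [Fin.prod_univ_zero]
    exact one_mem_inv _
  | succ n ih =>
    rw [Fin.prod_univ_castSucc, pow_succ]
    exact mul_mem_inv (ih _ fun i => hz i.castSucc) (hz _)

theorem symb_zero (𝔞 : Ideal R) : symb 𝔞 0 = ⊤ := by
  rw [eq_top_iff]
  intro x _ z hz
  refine hz x ?_
  rw [pow_zero, Ideal.one_eq_top]
  exact Submodule.mem_top

theorem le_symb (𝔞 : Ideal R) (n : ℕ) : 𝔞 ^ n ≤ symb 𝔞 n := by
  exact fun x hx z hz => hz x hx

theorem symb_anti (𝔞 : Ideal R) {m n : ℕ} (h : m ≤ n) : symb 𝔞 n ≤ symb 𝔞 m := by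
  exact fun x hx z hz => hx z (inv_anti (Ideal.pow_le_pow_right h) hz)

/-- `x ∈ 𝔞^{(m)}`, `y ∈ 𝔞^{(n)}`, `z ∈ (R : 𝔞^{m+n})`. For `b ∈ 𝔞^n` one has `z b ∈ (R : 𝔞^m)`, so
`z b x ∈ R`; hence `z x ∈ (R : 𝔞^n)` and `z x y ∈ R`. -/
theorem symb_mul_le (𝔞 : Ideal R) (m n : ℕ) : symb 𝔞 m * symb 𝔞 n ≤ symb 𝔞 (m + n) := by
  refine Submodule.mul_le.2 fun x hx y hy z hz => ?_
  have h1 : z * algebraMap R (FractionRing R) x ∈ inv (𝔞 ^ n) := by
    intro b hb
    have h2 : z * algebraMap R (FractionRing R) b ∈ inv (𝔞 ^ m) := by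
      intro a ha
      have h3 := hz (a * b) (by
        rw [pow_add]
        exact Ideal.mul_mem_mul ha hb)
      rw [map_mul] at h3
      convert h3 using 1
      ring
    have h4 := hx _ h2
    convert h4 using 1
    ring
  have h5 := hy _ h1
  rw [map_mul]
  convert h5 using 1
  ring

variable [IsDomain R] [IsNoetherianRing R] [IsIntegrallyClosed R]

/-- (KL): if `w z y ∈ R` for all `z ∈ (R : 𝔟)` and `y ∈ 𝔟` then `w ∈ R`. Indeed
`w (R : 𝔟) ⊆ (R : 𝔟)`, and `(R : 𝔟)` is a nonzero (it contains `1`) submodule of `K`, finitely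
generated because it is contained in `b⁻¹ R` for `0 ≠ b ∈ 𝔟`. Then `w` is integral over `R`
(`isIntegral_of_smul_mem_submodule`) and `IsIntegrallyClosed.algebraMap_eq_of_integral`. -/
theorem mem_range_of_mul_inv {𝔟 : Ideal R} (h𝔟 : 𝔟 ≠ ⊥) {w : FractionRing R}
    (hw : ∀ z ∈ inv 𝔟, ∀ y ∈ 𝔟,
      w * (z * algebraMap R (FractionRing R) y) ∈ (algebraMap R (FractionRing R)).range) :
    w ∈ (algebraMap R (FractionRing R)).range := by
  let K := FractionRing R
  let N : Submodule R K :=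
    { carrier := inv 𝔟
      zero_mem' := fun y _ => by
        rw [zero_mul]
        exact zero_mem _
      add_mem' := by
        intro a b ha hb y hy
        rw [add_mul]
        exact add_mem (ha y hy) (hb y hy)
      smul_mem' := by
        intro c x hx y hy
        rw [Algebra.smul_def, mul_assoc]
        exact mul_mem ⟨c, rfl⟩ (hx y hy) }
  have hN1 : (1 : K) ∈ N := one_mem_inv 𝔟
  have hN : N ≠ ⊥ := by
    intro h
    rw [h, Submodule.mem_bot] at hN1
    exact one_ne_zero hN1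
  obtain ⟨b, hb, hb0⟩ := Submodule.exists_mem_ne_zero_of_ne_bot h𝔟
  have hb1 : algebraMap R K b ≠ 0 := fun h => hb0 (IsFractionRing.injective R K (by
    rw [h, map_zero]))
  have hle : N ≤ Submodule.span R {(algebraMap R K b)⁻¹} := by
    intro z hz
    obtain ⟨r, hr⟩ := hz b hb
    rw [Submodule.mem_span_singleton]
    refine ⟨r, ?_⟩
    rw [Algebra.smul_def, hr, mul_assoc, mul_inv_cancel₀ hb1, mul_one]
  have hnoe : IsNoetherian R N := isNoetherian_of_le hle
  have hfg : N.FG := (Submodule.fg_top N).mp (IsNoetherian.noetherian ⊤)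
  have hint : IsIntegral R w := by
    refine isIntegral_of_smul_mem_submodule N hN hfg w fun z hz => ?_
    intro y hy
    have := hw z hz y hy
    rw [smul_eq_mul, mul_assoc]
    exact this
  obtain ⟨r, hr⟩ := IsIntegrallyClosed.algebraMap_eq_of_integral hint
  exact ⟨r, hr⟩

/-- The iterated form, by induction on `n` from `mem_range_of_mul_inv`. -/
theorem mem_range_of_prod_inv {𝔟 : Ideal R} (h𝔟 : 𝔟 ≠ ⊥) (n : ℕ) {w : FractionRing R}
    (hw : ∀ (z : Fin n → FractionRing R) (y : Fin n → R), (∀ i, z i ∈ inv 𝔟) → (∀ i, y i ∈ 𝔟) →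
      w * ∏ i, (z i * algebraMap R (FractionRing R) (y i)) ∈
        (algebraMap R (FractionRing R)).range) :
    w ∈ (algebraMap R (FractionRing R)).range := by
  induction n generalizing w with
  | zero =>
    have := hw Fin.elim0 Fin.elim0 (fun i => i.elim0) (fun i => i.elim0)
    rwa [Fin.prod_univ_zero, mul_one] at this
  | succ n ih =>
    refine ih fun z y hz hy => ?_
    refine mem_range_of_mul_inv h𝔟 fun z' hz' y' hy' => ?_
    have := hw (Fin.snoc z z') (Fin.snoc y y')
      (fun i => by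
        refine Fin.lastCases ?_ (fun j => ?_) i
        · rw [Fin.snoc_last]
          exact hz'
        · rw [Fin.snoc_castSucc]
          exact hz j)
      (fun i => by
        refine Fin.lastCases ?_ (fun j => ?_) i
        · rw [Fin.snoc_last]
          exact hy'
        · rw [Fin.snoc_castSucc]
          exact hy j)
    rw [Fin.prod_univ_castSucc] at this
    simp only [Fin.snoc_castSucc, Fin.snoc_last] at this
    rw [mul_assoc]
    exact this

omit [IsNoetherianRing R] in
/-- If `t ^ n ∈ R`, `n > 0`, then `t ∈ R`. -/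
theorem mem_range_of_pow_mem {t : FractionRing R} {n : ℕ} (hn : 0 < n)
    (h : t ^ n ∈ (algebraMap R (FractionRing R)).range) :
    t ∈ (algebraMap R (FractionRing R)).range := by
  obtain ⟨r, hr⟩ := h
  have hint : IsIntegral R (t ^ n) := by
    rw [← hr]
    exact isIntegral_algebraMap
  obtain ⟨y, hy⟩ := IsIntegrallyClosed.algebraMap_eq_of_integral (IsIntegral.of_pow hn hint)
  exact ⟨y, hy⟩

end Pool.Agent.UL35
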