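import Mathlib
import Pool.Agent.W_35cfd6_h67.KL

/-!
The subalgebra of `⊕ 𝔞^{(n)} T^n` generated in degrees at most `d`.
-/

namespace Pool.Agent.UL35

open IsLocalRing Polynomial

variable {R : Type*} [CommRing R]

/-- The algebra `⊕ 𝔞^{(n)} T^n`. -/
noncomputable def symbRees (𝔞 : Ideal R) : Subalgebra R R[X] where
  carrier := {f | ∀ n, coeff f n ∈ symb 𝔞 n}
  mul_mem' := by
    intro f g hf hg n
    rw [coeff_mul]
    refine Ideal.sum_mem _ fun x hx => ?_
    rw [Finset.HasAntidiagonal.mem_antidiagonal] at hx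
    rw [← hx]
    exact symb_mul_le 𝔞 _ _ (Ideal.mul_mem_mul (hf _) (hg _))
  add_mem' := by
    intro f g hf hg n
    rw [coeff_add]
    exact add_mem (hf n) (hg n)
  algebraMap_mem' := by
    intro r n
    rw [Polynomial.algebraMap_apply, Algebra.algebraMap_self, RingHom.id_apply, coeff_C]
    split_ifs with h
    · rw [h, symb_zero]
      exact Submodule.mem_top
    · exact zero_mem _

theorem mem_symbRees {𝔞 : Ideal R} {f : R[X]} : f ∈ symbRees 𝔞 ↔ ∀ n, coeff f n ∈ symb 𝔞 n :=
  Iff.rfl

theorem genAlg_le (𝔞 : Ideal R) (d : ℕ) : genAlg 𝔞 d ≤ symbRees 𝔞 := by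
  refine Algebra.adjoin_le ?_
  rintro f ⟨i, _, z, hz, rfl⟩
  intro n
  rw [coeff_monomial]
  split_ifs with h
  · rw [← h]
    exact hz
  · exact zero_mem _

theorem monomial_mem_genAlg {𝔞 : Ideal R} {d i : ℕ} (hi : i ≤ d) {z : R} (hz : z ∈ symb 𝔞 i) :
    monomial i z ∈ genAlg 𝔞 d :=
  Algebra.subset_adjoin ⟨i, hi, z, hz, rfl⟩

/-- `genAlg 𝔞 d` is graded: the set of all `f` all of whose homogeneous components are in it is a
subalgebra (`coeff_mul`, `monomial_mul_monomial`, sums) containing the generators. -/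
theorem genAlg_graded (𝔞 : Ideal R) (d : ℕ) {f : R[X]} (hf : f ∈ genAlg 𝔞 d) (n : ℕ) :
    monomial n (coeff f n) ∈ genAlg 𝔞 d := by
  let S : Subalgebra R R[X] :=
    { carrier := {f | ∀ n, monomial n (coeff f n) ∈ genAlg 𝔞 d}
      mul_mem' := by
        intro f g hf hg n
        rw [coeff_mul, map_sum]
        refine Subalgebra.sum_mem _ fun x hx => ?_
        rw [Finset.HasAntidiagonal.mem_antidiagonal] at hx
        rw [← hx, ← monomial_mul_monomial]
        exact mul_mem (hf _) (hg _)
      add_mem' := by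
        intro f g hf hg n
        rw [coeff_add, map_add]
        exact add_mem (hf n) (hg n)
      algebraMap_mem' := by
        intro r n
        rw [Polynomial.algebraMap_apply, Algebra.algebraMap_self, RingHom.id_apply, coeff_C]
        split_ifs with h
        · rw [h, monomial_zero_left]
          exact (genAlg 𝔞 d).algebraMap_mem r
        · rw [map_zero]
          exact zero_mem _ }
  have hS : genAlg 𝔞 d ≤ S := by
    refine Algebra.adjoin_le ?_
    rintro f ⟨i, hi, z, hz, rfl⟩
    intro n
    rw [coeff_monomial]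
    split_ifs with h
    · rw [← h]
      exact monomial_mem_genAlg hi hz
    · rw [map_zero]
      exact zero_mem _
  exact hS hf n

/-- It is a finitely generated algebra: for every `i ≤ d` take finitely many generators `z_{ij}` of the
ideal `symb 𝔞 i`; `genAlg 𝔞 d` is generated by the `monomial i z_{ij}`. -/
theorem genAlg_fg [IsNoetherianRing R] (𝔞 : Ideal R) (d : ℕ) : (genAlg 𝔞 d).FG := by
  classical
  have hfg : ∀ i : ℕ, ∃ s : Finset R, Ideal.span (s : Set R) = symb 𝔞 i := fun i =>
    (isNoetherianRing_iff_ideal_fg R).1 inferInstance (symb 𝔞 i)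
  choose s hs using hfg
  refine ⟨(Finset.range (d + 1)).biUnion fun i => (s i).image (monomial i), ?_⟩
  apply le_antisymm
  · refine Algebra.adjoin_le ?_
    intro f hf
    rw [Finset.mem_coe, Finset.mem_biUnion] at hf
    obtain ⟨i, hi, hf⟩ := hf
    rw [Finset.mem_image] at hf
    obtain ⟨z, hz, rfl⟩ := hf
    refine monomial_mem_genAlg (Nat.lt_succ_iff.1 (Finset.mem_range.1 hi)) ?_
    rw [← hs i]
    exact Ideal.subset_span (Finset.mem_coe.2 hz)
  · refine Algebra.adjoin_le ?_
    rintro f ⟨i, hi, z, hz, rfl⟩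
    rw [← hs i] at hz
    change monomial i z ∈ Algebra.adjoin R _
    refine Submodule.span_induction (p := fun z _ => monomial i z ∈ Algebra.adjoin R
      (((Finset.range (d + 1)).biUnion fun i => (s i).image (monomial i) : Finset R[X]) :
        Set R[X])) ?_ ?_ ?_ ?_ hz
    · intro x hx
      refine Algebra.subset_adjoin ?_
      rw [Finset.mem_coe, Finset.mem_biUnion]
      exact ⟨i, Finset.mem_range.2 (Nat.lt_succ_iff.2 hi), Finset.mem_image_of_mem _ hx⟩
    · rw [map_zero]
      exact zero_mem _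
    · intro x y _ _ hx hy
      rw [map_add]
      exact add_mem hx hy
    · intro a x _ hx
      rw [← smul_monomial]
      exact Subalgebra.smul_mem _ hx a

theorem genAlg_noeth [IsNoetherianRing R] (𝔞 : Ideal R) (d : ℕ) :
    IsNoetherianRing (genAlg 𝔞 d) :=
  isNoetherianRing_of_fg (genAlg_fg 𝔞 d)

end Pool.Agent.UL35
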