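import Mathlib
import Pool.Agent.W_35cfd6_h67.VD1

/-!
`ℚ`-Gorenstein on the punctured spectrum implies finite generation on the punctured spectrum.
-/

namespace Pool.Agent.UL35

open IsLocalRing Polynomial

variable {R : Type*} [CommRing R] [IsDomain R]

/-- Let `g ∈ 𝔞^{(n)}`, `u` with `u 𝔞^{(n)} ⊆ g R`, `g ≠ 0`. For `x ∈ 𝔞^{(na+b)}` one has
`u^a x = g^a w` with `w ∈ 𝔞^{(b)}`. Indeed for `z ∈ (R : 𝔞^b)` the element
`(u/g)^a z` of `K` is in `(R : 𝔞^{na+b})` (`u/g ∈ (R : 𝔞^n)` as `𝔞^n ≤ 𝔞^{(n)}`; `mul_mem_inv`, `pow_mem_inv`,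
`𝔞^{na+b} = (𝔞^n)^a 𝔞^b`), so `(u/g)^a z x ∈ R`; `z = 1` gives `w`, and then `w ∈ 𝔞^{(b)}`. -/
theorem exists_factor {𝔞 : Ideal R} {n : ℕ} {g u : R} (hg : g ∈ symb 𝔞 n) (hg0 : g ≠ 0)
    (hu : ∀ x ∈ symb 𝔞 n, ∃ r, u * x = r * g) (a b : ℕ) {x : R} (hx : x ∈ symb 𝔞 (n * a + b)) :
    ∃ w ∈ symb 𝔞 b, u ^ a * x = g ^ a * w := by
  have hinj : Function.Injective (algebraMap R (FractionRing R)) :=
    IsFractionRing.injective R (FractionRing R)
  have hg1 : algebraMap R (FractionRing R) g ≠ 0 := fun h => hg0 (hinj (by rw [h, map_zero]))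
  obtain ⟨ζ, hζ⟩ : ∃ ζ : FractionRing R,
      ζ = algebraMap R (FractionRing R) u / algebraMap R (FractionRing R) g := ⟨_, rfl⟩
  have hζ1 : ζ ∈ inv (𝔞 ^ n) := by
    rw [mem_inv]
    intro y hy
    obtain ⟨r, hr⟩ := hu y (le_symb 𝔞 n hy)
    refine ⟨r, ?_⟩
    have h1 := congrArg (algebraMap R (FractionRing R)) hr
    rw [map_mul, map_mul] at h1
    rw [hζ, div_mul_eq_mul_div, h1, mul_div_cancel_right₀ _ hg1]
  have hζ2 : ∀ z ∈ inv (𝔞 ^ b), ζ ^ a * z ∈ inv (𝔞 ^ (n * a + b)) := by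
    intro z hz
    have h1 := mul_mem_inv (pow_mem_inv hζ1 a) hz
    rwa [← pow_mul, ← pow_add] at h1
  have hx' := mem_symb.1 hx
  obtain ⟨w, hw⟩ := hx' (ζ ^ a * 1) (hζ2 1 (one_mem_inv _))
  rw [mul_one] at hw
  refine ⟨w, ?_, ?_⟩
  · rw [mem_symb]
    intro z hz
    have h1 := hx' (ζ ^ a * z) (hζ2 z hz)
    have h2 : z * algebraMap R (FractionRing R) w =
        ζ ^ a * z * algebraMap R (FractionRing R) x := by
      rw [hw]
      ring
    rw [h2]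
    exact h1
  · apply hinj
    rw [map_mul, map_mul, map_pow, map_pow, hw, hζ, div_pow, ← mul_assoc,
      mul_div_cancel₀ _ (pow_ne_zero a hg1)]

/-- So `monomial (n a + b) (u^a x) ∈ genAlg 𝔞 n` for `b ≤ n` (`monomial_mem_genAlg`,
`monomial_mul_monomial`, `monomial_pow`). -/
theorem monomial_mem_genAlg_of_factor {𝔞 : Ideal R} {n : ℕ} {g u : R} (hg : g ∈ symb 𝔞 n)
    (hg0 : g ≠ 0) (hu : ∀ x ∈ symb 𝔞 n, ∃ r, u * x = r * g) {a b : ℕ} (hb : b ≤ n) {x : R}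
    (hx : x ∈ symb 𝔞 (n * a + b)) : monomial (n * a + b) (u ^ a * x) ∈ genAlg 𝔞 n := by
  obtain ⟨w, hw, h⟩ := exists_factor hg hg0 hu a b hx
  rw [h, ← monomial_mul_monomial, ← monomial_pow]
  exact mul_mem (pow_mem (monomial_mem_genAlg le_rfl hg) a) (monomial_mem_genAlg hb hw)

/-- The ideal of all `y` with `monomial N (y x)` in the subalgebra. -/
def QG_ideal (𝔞 : Ideal R) (d N : ℕ) (x : R) : Ideal R where
  carrier := {y | monomial N (y * x) ∈ genAlg 𝔞 d}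
  zero_mem' := by
    change monomial N (0 * x) ∈ genAlg 𝔞 d
    rw [zero_mul, monomial_zero_right]
    exact zero_mem _
  add_mem' := by
    intro y z hy hz
    change monomial N ((y + z) * x) ∈ genAlg 𝔞 d
    rw [add_mul, map_add]
    exact add_mem hy hz
  smul_mem' := by
    intro c y hy
    change monomial N (c • y * x) ∈ genAlg 𝔞 d
    rw [smul_eq_mul, mul_assoc, ← smul_eq_mul, ← smul_monomial]
    exact (genAlg 𝔞 d).smul_mem hy c

theorem QG_mem {𝔞 : Ideal R} {d N : ℕ} {x y : R} :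
    y ∈ QG_ideal 𝔞 d N x ↔ monomial N (y * x) ∈ genAlg 𝔞 d := Iff.rfl

variable [IsLocalRing R]

/-- Let `d = n`, `x ∈ 𝔞^{(N)}`, `N = n a + b`, `b = N % n`. The ideal `𝔮` of all `y` with
`monomial N (y x) ∈ genAlg 𝔞 n` is not contained in any prime `P ≠ 𝔪`: there is `u ∉ P` as in the
hypothesis, with `g ≠ 0` (otherwise `u 𝔞^{(n)} = 0`, but `0 ≠ 𝔞^n ≤ 𝔞^{(n)}`), and
`u^a ∈ 𝔮` is not in `P`. So the radical of `𝔮` contains `𝔪` (`Ideal.radical_eq_sInf`). -/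
theorem fgPunctured_of_qGor {𝔞 : Ideal R} (h0 : 𝔞 ≠ ⊥) (h : QGorPunctured 𝔞) :
    FGPunctured 𝔞 := by
  obtain ⟨n, hn, h⟩ := h
  obtain ⟨a0, ha0, ha1⟩ := Submodule.exists_mem_ne_zero_of_ne_bot h0
  refine ⟨n, fun N x hx y hy => ?_⟩
  have hrad : maximalIdeal R ≤ (QG_ideal 𝔞 n N x).radical := by
    rw [Ideal.radical_eq_sInf]
    refine le_sInf ?_
    rintro P ⟨hqP, hP⟩
    by_cases hPm : P = maximalIdeal R
    · exact hPm.ge
    · exfalso
      obtain ⟨g, hg, u, huP, hu⟩ := h P hP hPm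
      have hu0 : u ≠ 0 := fun h1 => huP (by rw [h1]; exact zero_mem P)
      have hg0 : g ≠ 0 := by
        rintro rfl
        obtain ⟨r, hr⟩ := hu (a0 ^ n) (le_symb 𝔞 n (Ideal.pow_mem_pow ha0 n))
        rw [mul_zero] at hr
        rcases mul_eq_zero.1 hr with h1 | h1
        · exact hu0 h1
        · exact ha1 (pow_eq_zero_iff hn.ne' |>.1 h1)
      have hN : n * (N / n) + N % n = N := Nat.div_add_mod N n
      have hx' : x ∈ symb 𝔞 (n * (N / n) + N % n) := by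
        rw [hN]
        exact hx
      have h1 := monomial_mem_genAlg_of_factor hg hg0 hu (Nat.mod_lt N hn).le hx'
      rw [hN] at h1
      have h2 : u ^ (N / n) ∈ P := hqP (QG_mem.2 h1)
      exact huP (hP.mem_of_pow_mem _ h2)
  obtain ⟨M, hM⟩ := hrad hy
  exact ⟨M, QG_mem.1 hM⟩

end Pool.Agent.UL35
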