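import Mathlib
import Pool.Agent.W_35cfd6_h67.Data

/-!
Lemmas on the filtration `Fil 𝓥 s = 𝔪^s 𝓥`, part 1. Use `Submodule.smul_le`,
`Submodule.smul_induction_on`, `Submodule.smul_mem_smul`.
-/

namespace Pool.Agent.UL35

open IsLocalRing Polynomial

variable {R : Type*} [CommRing R] [IsLocalRing R] {𝓥 : Subalgebra R R[X]}

theorem mem_Fil_zero {f : R[X]} : f ∈ Fil 𝓥 0 ↔ f ∈ 𝓥 := by
  unfold Fil
  rw [pow_zero, Ideal.one_eq_top, Submodule.top_smul, Subalgebra.mem_toSubmodule]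

theorem Fil_anti {s t : ℕ} (h : s ≤ t) : Fil 𝓥 t ≤ Fil 𝓥 s :=
  Submodule.smul_mono_left (Ideal.pow_le_pow_right h)

theorem Fil_le {s : ℕ} {f : R[X]} (hf : f ∈ Fil 𝓥 s) : f ∈ 𝓥 :=
  mem_Fil_zero.1 (Fil_anti (Nat.zero_le s) hf)

/-- Every element of `Fil 𝓥 s` is a finite sum of `C y * f` with `y ∈ 𝔪^s` and `f ∈ 𝓥`; so a
predicate which is additive and holds for these holds on `Fil 𝓥 s`. -/
theorem Fil_induction {s : ℕ} {P : R[X] → Prop}
    (h1 : ∀ y ∈ maximalIdeal R ^ s, ∀ f ∈ 𝓥, P (C y * f)) (h2 : ∀ f g, P f → P g → P (f + g))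
    {f : R[X]} (hf : f ∈ Fil 𝓥 s) : P f := by
  unfold Fil at hf
  refine Submodule.smul_induction_on hf (fun y hy f hf => ?_) (fun f g hf hg => h2 f g hf hg)
  rw [Polynomial.smul_eq_C_mul]
  exact h1 y hy f hf

/-- Products. Double induction with `Submodule.smul_induction_on`. -/
theorem Fil_mul {s t : ℕ} {f g : R[X]} (hf : f ∈ Fil 𝓥 s) (hg : g ∈ Fil 𝓥 t) :
    f * g ∈ Fil 𝓥 (s + t) := by
  refine Fil_induction (P := fun f => f * g ∈ Fil 𝓥 (s + t)) (fun y hy f hf => ?_)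
    (fun f₁ f₂ h₁ h₂ => ?_) hf
  · refine Fil_induction (P := fun g => C y * f * g ∈ Fil 𝓥 (s + t)) (fun z hz g hg => ?_)
      (fun g₁ g₂ h₁ h₂ => ?_) hg
    · have h : C y * f * (C z * g) = (y * z) • (f * g) := by
        rw [Polynomial.smul_eq_C_mul, map_mul]
        ring
      rw [h]
      unfold Fil
      refine Submodule.smul_mem_smul ?_ (𝓥.mul_mem hf hg)
      rw [pow_add]
      exact Ideal.mul_mem_mul hy hz
    · rw [mul_add]
      exact add_mem h₁ h₂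
  · rw [add_mul]
    exact add_mem h₁ h₂

theorem Fil_pow {s n : ℕ} {f : R[X]} (hf : f ∈ Fil 𝓥 s) : f ^ n ∈ Fil 𝓥 (n * s) := by
  induction n with
  | zero =>
    rw [pow_zero, Nat.zero_mul, mem_Fil_zero]
    exact one_mem _
  | succ n ih =>
    rw [pow_succ, Nat.succ_mul]
    exact Fil_mul ih hf

theorem Fil_C_mul {s t : ℕ} {y : R} (hy : y ∈ maximalIdeal R ^ s) {f : R[X]} (hf : f ∈ Fil 𝓥 t) :
    C y * f ∈ Fil 𝓥 (s + t) := by
  refine Fil_mul ?_ hf
  have h : (C y : R[X]) = y • (1 : R[X]) := by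
    rw [Polynomial.smul_eq_C_mul, mul_one]
  rw [h]
  exact Submodule.smul_mem_smul hy (one_mem 𝓥)

/-- `C x ∈ 𝔪^s 𝓥` implies `x ∈ 𝔪^s`: by `Fil_induction` the coefficient of degree `0` of every
element of `Fil 𝓥 s` is in `𝔪^s`. -/
theorem mem_pow_of_C_mem {s : ℕ} {x : R} (h : monomial 0 x ∈ Fil 𝓥 s) : x ∈ maximalIdeal R ^ s := by
  have h1 : coeff (monomial 0 x : R[X]) 0 ∈ maximalIdeal R ^ s := by
    refine Fil_induction (P := fun f => coeff f 0 ∈ maximalIdeal R ^ s) (fun y hy f _ => ?_)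
      (fun f g hf hg => ?_) h
    · rw [coeff_C_mul]
      exact Ideal.mul_mem_right _ _ hy
    · rw [coeff_add]
      exact add_mem hf hg
  rwa [coeff_monomial, if_pos rfl] at h1

theorem C_mem_Fil {s : ℕ} {x : R} (h : x ∈ maximalIdeal R ^ s) : monomial 0 x ∈ Fil 𝓥 s := by
  have h1 : (monomial 0 x : R[X]) = x • (1 : R[X]) := by
    rw [Polynomial.smul_eq_C_mul, mul_one]
    rfl
  rw [h1]
  exact Submodule.smul_mem_smul h (one_mem 𝓥)

end Pool.Agent.UL35
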