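import Mathlib
import Pool.Agent.W_35cfd6_h67.Fil1

/-!
Lemmas on the filtration `Fil 𝓥 s = 𝔪^s 𝓥`, part 2 (use `Fil_induction`, `Fil_C_mul`, `Fil_mul`).
-/

namespace Pool.Agent.UL35

open IsLocalRing Polynomial

variable {R : Type*} [CommRing R] [IsLocalRing R] {𝓥 : Subalgebra R R[X]}

/-- Homogeneous components: by `Fil_induction`, as
`monomial n (coeff (C y * f) n) = C y * monomial n (coeff f n)`. -/
theorem Fil_homog (hgr : ∀ f ∈ 𝓥, ∀ n, monomial n (coeff f n) ∈ 𝓥) {s : ℕ} {f : R[X]}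
    (hf : f ∈ Fil 𝓥 s) (n : ℕ) : monomial n (coeff f n) ∈ Fil 𝓥 s := by
  refine Fil_induction (P := fun g : R[X] => monomial n (coeff g n) ∈ Fil 𝓥 s) ?_ ?_ hf
  · intro y hy f hf
    have e : monomial n (coeff (C y * f) n) = C y * monomial n (coeff f n) := by
      rw [coeff_C_mul, C_mul_monomial]
    rw [e]
    have h1 : monomial n (coeff f n) ∈ Fil 𝓥 0 := mem_Fil_zero.2 (hgr f hf n)
    have h2 : C y * monomial n (coeff f n) ∈ Fil 𝓥 (s + 0) := Fil_C_mul hy h1
    rw [add_zero] at h2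
    exact h2
  · intro f g hf hg
    rw [coeff_add, map_add]
    exact add_mem hf hg

/-- Absorption. `𝔪^{s+c} = 𝔪^s 𝔪^c` (`pow_add`); for `y ∈ 𝔪^s`, `y' ∈ 𝔪^c`, `f ∈ 𝓥` one has
`C (y y') * f * h = C y * (f * (C y' * h))`. -/
theorem Fil_absorb {s c : ℕ} {f h : R[X]} (hh : ∀ y ∈ maximalIdeal R ^ c, C y * h ∈ 𝓥)
    (hf : f ∈ Fil 𝓥 (s + c)) : f * h ∈ Fil 𝓥 s := by
  refine Fil_induction (P := fun g : R[X] => g * h ∈ Fil 𝓥 s) ?_ ?_ hf
  · intro y hy f hf
    rw [pow_add] at hy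
    refine Submodule.mul_induction_on hy ?_ ?_
    · intro y1 hy1 y2 hy2
      have e : C (y1 * y2) * f * h = C y1 * (f * (C y2 * h)) := by
        rw [C_mul]
        ring
      rw [e]
      have h1 : f * (C y2 * h) ∈ Fil 𝓥 0 := mem_Fil_zero.2 (mul_mem hf (hh y2 hy2))
      have h2 : C y1 * (f * (C y2 * h)) ∈ Fil 𝓥 (s + 0) := Fil_C_mul hy1 h1
      rw [add_zero] at h2
      exact h2
    · intro y1 y2 h1 h2
      have e : C (y1 + y2) * f * h = C y1 * f * h + C y2 * f * h := by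
        rw [C_add]
        ring
      rw [e]
      exact add_mem h1 h2
  · intro f g hf hg
    rw [add_mul]
    exact add_mem hf hg

variable {p : ℕ} [Fact p.Prime] [CharP R p]

/-- A polynomial with coefficients in the `W n` is multiplied into `𝓥` by a power of `𝔪`: it has
finitely many coefficients; use `Good.tors` for each `n` in the support (take the maximum or the sum
of the exponents) and `f = ∑ monomial n (coeff f n)` (`Polynomial.as_sum_support`). -/
theorem Good.tors_poly {D : FData p R} (h𝓥 : Good D 𝓥) {f : R[X]} (hf : ∀ n, coeff f n ∈ D.W n) :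
    ∃ c, ∀ y ∈ maximalIdeal R ^ c, C y * f ∈ 𝓥 := by
  choose c hc using fun n => h𝓥.tors n (coeff f n) (hf n)
  refine ⟨∑ n ∈ f.support, c n, fun y hy => ?_⟩
  have e : C y * f = ∑ n ∈ f.support, monomial n (y * coeff f n) := by
    conv_lhs => rw [f.as_sum_support]
    rw [Finset.mul_sum]
    exact Finset.sum_congr rfl fun n _ => C_mul_monomial
  rw [e]
  refine sum_mem fun n hn => hc n y ?_
  exact Ideal.pow_le_pow_right (Finset.single_le_sum (fun _ _ => Nat.zero_le _) hn) hy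

/-- The same for finitely many polynomials at once. -/
theorem Good.tors_family {D : FData p R} (h𝓥 : Good D 𝓥) {ι : Type*} [Finite ι] (f : ι → R[X])
    (hf : ∀ i n, coeff (f i) n ∈ D.W n) :
    ∃ c, ∀ i, ∀ y ∈ maximalIdeal R ^ c, C y * f i ∈ 𝓥 := by
  have := Fintype.ofFinite ι
  choose c hc using fun i => h𝓥.tors_poly (hf i)
  refine ⟨∑ i, c i, fun i y hy => hc i y ?_⟩
  exact Ideal.pow_le_pow_right
    (Finset.single_le_sum (fun _ _ => Nat.zero_le _) (Finset.mem_univ i)) hy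

end Pool.Agent.UL35
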