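import Mathlib

/-!
Powers and Frobenius powers of an ideal.
-/

namespace Pool.Agent.UL35

variable {p : ℕ} {R : Type*} [Fact p.Prime] [CommRing R] [CharP R p]

/-- The monomials of degree `N` span the power of the ideal. -/
theorem Pigeon_span (S : Finset R) (N : ℕ) :
    Ideal.span (S : Set R) ^ N ≤
      Ideal.span {z | ∃ m : R → ℕ, ∑ x ∈ S, m x = N ∧ z = ∏ x ∈ S, x ^ m x} := by
  classical
  induction N with
  | zero =>
    rw [pow_zero, Ideal.one_eq_top, top_le_iff, Ideal.eq_top_iff_one]
    exact Ideal.subset_span ⟨fun _ => 0, by simp, by simp⟩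
  | succ N ih =>
    rw [pow_succ]
    refine (Ideal.mul_mono_left ih).trans ?_
    rw [Ideal.span_mul_span']
    refine Ideal.span_le.2 ?_
    rintro _ ⟨_, ⟨m, hm, rfl⟩, y, hy, rfl⟩
    have hy' : y ∈ S := hy
    refine Ideal.subset_span ⟨fun x => m x + if x = y then 1 else 0, ?_, ?_⟩
    · rw [Finset.sum_add_distrib, hm, Finset.sum_ite_eq' S y, if_pos hy']
    · have h1 : ∏ x ∈ S, x ^ (m x + if x = y then 1 else 0) =
          (∏ x ∈ S, x ^ m x) * ∏ x ∈ S, (if x = y then y else 1) := by
        rw [← Finset.prod_mul_distrib]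
        refine Finset.prod_congr rfl fun x _ => ?_
        rw [pow_add]
        by_cases h : x = y
        · rw [if_pos h, if_pos h, pow_one, h]
        · rw [if_neg h, if_neg h, pow_zero]
      rw [h1, Finset.prod_ite_eq' S y, if_pos hy']

theorem Pigeon_mem (S : Finset R) (m : R → ℕ) :
    ∏ x ∈ S, x ^ m x ∈ Ideal.span (S : Set R) ^ (∑ x ∈ S, m x) := by
  rw [← Finset.prod_pow_eq_pow_sum]
  exact Ideal.prod_mem_prod fun x hx => Ideal.pow_mem_pow (Ideal.subset_span hx) _

/-- One step: for a finite set `S` with `ν` elements, and `N ≥ ν (p - 1) + 1`, the ideal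
`(span S)^N` is contained in `(span {x^p | x ∈ S}) * (span S)^(N - p)`. A product of `N` elements of
`S` contains some element of `S` at least `p` times (pigeonhole principle, e.g. write the product as
`∏ x ∈ S, x ^ (m x)` with `∑ m x = N`; `Finset.exists_lt_of_sum_lt`). `(span S)^N` is spanned by
these products (`Ideal.span_pow`, `Submodule.span_pow`, or induction on `N`). -/
theorem span_pow_le (S : Finset R) {N : ℕ} (hN : S.card * (p - 1) + 1 ≤ N) :
    Ideal.span (S : Set R) ^ N ≤
      Ideal.span ((fun x => x ^ p) '' (S : Set R)) * Ideal.span (S : Set R) ^ (N - p) := by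
  classical
  refine (Pigeon_span S N).trans (Ideal.span_le.2 ?_)
  rintro _ ⟨m, hm, rfl⟩
  have hex : ∃ y ∈ S, p ≤ m y := by
    by_contra hcon
    push Not at hcon
    have h1 : ∑ x ∈ S, m x ≤ ∑ _x ∈ S, (p - 1) :=
      Finset.sum_le_sum fun x hx => Nat.le_sub_one_of_lt (hcon x hx)
    rw [Finset.sum_const, smul_eq_mul] at h1
    omega
  obtain ⟨y, hy, hpy⟩ := hex
  obtain ⟨m', hm'⟩ : ∃ m' : R → ℕ, m' = fun x => m x - if x = y then p else 0 := ⟨_, rfl⟩
  have hmm : ∀ x, m x = m' x + if x = y then p else 0 := by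
    intro x
    rw [hm']
    by_cases h : x = y
    · subst h
      simp only [if_true]
      omega
    · simp only [if_neg h]
      omega
  have h1 : ∏ x ∈ S, x ^ m x = y ^ p * ∏ x ∈ S, x ^ m' x := by
    have h2 : ∏ x ∈ S, x ^ m x = (∏ x ∈ S, x ^ m' x) * ∏ x ∈ S, (if x = y then y ^ p else 1) := by
      rw [← Finset.prod_mul_distrib]
      refine Finset.prod_congr rfl fun x _ => ?_
      rw [hmm x, pow_add]
      by_cases h : x = y
      · rw [if_pos h, if_pos h, h]
      · rw [if_neg h, if_neg h, pow_zero]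
    rw [h2, Finset.prod_ite_eq' S y, if_pos hy, mul_comm]
  have h3 : ∑ x ∈ S, m' x = N - p := by
    have h4 : ∑ x ∈ S, m x = ∑ x ∈ S, m' x + p := by
      rw [Finset.sum_congr rfl fun x _ => hmm x, Finset.sum_add_distrib, Finset.sum_ite_eq' S y,
        if_pos hy]
    omega
  change ∏ x ∈ S, x ^ m x ∈ _
  rw [h1]
  refine Ideal.mul_mem_mul (Ideal.subset_span ⟨y, hy, rfl⟩) ?_
  rw [← h3]
  exact Pigeon_mem S m'

/-- For a finitely generated ideal `I` there is `κ` such that every element of `I^{pt+κ}` is a finite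
sum `∑ (y_l)^p r_l` with `y_l ∈ I^t`. Take `κ = ν (p - 1) + 1` for `ν` generators: by induction on `t` from
`span_pow_le`, `I^{pt+κ} ≤ (span {x^p | x ∈ S})^t * I^κ`; and `(span {x^p | x ∈ S})^t` is spanned
by the `p`-th powers of products of `t` elements of `S` (these products are in `I^t`), i.e. it is
contained in `(I^t).map (frobenius R p)`. -/
theorem exists_pow_le_map_frobenius {I : Ideal R} (hI : I.FG) :
    ∃ κ, ∀ t, I ^ (p * t + κ) ≤ (I ^ t).map (frobenius R p) := by
  obtain ⟨S, rfl⟩ := hI
  refine ⟨S.card * (p - 1) + 1, fun t => ?_⟩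
  have hmap : Ideal.span ((fun x => x ^ p) '' (S : Set R)) =
      (Ideal.span (S : Set R)).map (frobenius R p) := by
    rw [Ideal.map_span]
    rfl
  have key : ∀ t, Ideal.span (S : Set R) ^ (p * t + (S.card * (p - 1) + 1)) ≤
      Ideal.span ((fun x => x ^ p) '' (S : Set R)) ^ t *
        Ideal.span (S : Set R) ^ (S.card * (p - 1) + 1) := by
    intro t
    induction t with
    | zero => rw [mul_zero, zero_add, pow_zero, one_mul]
    | succ t ih =>
      have h1 := span_pow_le (p := p) S (N := p * (t + 1) + (S.card * (p - 1) + 1))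
        (Nat.le_add_left _ _)
      have h2 : p * (t + 1) + (S.card * (p - 1) + 1) - p = p * t + (S.card * (p - 1) + 1) := by
        rw [mul_add, mul_one]
        omega
      rw [h2] at h1
      refine h1.trans ?_
      rw [pow_succ', mul_assoc]
      exact Ideal.mul_mono_right ih
  refine (key t).trans ?_
  rw [hmap, ← Ideal.map_pow]
  exact Ideal.mul_le_left

end Pool.Agent.UL35
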