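import Mathlib
import Pool.Agent.W_35cfd6_h67.Fil2
import Pool.Agent.W_35cfd6_h67.Pigeon

/-!
For (L3) of proofs row 303.
-/

namespace Pool.Agent.UL35

open IsLocalRing Polynomial

variable {p : ℕ} {R : Type*} [Fact p.Prime] [CommRing R] [CharP R p] [IsLocalRing R]

/-- Let `κ` be from `exists_pow_le_map_frobenius` for `𝔪`. By `Fil_induction` it is enough to treat
`C y * f` with `y ∈ 𝔪^{pt+κ}`, `f ∈ 𝓥` (the set of all `∑ a_j^p h_j` with `a_j ∈ Fil 𝓥 t` is closed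
under addition: `(a + b)^p = a^p + b^p`, `add_pow_char`). By `Submodule.span_induction` (for
`y ∈ (𝔪^t).map (frobenius R p)`) one may take `y = r * z^p` with `z ∈ 𝔪^t`; then
`C r * f = ∑ b_j^p h_j` with `b_j ∈ 𝓥` (`Good.ffin`), so `C y * f = ∑ (C z * b_j)^p h_j`. -/
theorem Fil_ffin (hm : (maximalIdeal R).FG) {𝓥 : Subalgebra R R[X]} {r : ℕ} {h : Fin r → R[X]}
    (hh : ∀ f ∈ 𝓥, ∃ a : Fin r → R[X], (∀ j, a j ∈ 𝓥) ∧ f = ∑ j, a j ^ p * h j) :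
    ∃ κ, ∀ t, ∀ f ∈ Fil 𝓥 (p * t + κ), ∃ a : Fin r → R[X], (∀ j, a j ∈ Fil 𝓥 t) ∧
      f = ∑ j, a j ^ p * h j := by
  obtain ⟨κ, hκ⟩ := exists_pow_le_map_frobenius (p := p) hm
  refine ⟨κ, fun t f hf => ?_⟩
  have hadd : ∀ f g : R[X], (∃ a : Fin r → R[X], (∀ j, a j ∈ Fil 𝓥 t) ∧
      f = ∑ j, a j ^ p * h j) → (∃ a : Fin r → R[X], (∀ j, a j ∈ Fil 𝓥 t) ∧
      g = ∑ j, a j ^ p * h j) → (∃ a : Fin r → R[X], (∀ j, a j ∈ Fil 𝓥 t) ∧
      f + g = ∑ j, a j ^ p * h j) := by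
    rintro f g ⟨a, ha, rfl⟩ ⟨b, hb, rfl⟩
    refine ⟨fun j => a j + b j, fun j => add_mem (ha j) (hb j), ?_⟩
    rw [← Finset.sum_add_distrib]
    refine Finset.sum_congr rfl fun j _ => ?_
    rw [add_pow_char, add_mul]
  refine Fil_induction (P := fun f => ∃ a : Fin r → R[X], (∀ j, a j ∈ Fil 𝓥 t) ∧
      f = ∑ j, a j ^ p * h j) ?_ hadd hf
  intro y hy f hf
  have hy' := hκ t hy
  rw [Ideal.map] at hy'
  refine Submodule.span_induction (p := fun y _ => ∀ f ∈ 𝓥, ∃ a : Fin r → R[X],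
      (∀ j, a j ∈ Fil 𝓥 t) ∧ C y * f = ∑ j, a j ^ p * h j) ?_ ?_ ?_ ?_ hy' f hf
  · rintro _ ⟨z, hz, rfl⟩ f hf
    obtain ⟨b, hb, hfb⟩ := hh f hf
    refine ⟨fun j => C z * b j, fun j => ?_, ?_⟩
    · have := Fil_C_mul (𝓥 := 𝓥) hz (mem_Fil_zero.2 (hb j))
      simpa using this
    · conv_lhs => rw [hfb]
      rw [Finset.mul_sum]
      refine Finset.sum_congr rfl fun j _ => ?_
      rw [frobenius_def, map_pow, mul_pow, mul_assoc]
  · intro f _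
    exact ⟨0, fun j => zero_mem _, by simp [(Fact.out : p.Prime).ne_zero]⟩
  · intro x z _ _ hx hz f hf
    have := hadd _ _ (hx f hf) (hz f hf)
    rw [map_add, add_mul]
    exact this
  · intro c x _ hx f hf
    have h1 : C c * f ∈ 𝓥 := by
      rw [← smul_eq_C_mul]
      exact 𝓥.smul_mem hf c
    obtain ⟨a, ha, h2⟩ := hx _ h1
    refine ⟨a, ha, ?_⟩
    rw [← h2, smul_eq_mul, map_mul]
    ring

end Pool.Agent.UL35
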