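import Mathlib
import Pool.Agent.W_35cfd6_h67.Data

/-!
For (L3) of proofs row 303: the operator `G` on polynomials.
-/

namespace Pool.Agent.UL35

open IsLocalRing Polynomial

variable {p : ℕ} {R : Type*} [Fact p.Prime] [CommRing R] [CharP R p]

/-- `G f = ∑ g (coeff f (p n + 1)) T^n`. -/
noncomputable def G (D : FData p R) (f : R[X]) : R[X] :=
  ∑ n ∈ Finset.range (f.natDegree + 1), monomial n (D.g (coeff f (p * n + 1)))

theorem L3b_coeff_pow (a : R[X]) (i : ℕ) :
    coeff (a ^ p) i = if p ∣ i then (coeff a (i / p)) ^ p else 0 := by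
  have hp : 0 < p := (Fact.out : p.Prime).pos
  rw [← map_frobenius_expand p, coeff_map, coeff_expand hp]
  split_ifs with h
  · rfl
  · exact map_zero _

/-- (For `n > natDegree f` both sides are `0`, as `p n + 1 > natDegree f` and `g 0 = 0`.) -/
theorem coeff_G (D : FData p R) (f : R[X]) (n : ℕ) :
    coeff (G D f) n = D.g (coeff f (p * n + 1)) := by
  unfold G
  rw [finsetSum_coeff]
  simp only [coeff_monomial]
  rw [Finset.sum_ite_eq' (Finset.range (f.natDegree + 1)) n]
  split_ifs with h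
  · rfl
  · have hp : 0 < p := (Fact.out : p.Prime).pos
    have h1 : f.natDegree < p * n + 1 := by
      rw [Finset.mem_range, not_lt] at h
      nlinarith
    rw [coeff_eq_zero_of_natDegree_lt h1, D.g_zero]

theorem G_monomial (D : FData p R) (n : ℕ) (x : R) :
    G D (monomial (p * n + 1) x) = monomial n (D.g x) := by
  have hp : 0 < p := (Fact.out : p.Prime).pos
  ext k
  rw [coeff_G, coeff_monomial, coeff_monomial]
  by_cases h : n = k
  · rw [if_pos h, if_pos (by rw [h])]
  · rw [if_neg h, if_neg, D.g_zero]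
    intro h1
    exact h (Nat.eq_of_mul_eq_mul_left hp (Nat.add_right_cancel h1))

/-- Additivity on polynomials with coefficients in the `W n` (`W (p n + 1) ≤ 𝔞`). -/
theorem G_sum (D : FData p R) {ι : Type*} (s : Finset ι) (f : ι → R[X])
    (hf : ∀ i ∈ s, ∀ n, coeff (f i) n ∈ D.W n) : G D (∑ i ∈ s, f i) = ∑ i ∈ s, G D (f i) := by
  ext n
  rw [coeff_G, finsetSum_coeff, finsetSum_coeff,
    D.g_sum s _ fun i hi => D.W_le n (hf i hi (p * n + 1))]
  exact Finset.sum_congr rfl fun i _ => (coeff_G D (f i) n).symm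

/-- `G (a^p h) = a G(h)` for `h` with coefficients in the `W n`, and any polynomial `a`. Here
`a ^ p = ∑ (coeff a m)^p T^{pm}` (`Polynomial.coeff_expand`, `Polynomial.map_frobenius_expand` or
`expand_char`), `coeff (a ^ p * h) (p n + 1) = ∑_{m ≤ n} (coeff a m)^p * coeff h (p (n-m) + 1)`. -/
theorem G_pow_mul (D : FData p R) (a : R[X]) {h : R[X]} (hh : ∀ n, coeff h n ∈ D.W n) :
    G D (a ^ p * h) = a * G D h := by
  have hp : 0 < p := (Fact.out : p.Prime).pos
  ext n
  rw [coeff_G, coeff_mul, coeff_mul]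
  have h1 : ∀ x ∈ Finset.HasAntidiagonal.antidiagonal (p * n + 1), ∀ m, x.1 = p * m →
      x.2 = p * (n - m) + 1 ∧ m ≤ n := by
    intro x hx m hm
    rw [Finset.HasAntidiagonal.mem_antidiagonal, hm] at hx
    have h2 : m ≤ n := by
      by_contra h3
      have h4 : n + 1 ≤ m := by omega
      have h5 : p * (n + 1) ≤ p * m := Nat.mul_le_mul_left p h4
      have h6 : 2 ≤ p := (Fact.out : p.Prime).two_le
      rw [mul_add, mul_one] at h5
      omega
    refine ⟨?_, h2⟩
    rw [Nat.mul_sub]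
    have h3 : p * m ≤ p * n := Nat.mul_le_mul_left p h2
    omega
  rw [D.g_sum]
  · symm
    refine Finset.sum_of_injOn (fun x : ℕ × ℕ => (p * x.1, p * x.2 + 1)) ?_ ?_ ?_ ?_
    · rintro ⟨x1, x2⟩ _ ⟨y1, y2⟩ _ hxy
      have h2 := congrArg Prod.fst hxy
      have h3 := congrArg Prod.snd hxy
      have h4 : x1 = y1 := Nat.eq_of_mul_eq_mul_left hp h2
      have h5 : x2 = y2 := Nat.eq_of_mul_eq_mul_left hp (Nat.add_right_cancel h3)
      rw [h4, h5]
    · rintro ⟨x1, x2⟩ hx
      have hx' := Finset.HasAntidiagonal.mem_antidiagonal.1 (Finset.mem_coe.1 hx)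
      refine Finset.mem_coe.2 (Finset.HasAntidiagonal.mem_antidiagonal.2 ?_)
      change p * x1 + (p * x2 + 1) = p * n + 1
      rw [← add_assoc, ← mul_add]
      have h2 : x1 + x2 = n := hx'
      rw [h2]
    · intro x hx hx'
      rw [L3b_coeff_pow]
      split_ifs with h2
      · exfalso
        obtain ⟨m, hm⟩ := h2
        obtain ⟨h3, h4⟩ := h1 x hx m hm
        refine hx' ⟨(m, n - m), Finset.mem_coe.2 (Finset.HasAntidiagonal.mem_antidiagonal.2 ?_), ?_⟩
        · change m + (n - m) = n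
          omega
        · exact Prod.ext hm.symm h3.symm
      · rw [zero_mul, D.g_zero]
    · rintro ⟨x1, x2⟩ _
      change coeff a x1 * coeff (G D h) x2 =
        D.g (coeff (a ^ p) (p * x1) * coeff h (p * x2 + 1))
      rw [L3b_coeff_pow, if_pos (Dvd.intro _ rfl), Nat.mul_div_cancel_left _ hp,
        D.g_frob _ _ (D.W_le x2 (hh _)), coeff_G]
  · intro x hx
    rw [L3b_coeff_pow]
    split_ifs with h2
    · obtain ⟨m, hm⟩ := h2
      obtain ⟨h3, h4⟩ := h1 x hx m hm
      refine D.𝔞.mul_mem_left _ ?_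
      rw [h3]
      exact D.W_le (n - m) (hh _)
    · rw [zero_mul]
      exact zero_mem _

theorem coeff_G_mem (D : FData p R) {f : R[X]} (hf : ∀ n, coeff f n ∈ D.W n) (n : ℕ) :
    coeff (G D f) n ∈ D.W n := by
  rw [coeff_G]
  exact D.g_mem n _ (hf _)

end Pool.Agent.UL35
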