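import Mathlib
import Pool.Agent.W_35cfd6_h67.L3a
import Pool.Agent.W_35cfd6_h67.L3b

/-!
(L3) of proofs row 303.
-/

namespace Pool.Agent.UL35

open IsLocalRing Polynomial

variable {p : ℕ} {R : Type*} [Fact p.Prime] [CommRing R] [CharP R p] [IsLocalRing R]

/-- Take `r, h` from `Good.ffin`, `κ₀` from `Fil_ffin`, `c` from `Good.tors_family` for the
polynomials `G D (h j)` (`coeff_G_mem`, `Good.le`). Put `κ = κ₀ + p c`. For `x` with
`f = monomial (p n + 1) x ∈ Fil 𝓥 (p t + κ) = Fil 𝓥 (p (t + c) + κ₀)` one has `f = ∑ a_j^p h_j` with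
`a_j ∈ Fil 𝓥 (t + c)`; apply `G` (`G_sum`, `G_pow_mul`, `G_monomial`; the `a_j^p h_j` have
coefficients in the `W n`, being in `𝓥`) and `Fil_absorb`. -/
theorem L3 [IsNoetherianRing R] (D : FData p R) {𝓥 : Subalgebra R R[X]} (h𝓥 : Good D 𝓥) :
    ∃ κ, ∀ n t x, monomial (p * n + 1) x ∈ Fil 𝓥 (p * t + κ) → monomial n (D.g x) ∈ Fil 𝓥 t := by
  obtain ⟨r, h, hh, hff⟩ := h𝓥.ffin
  obtain ⟨κ₀, hκ₀⟩ := Fil_ffin (maximalIdeal R).fg_of_isNoetherianRing hff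
  obtain ⟨c, hc⟩ := h𝓥.tors_family (fun j => G D (h j))
    (fun j n => coeff_G_mem D (h𝓥.le (h j) (hh j)) n)
  refine ⟨κ₀ + p * c, fun n t x hx => ?_⟩
  have he : p * t + (κ₀ + p * c) = p * (t + c) + κ₀ := by ring
  rw [he] at hx
  obtain ⟨a, ha, hf⟩ := hκ₀ (t + c) _ hx
  have hmem : ∀ j, a j ^ p * h j ∈ 𝓥 := fun j => mul_mem (pow_mem (Fil_le (ha j)) p) (hh j)
  have hG : monomial n (D.g x) = ∑ j, a j * G D (h j) := by
    rw [← G_monomial D n x, hf, G_sum D Finset.univ _ fun j _ => h𝓥.le _ (hmem j)]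
    exact Finset.sum_congr rfl fun j _ => G_pow_mul D (a j) (h𝓥.le _ (hh j))
  rw [hG]
  exact Submodule.sum_mem _ fun j _ => Fil_absorb (hc j) (ha j)

end Pool.Agent.UL35
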