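import Mathlib
import Pool.Agent.W_35cfd6_h67.Data
import Pool.Agent.W_35cfd6_h67.Fil1

/-!
Artin-Rees for the ideal `𝔪 𝓥` of a Noetherian subalgebra `𝓥` of `R[T]`.
-/

namespace Pool.Agent.UL35

open IsLocalRing Polynomial

variable {R : Type*} [CommRing R] [IsLocalRing R] {𝓥 : Subalgebra R R[X]}

/-- The powers of `𝔪 𝓥` as ideals of the ring `𝓥`. (`⊆`: an element of `𝔪^s • 𝓥` is a sum of
`y • f`; `⊇`: `Ideal.map_pow`, `Submodule.span_induction`.) -/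
theorem mem_map_pow_iff {s : ℕ} (f : 𝓥) :
    f ∈ ((maximalIdeal R).map (algebraMap R 𝓥)) ^ s ↔ (f : R[X]) ∈ Fil 𝓥 s := by
  rw [← Ideal.map_pow]
  constructor
  · intro hf
    unfold Ideal.map at hf
    refine Submodule.span_induction (p := fun (f : 𝓥) _ => (f : R[X]) ∈ Fil 𝓥 s)
      ?_ ?_ ?_ ?_ hf
    · rintro _ ⟨y, hy, rfl⟩
      have h : ((algebraMap R 𝓥 y : 𝓥) : R[X]) = C y * 1 := by
        rw [mul_one]
        rfl
      rw [h]
      exact Fil_C_mul (t := 0) hy (mem_Fil_zero.2 (one_mem 𝓥))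
    · exact zero_mem _
    · intro x y _ _ hx hy
      exact add_mem hx hy
    · intro a x _ hx
      have h : ((a • x : 𝓥) : R[X]) = (a : R[X]) * (x : R[X]) := rfl
      rw [h]
      have h2 := Fil_mul (s := 0) (mem_Fil_zero.2 a.2) hx
      rwa [zero_add] at h2
  · intro hf
    have key : ∃ h : (f : R[X]) ∈ 𝓥,
        (⟨(f : R[X]), h⟩ : 𝓥) ∈ (maximalIdeal R ^ s).map (algebraMap R 𝓥) := by
      refine Fil_induction (P := fun g => ∃ h : g ∈ 𝓥,
        (⟨g, h⟩ : 𝓥) ∈ (maximalIdeal R ^ s).map (algebraMap R 𝓥)) (fun y hy g hg => ?_)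
        (fun g₁ g₂ h₁ h₂ => ?_) hf
      · have hm : C y * g ∈ 𝓥 := by
          rw [← Polynomial.smul_eq_C_mul]
          exact 𝓥.smul_mem hg y
        refine ⟨hm, ?_⟩
        have h : (⟨C y * g, hm⟩ : 𝓥) = algebraMap R 𝓥 y * ⟨g, hg⟩ := by
          apply Subtype.ext
          rfl
        rw [h]
        exact Ideal.mul_mem_right _ _ (Ideal.mem_map_of_mem _ hy)
      · obtain ⟨hm₁, h₁⟩ := h₁
        obtain ⟨hm₂, h₂⟩ := h₂
        exact ⟨add_mem hm₁ hm₂, add_mem h₁ h₂⟩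
    obtain ⟨h, h1⟩ := key
    exact h1

/-- Artin-Rees. Let `I = 𝔪 𝓥`. For `v : ι → 𝓥` all of whose entries are in `I ^ n` one has
`v ∈ I ^ n • ⊤` (`v = ∑ i, v i • Pi.single i 1`). By `Ideal.exists_pow_inf_eq_pow_smul` there is `κ`
with `I ^ (s + κ) • ⊤ ⊓ N ≤ I ^ s • N` for all `s`; `N` is finitely generated (`𝓥` is Noetherian and
`ι → 𝓥` is a finite module), `N = span (range w)`, and
`Submodule.mem_ideal_smul_span_iff_exists_sum` (or `..._sum'`) gives the `a k ∈ I ^ s`. Use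
`mem_map_pow_iff`. -/
theorem artinRees (hN : IsNoetherianRing 𝓥) {ι : Type} [Fintype ι] (N : Submodule 𝓥 (ι → 𝓥)) :
    ∃ (κ r : ℕ) (w : Fin r → (ι → 𝓥)), (∀ k, w k ∈ N) ∧
      ∀ s, ∀ v ∈ N, (∀ i, (v i : R[X]) ∈ Fil 𝓥 (s + κ)) →
        ∃ a : Fin r → 𝓥, (∀ k, (a k : R[X]) ∈ Fil 𝓥 s) ∧ v = ∑ k, a k • w k := by
  classical
  set I : Ideal 𝓥 := (maximalIdeal R).map (algebraMap R 𝓥) with hI
  obtain ⟨κ, hκ⟩ := Ideal.exists_pow_inf_eq_pow_smul I N
  have hfg : N.FG := IsNoetherian.noetherian N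
  obtain ⟨r, w, hw⟩ := Submodule.fg_iff_exists_fin_generating_family.1 hfg
  refine ⟨κ, r, w, fun k => ?_, fun s v hv hvs => ?_⟩
  · rw [← hw]
    exact Submodule.subset_span ⟨k, rfl⟩
  · have h1 : v ∈ I ^ (s + κ) • (⊤ : Submodule 𝓥 (ι → 𝓥)) := by
      have h2 : v = ∑ i, v i • (Pi.single i (1 : 𝓥) : ι → 𝓥) := by
        funext j
        simp [Finset.sum_apply, Pi.single_apply]
      rw [h2]
      refine Submodule.sum_mem _ fun i _ => Submodule.smul_mem_smul ?_ Submodule.mem_top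
      exact (mem_map_pow_iff (v i)).2 (hvs i)
    have h3 : v ∈ I ^ s • N := by
      have h4 : v ∈ I ^ (s + κ) • (⊤ : Submodule 𝓥 (ι → 𝓥)) ⊓ N := ⟨h1, hv⟩
      rw [hκ (s + κ) (Nat.le_add_left κ s), Nat.add_sub_cancel] at h4
      exact Submodule.smul_mono le_rfl inf_le_right h4
    rw [← hw, Submodule.mem_ideal_smul_span_iff_exists_sum] at h3
    obtain ⟨a, ha, hs⟩ := h3
    refine ⟨fun k => a k, fun k => (mem_map_pow_iff _).1 (ha k), ?_⟩
    rw [← hs, Finsupp.sum_fintype]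
    intro i
    exact zero_smul _ _

end Pool.Agent.UL35
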