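import Mathlib
import Pool.Agent.W_35cfd6_h67.AR
import Pool.Agent.W_35cfd6_h67.Fil2

/-!
(L1) of proofs row 303: uniform Artin-Rees for the relations.
-/

namespace Pool.Agent.UL35

open IsLocalRing Polynomial

variable {p : ℕ} {R : Type*} [Fact p.Prime] [CommRing R] [CharP R p] [IsLocalRing R]

/-- The polynomials with coefficients in the `W n` are a module over `𝓥`. -/
theorem L1_mul {D : FData p R} {𝓥 : Subalgebra R R[X]} (h𝓥 : Good D 𝓥) {a f : R[X]} (ha : a ∈ 𝓥)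
    (hf : ∀ n, coeff f n ∈ D.W n) (n : ℕ) : coeff (a * f) n ∈ D.W n := by
  rw [coeff_mul]
  refine Ideal.sum_mem _ fun x hx => ?_
  have h1 := D.W_mul x.1 x.2 (Ideal.mul_mem_mul (h𝓥.le a ha x.1) (hf x.2))
  rwa [Finset.HasAntidiagonal.mem_antidiagonal.1 hx] at h1

/-- The module of the vectors `∑ i, ρ j i * v i`. -/
def L1_Y {D : FData p R} {𝓥 : Subalgebra R R[X]} (h𝓥 : Good D 𝓥) {α β : ℕ}
    (ρ : Fin β → Fin α → R) : Submodule 𝓥 (Fin β → 𝓥) where
  carrier := {w | ∃ v : Fin α → R[X], (∀ i n, coeff (v i) n ∈ D.W n) ∧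
    ∀ j, (w j : R[X]) = ∑ i, C (ρ j i) * v i}
  zero_mem' := by
    refine ⟨fun _ => 0, fun i n => ?_, fun j => ?_⟩
    · rw [coeff_zero]
      exact zero_mem _
    · simp
  add_mem' := by
    rintro w w' ⟨v, h1, h2⟩ ⟨v', h1', h2'⟩
    refine ⟨fun i => v i + v' i, fun i n => ?_, fun j => ?_⟩
    · rw [coeff_add]
      exact add_mem (h1 i n) (h1' i n)
    · have h3 : ((w + w') j : 𝓥) = w j + w' j := rfl
      rw [h3, Subalgebra.coe_add, h2, h2', ← Finset.sum_add_distrib]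
      exact Finset.sum_congr rfl fun i _ => (mul_add _ _ _).symm
  smul_mem' := by
    rintro a w ⟨v, h1, h2⟩
    refine ⟨fun i => (a : R[X]) * v i, fun i n => L1_mul h𝓥 a.2 (h1 i) n, fun j => ?_⟩
    have h3 : ((a • w) j : 𝓥) = a * w j := rfl
    rw [h3, Subalgebra.coe_mul, h2, Finset.mul_sum]
    exact Finset.sum_congr rfl fun i _ => by ring

/-- Let `Y` be the `𝓥`-submodule of `Fin β → 𝓥` of all `w` for which there is `v : Fin α → R[X]` with
`coeff (v i) n ∈ W n` for all `i, n` and `(w j : R[X]) = ∑ i, C (ρ j i) * v i` (closed under the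
action of `𝓥` because `𝓥 ⊆ ⊕ W n T^n` (`Good.le`) and `W m * W n ≤ W (m + n)`). Take `κ₀, r, w` from
`artinRees` for `Y`, polynomials `v_k` for the `w k`, and `c` from `Good.tors_family` for all the
`v_k i` (index type `Fin r × Fin α`). Put `κ = κ₀ + c`. For `v` as in the statement the vector
`(monomial n (∑ i, ρ j i * v i))_j` is in `Y` and its entries are in `Fil 𝓥 (s - κ₀ + κ₀)`, so it is
`∑ k, a k • w k` with `a k ∈ Fil 𝓥 (s - κ₀)`, `s - κ₀ = (s - κ) + c`. Put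
`v'' i = ∑ k, a k * v_k i`, which is in `Fil 𝓥 (s - κ)` by `Fil_absorb`, and
`v' i = v i - coeff (v'' i) n`. Then `∑ i, C (ρ j i) * v'' i = monomial n (∑ i, ρ j i * v i)`; take
the coefficient of degree `n`. `coeff (v'' i) n ∈ W n` by `Good.le` and `Fil_le`, and
`monomial n (coeff (v'' i) n) ∈ Fil 𝓥 (s - κ)` by `Fil_homog`. -/
theorem L1 (D : FData p R) {𝓥 : Subalgebra R R[X]} (h𝓥 : Good D 𝓥) {α β : ℕ}
    (ρ : Fin β → Fin α → R) :
    ∃ κ, ∀ n s, κ ≤ s → ∀ v : Fin α → R, (∀ i, v i ∈ D.W n) →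
      (∀ j, monomial n (∑ i, ρ j i * v i) ∈ Fil 𝓥 s) →
      ∃ v' : Fin α → R, (∀ i, v' i ∈ D.W n) ∧ (∀ i, monomial n (v i - v' i) ∈ Fil 𝓥 (s - κ)) ∧
        ∀ j, ∑ i, ρ j i * v' i = 0 := by
  obtain ⟨κ₀, r, w, hw, hAR⟩ := artinRees h𝓥.noeth (L1_Y h𝓥 ρ)
  choose vk hvW hveq using hw
  obtain ⟨c, hc⟩ := h𝓥.tors_family (fun x : Fin r × Fin α => vk x.1 x.2) (fun x n => hvW x.1 x.2 n)
  refine ⟨κ₀ + c, fun n s hs v hv hvs => ?_⟩
  obtain ⟨u, hu⟩ : ∃ u : Fin β → 𝓥, ∀ j, (u j : R[X]) = monomial n (∑ i, ρ j i * v i) :=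
    ⟨fun j => ⟨monomial n (∑ i, ρ j i * v i), Fil_le (hvs j)⟩, fun j => rfl⟩
  have huY : u ∈ L1_Y h𝓥 ρ := by
    refine ⟨fun i => monomial n (v i), fun i m => ?_, fun j => ?_⟩
    · rw [coeff_monomial]
      by_cases h : n = m
      · rw [if_pos h, ← h]
        exact hv i
      · rw [if_neg h]
        exact zero_mem _
    · rw [hu, map_sum]
      exact Finset.sum_congr rfl fun i _ => (C_mul_monomial).symm
  have hs0 : s - κ₀ + κ₀ = s := Nat.sub_add_cancel (by omega)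
  obtain ⟨a, ha, hua⟩ := hAR (s - κ₀) u huY (fun j => by
    rw [hs0, hu]
    exact hvs j)
  obtain ⟨v'', hv''⟩ : ∃ v'' : Fin α → R[X], ∀ i, v'' i = ∑ k, (a k : R[X]) * vk k i :=
    ⟨fun i => ∑ k, (a k : R[X]) * vk k i, fun i => rfl⟩
  have hFil : ∀ i, v'' i ∈ Fil 𝓥 (s - (κ₀ + c)) := by
    intro i
    rw [hv'']
    refine Submodule.sum_mem _ fun k _ => Fil_absorb (c := c) (hc (k, i)) ?_
    have h1 : s - (κ₀ + c) + c = s - κ₀ := by omega
    rw [h1]
    exact ha k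
  refine ⟨fun i => v i - coeff (v'' i) n, fun i => ?_, fun i => ?_, fun j => ?_⟩
  · exact sub_mem (hv i) (h𝓥.le _ (Fil_le (hFil i)) n)
  · rw [sub_sub_cancel]
    exact Fil_homog h𝓥.graded (hFil i) n
  · have h1 : ∑ i, C (ρ j i) * v'' i = monomial n (∑ i, ρ j i * v i) := by
      rw [← hu j, hua]
      have h2 : (((∑ k, a k • w k) j : 𝓥) : R[X]) = ∑ k, (a k : R[X]) * (w k j : R[X]) := by
        rw [Finset.sum_apply, AddSubmonoidClass.coe_finsetSum]
        rfl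
      rw [h2]
      simp only [hv'', hveq, Finset.mul_sum]
      rw [Finset.sum_comm]
      exact Finset.sum_congr rfl fun k _ => Finset.sum_congr rfl fun i _ => by ring
    have h3 := congrArg (fun q : R[X] => coeff q n) h1
    simp only [finsetSum_coeff, coeff_C_mul, coeff_monomial, if_true] at h3
    have h4 : ∑ i, ρ j i * (v i - coeff (v'' i) n) =
        ∑ i, ρ j i * v i - ∑ i, ρ j i * coeff (v'' i) n := by
      rw [← Finset.sum_sub_distrib]
      exact Finset.sum_congr rfl fun i _ => mul_sub _ _ _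
    rw [h4, h3, sub_self]

end Pool.Agent.UL35
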