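import Mathlib
import Pool.Agent.W_35cfd6_h67.Fil2
import Pool.Agent.W_35cfd6_h67.Pres

/-!
For (L2) of proofs row 303: vectors of polynomials in the kernel of the relations are represented by
polynomials.
-/

namespace Pool.Agent.UL35

open IsLocalRing Polynomial Pool.Agent.W_MP_35cfd6_ag

variable {p : ℕ} {R : Type*} [Fact p.Prime] [CommRing R] [CharP R p]

/-- The polynomial `P = ∑ x_n T^{pn+1}` (`x_n ∈ 𝔞`) represents the vector `u` of polynomials:
`g (e_i x_n) = coeff (u i) n`. -/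
def Rep (D : FData p R) {α : ℕ} (e : Fin α → R) (u : Fin α → R[X]) (P : R[X]) : Prop :=
  (∀ N, coeff P N ≠ 0 → ∃ n, N = p * n + 1) ∧
    ∀ n, coeff P (p * n + 1) ∈ D.𝔞 ∧ ∀ i, D.g (e i * coeff P (p * n + 1)) = coeff (u i) n

theorem Rep_comb (D : FData p R) {α : ℕ} (e c : Fin α → R) {x : R} (hx : x ∈ D.𝔞) :
    D.g ((∑ i, c i ^ p * e i) * x) = ∑ i, c i * D.g (e i * x) := by
  rw [Finset.sum_mul, D.g_sum]
  · refine Finset.sum_congr rfl fun i _ => ?_
    rw [mul_assoc, D.g_frob _ _ (D.𝔞.mul_mem_left _ hx)]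
  · intro i _
    exact D.𝔞.mul_mem_left _ hx

/-- If `x, y ∈ 𝔞` and `g (e_i x) = g (e_i y)` for all `i` then `x = y` (`g_sum`, `g_frob`, `uniq`:
every `r` is `∑ c_i^p e_i`). -/
theorem eq_of_g_eq (D : FData p R) {α : ℕ} {e : Fin α → R}
    (he : ∀ r : R, ∃ c : Fin α → R, r = ∑ i, c i ^ p * e i) {x y : R} (hx : x ∈ D.𝔞)
    (hy : y ∈ D.𝔞) (h : ∀ i, D.g (e i * x) = D.g (e i * y)) : x = y := by
  refine sub_eq_zero.mp (D.uniq _ (sub_mem hx hy) fun r => ?_)
  obtain ⟨c, rfl⟩ := he r
  rw [Rep_comb D e c (sub_mem hx hy)]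
  refine Finset.sum_eq_zero fun i _ => ?_
  rw [mul_sub, D.g_sub (D.𝔞.mul_mem_left _ hx) (D.𝔞.mul_mem_left _ hy), h i, sub_self, mul_zero]

/-- Uniqueness, from `eq_of_g_eq`. -/
theorem Rep.unique {D : FData p R} {α : ℕ} {e : Fin α → R}
    (he : ∀ r : R, ∃ c : Fin α → R, r = ∑ i, c i ^ p * e i) {u : Fin α → R[X]} {P Q : R[X]}
    (hP : Rep D e u P) (hQ : Rep D e u Q) : P = Q := by
  ext N
  by_cases hN : ∃ n, N = p * n + 1
  · obtain ⟨n, rfl⟩ := hN
    refine eq_of_g_eq D he (hP.2 n).1 (hQ.2 n).1 fun i => ?_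
    rw [(hP.2 n).2 i, (hQ.2 n).2 i]
  · have h1 : coeff P N = 0 := by
      by_contra h
      exact hN (hP.1 N h)
    have h2 : coeff Q N = 0 := by
      by_contra h
      exact hN (hQ.1 N h)
    rw [h1, h2]

theorem Rep.add {D : FData p R} {α : ℕ} {e : Fin α → R} {u u' : Fin α → R[X]} {P P' : R[X]}
    (hP : Rep D e u P) (hP' : Rep D e u' P') : Rep D e (fun i => u i + u' i) (P + P') := by
  refine ⟨fun N hN => ?_, fun n => ⟨?_, fun i => ?_⟩⟩
  · rw [coeff_add] at hN
    by_cases h1 : coeff P N = 0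
    · rw [h1, zero_add] at hN
      exact hP'.1 N hN
    · exact hP.1 N h1
  · rw [coeff_add]
    exact add_mem (hP.2 n).1 (hP'.2 n).1
  · rw [coeff_add, coeff_add, mul_add, D.g_add _ (D.𝔞.mul_mem_left _ (hP.2 n).1) _
      (D.𝔞.mul_mem_left _ (hP'.2 n).1), (hP.2 n).2 i, (hP'.2 n).2 i]

theorem Rep.zero (D : FData p R) {α : ℕ} (e : Fin α → R) : Rep D e (fun _ => 0) 0 := by
  refine ⟨fun N hN => absurd (coeff_zero N) hN, fun n => ⟨?_, fun i => ?_⟩⟩
  · rw [coeff_zero]
    exact zero_mem _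
  · rw [coeff_zero, coeff_zero, mul_zero, D.g_zero]

/-- Multiplication by an arbitrary polynomial `a`: `P` is replaced by `a ^ p * P`. Here
`a ^ p = ∑ (coeff a m)^p T^{pm}` (`Polynomial.coeff_expand`, `Polynomial.map_frobenius_expand` or
`expand_char`), so `coeff (a ^ p * P) (p * n + 1) = ∑_{m ≤ n} (coeff a m)^p * coeff P (p (n-m) + 1)`
and the coefficients in degrees not `≡ 1` mod `p` vanish; use `g_sum`, `g_frob`. -/
theorem Rep.mul {D : FData p R} {α : ℕ} {e : Fin α → R} {u : Fin α → R[X]} {P : R[X]}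
    (hP : Rep D e u P) (a : R[X]) : Rep D e (fun i => a * u i) (a ^ p * P) := by
  have hp : 2 ≤ p := (Fact.out : p.Prime).two_le
  induction a using Polynomial.induction_on' with
  | add a b ha hb =>
    have h1 := ha.add hb
    have h2 : (a + b) ^ p * P = a ^ p * P + b ^ p * P := by
      rw [add_pow_char, add_mul]
    have h3 : (fun i => (a + b) * u i) = fun i => a * u i + b * u i := by
      funext i
      rw [add_mul]
    rw [h2, h3]
    exact h1
  | monomial m c =>
    have h2 : (monomial m c) ^ p * P = C (c ^ p) * (X ^ (m * p) * P) := by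
      rw [monomial_pow, ← C_mul_X_pow_eq_monomial, mul_assoc]
    have h3 : ∀ i, monomial m c * u i = C c * (X ^ m * u i) := by
      intro i
      rw [← C_mul_X_pow_eq_monomial, mul_assoc]
    rw [h2]
    refine ⟨fun N hN => ?_, fun n => ?_⟩
    · rw [coeff_C_mul, coeff_X_pow_mul'] at hN
      by_cases h4 : m * p ≤ N
      · rw [if_pos h4] at hN
        obtain ⟨n, hn⟩ := hP.1 _ (right_ne_zero_of_mul hN)
        refine ⟨n + m, ?_⟩
        rw [mul_add, mul_comm p m]
        omega
      · rw [if_neg h4, mul_zero] at hN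
        exact absurd rfl hN
    · rw [coeff_C_mul, coeff_X_pow_mul']
      by_cases h4 : m ≤ n
      · obtain ⟨l, rfl⟩ := Nat.exists_eq_add_of_le h4
        have h5 : m * p ≤ p * (m + l) + 1 := by
          rw [mul_add, mul_comm p m]
          omega
        have h6 : p * (m + l) + 1 - m * p = p * l + 1 := by
          rw [mul_add, mul_comm p m]
          omega
        rw [if_pos h5, h6]
        refine ⟨D.𝔞.mul_mem_left _ (hP.2 l).1, fun i => ?_⟩
        beta_reduce
        rw [h3, coeff_C_mul, coeff_X_pow_mul', if_pos h4, Nat.add_sub_cancel_left,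
          mul_left_comm, D.g_frob _ _ (D.𝔞.mul_mem_left _ (hP.2 l).1), (hP.2 l).2 i]
      · have h5 : ¬ m * p ≤ p * n + 1 := by
          intro h6
          have h7 : (n + 1) * p ≤ m * p := Nat.mul_le_mul_right p (by omega)
          rw [add_mul, one_mul, mul_comm n p] at h7
          omega
        rw [if_neg h5, mul_zero]
        refine ⟨zero_mem _, fun i => ?_⟩
        beta_reduce
        rw [h3, coeff_C_mul, coeff_X_pow_mul', if_neg h4, mul_zero, mul_zero, D.g_zero]

theorem Rep.sum {D : FData p R} {α r : ℕ} {e : Fin α → R} (u : Fin r → Fin α → R[X])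
    (P : Fin r → R[X]) (hP : ∀ k, Rep D e (u k) (P k)) (a : Fin r → R[X]) :
    Rep D e (fun i => ∑ k, a k * u k i) (∑ k, a k ^ p * P k) := by
  classical
  have key : ∀ s : Finset (Fin r),
      Rep D e (fun i => ∑ k ∈ s, a k * u k i) (∑ k ∈ s, a k ^ p * P k) := by
    intro s
    induction s using Finset.induction_on with
    | empty =>
      simp only [Finset.sum_empty]
      exact Rep.zero D e
    | insert k s hk ih =>
      simp only [Finset.sum_insert hk]
      exact ((hP k).mul (a k)).add ih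
  exact key Finset.univ

/-- Existence, for `u` with `∑ i, C (ρ j i) * u i = 0` for all `j`: for each `n` the vector
`(coeff (u i) n)_i` gives a linear map `F_* R → R` (`hρ`) which is `r ↦ g (r x_n)` with `x_n ∈ 𝔞`
(`D.dual`); only finitely many `x_n` are nonzero by `eq_of_g_eq`; `P = ∑ x_n T^{pn+1}` over
`n ≤ N` for `N` large. -/
theorem Rep.exists {D : FData p R} {α β : ℕ} {e : Fin α → R} {ρ : Fin β → Fin α → R}
    (he : ∀ r : R, ∃ c : Fin α → R, r = ∑ i, c i ^ p * e i)
    (hρ : ∀ v : Fin α → R, (∀ j, ∑ i, ρ j i * v i = 0) →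
      ∃ φ : FPush p 1 R →ₗ[R] R, ∀ i, φ (toF (e i)) = v i)
    (u : Fin α → R[X]) (hu : ∀ j, ∑ i, C (ρ j i) * u i = 0) : ∃ P, Rep D e u P := by
  classical
  have hp : 2 ≤ p := (Fact.out : p.Prime).two_le
  have h1 : ∀ n, ∃ x ∈ D.𝔞, ∀ i, D.g (e i * x) = coeff (u i) n := by
    intro n
    obtain ⟨φ, hφ⟩ := hρ (fun i => coeff (u i) n) fun j => by
      have h2 := congrArg (fun f : R[X] => coeff f n) (hu j)
      simp only [finsetSum_coeff, coeff_C_mul, coeff_zero] at h2
      exact h2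
    obtain ⟨x, hx, hx'⟩ := D.dual φ
    exact ⟨x, hx, fun i => by rw [← hx', hφ]⟩
  choose x hx hx' using h1
  set N0 : ℕ := Finset.univ.sup fun i => (u i).natDegree with hN0
  have h2 : ∀ n, N0 < n → x n = 0 := by
    intro n hn
    refine eq_of_g_eq D he (hx n) (zero_mem _) fun i => ?_
    rw [hx', mul_zero, D.g_zero]
    exact coeff_eq_zero_of_natDegree_lt
      (lt_of_le_of_lt (Finset.le_sup (f := fun i => (u i).natDegree) (Finset.mem_univ i)) hn)
  refine ⟨∑ n ∈ Finset.range (N0 + 1), monomial (p * n + 1) (x n), fun N hN => ?_, fun n => ?_⟩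
  · rw [finsetSum_coeff] at hN
    obtain ⟨n, -, hn⟩ := Finset.exists_ne_zero_of_sum_ne_zero hN
    rw [coeff_monomial] at hn
    by_cases h3 : p * n + 1 = N
    · exact ⟨n, h3.symm⟩
    · rw [if_neg h3] at hn
      exact absurd rfl hn
  · have h3 : coeff (∑ n ∈ Finset.range (N0 + 1), monomial (p * n + 1) (x n)) (p * n + 1) =
        x n := by
      rw [finsetSum_coeff]
      have h4 : ∀ k, coeff (monomial (p * k + 1) (x k)) (p * n + 1) = if k = n then x k else 0 := by
        intro k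
        rw [coeff_monomial]
        by_cases h5 : k = n
        · rw [if_pos h5, if_pos (by rw [h5])]
        · rw [if_neg h5, if_neg]
          intro h6
          have h7 : p * k = p * n := by omega
          exact h5 (Nat.eq_of_mul_eq_mul_left (by omega) h7)
      simp only [h4]
      rw [Finset.sum_ite_eq']
      split_ifs with h5
      · rfl
      · rw [Finset.mem_range, not_lt] at h5
        exact (h2 n (by omega)).symm
    rw [h3]
    exact ⟨hx n, fun i => hx' n i⟩

/-- If the entries of `u` have coefficients in the `W n`, so has `P` (`D.mem_W`; for `r = ∑ c_i^p e_i`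
one has `g (r x) = ∑ c_i g (e_i x)`). -/
theorem Rep.mem_W {D : FData p R} {α : ℕ} {e : Fin α → R}
    (he : ∀ r : R, ∃ c : Fin α → R, r = ∑ i, c i ^ p * e i) {u : Fin α → R[X]} {P : R[X]}
    (hP : Rep D e u P) (hu : ∀ i n, coeff (u i) n ∈ D.W n) (N : ℕ) : coeff P N ∈ D.W N := by
  by_cases hN : coeff P N = 0
  · rw [hN]
    exact zero_mem _
  · obtain ⟨n, rfl⟩ := hP.1 N hN
    refine D.mem_W n _ (hP.2 n).1 fun r => ?_
    obtain ⟨c, rfl⟩ := he r
    rw [Rep_comb D e c (hP.2 n).1]
    refine Ideal.sum_mem _ fun i _ => Ideal.mul_mem_left _ _ ?_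
    rw [(hP.2 n).2 i]
    exact hu i n

end Pool.Agent.UL35
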