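import Mathlib
import Pool.Agent.W_35cfd6_h67.AR
import Pool.Agent.W_35cfd6_h67.Rep

/-!
(L2) of proofs row 303.
-/

namespace Pool.Agent.UL35

open IsLocalRing Polynomial Pool.Agent.W_MP_35cfd6_ag

variable {p : ℕ} {R : Type*} [Fact p.Prime] [CommRing R] [CharP R p] [IsLocalRing R]

/-- The vectors in the kernel of the relations. -/
def L2_N (𝓥 : Subalgebra R R[X]) {α β : ℕ} (ρ : Fin β → Fin α → R) : Submodule 𝓥 (Fin α → 𝓥) where
  carrier := {u | ∀ j, ∑ i, C (ρ j i) * (u i : R[X]) = 0}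
  zero_mem' := fun j => Finset.sum_eq_zero fun i _ => mul_zero _
  add_mem' := by
    intro u u' h h' j
    have h1 : ∀ i, ((u + u') i : 𝓥) = u i + u' i := fun i => rfl
    simp only [h1, Subalgebra.coe_add, mul_add, Finset.sum_add_distrib, h j, h' j, add_zero]
  smul_mem' := by
    intro a u h j
    have h1 : ∀ i, ((a • u) i : 𝓥) = a * u i := fun i => rfl
    simp only [h1, Subalgebra.coe_mul]
    have h2 : ∑ i, C (ρ j i) * ((a : R[X]) * (u i : R[X])) =
        (a : R[X]) * ∑ i, C (ρ j i) * (u i : R[X]) := by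
      rw [Finset.mul_sum]
      exact Finset.sum_congr rfl fun i _ => by ring
    rw [h2, h j, mul_zero]

omit [IsLocalRing R] in
theorem L2_rep (D : FData p R) {α : ℕ} (e : Fin α → R) (n : ℕ) {x : R} (hx : x ∈ D.𝔞) :
    Rep D e (fun i => monomial n (D.g (e i * x))) (monomial (p * n + 1) x) := by
  refine ⟨fun N hN => ?_, fun m => ?_⟩
  · rw [coeff_monomial] at hN
    by_cases h : p * n + 1 = N
    · exact ⟨n, h.symm⟩
    · rw [if_neg h] at hN
      exact absurd rfl hN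
  · have hp : 0 < p := (Fact.out : p.Prime).pos
    rw [coeff_monomial]
    by_cases h : n = m
    · subst h
      rw [if_pos rfl]
      refine ⟨hx, fun i => ?_⟩
      rw [coeff_monomial, if_pos rfl]
    · have h1 : p * n + 1 ≠ p * m + 1 := by
        intro h2
        exact h (Nat.eq_of_mul_eq_mul_left hp (Nat.succ_injective h2))
      rw [if_neg h1]
      refine ⟨zero_mem _, fun i => ?_⟩
      rw [coeff_monomial, if_neg h, mul_zero, D.g_zero]

/-- Take `α, e, β, ρ` from `exists_presentation`, and let `N` be the `𝓥`-submodule of `Fin α → 𝓥` of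
all `u` with `∑ i, C (ρ j i) * (u i : R[X]) = 0` for all `j`. Take `κ₀, r, w` from `artinRees` for `N`,
`P_k` with `Rep D e (w k) (P_k)` (`Rep.exists`), `c` from `Good.tors_family` for the `P_k`
(`Rep.mem_W`, `Good.le`). Put `κ = κ₀ + c`. For `x` as in the statement let
`u i = monomial n (g (e_i x))`: it is in `Fil 𝓥 s ⊆ 𝓥`, it is in `N` (`∑ i, ρ j i * g (e_i x) =
g (∑ i, ρ j i ^ p * e_i * x) = g 0 = 0`), so `u = ∑ k, a k • w k` with
`a k ∈ Fil 𝓥 (s - κ₀)`. By `Rep.sum`, `∑ k, (a k)^p * P_k` represents `u`, and so does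
`monomial (p * n + 1) x`; by `Rep.unique` they are equal. `(a k)^p ∈ Fil 𝓥 (p * (s - κ₀))`
(`Fil_pow`), `p * (s - κ₀) ≥ p * (s - κ) + c` (`Fil_anti`), and `Fil_absorb`. -/
theorem L2 [IsNoetherianRing R] (D : FData p R) {𝓥 : Subalgebra R R[X]} (h𝓥 : Good D 𝓥)
    (hF : Module.Finite R (FPush p 1 R)) :
    ∃ κ, ∀ n s, κ ≤ s → ∀ x ∈ D.𝔞, (∀ r, monomial n (D.g (r * x)) ∈ Fil 𝓥 s) →
      monomial (p * n + 1) x ∈ Fil 𝓥 (p * (s - κ)) := by
  obtain ⟨α, e, β, ρ, he, hρ0, hρ⟩ := exists_presentation (p := p) (R := R) hF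
  obtain ⟨κ₀, r, w, hw, hAR⟩ := artinRees h𝓥.noeth (L2_N 𝓥 ρ)
  choose P hP using fun k => Rep.exists (D := D) he hρ (fun i => (w k i : R[X])) (hw k)
  obtain ⟨c, hc⟩ := h𝓥.tors_family P fun k n =>
    Rep.mem_W he (hP k) (fun i n => h𝓥.le _ (w k i).2 n) n
  refine ⟨κ₀ + c, fun n s hs x hx hr => ?_⟩
  obtain ⟨u, hu⟩ : ∃ u : Fin α → 𝓥, ∀ i, (u i : R[X]) = monomial n (D.g (e i * x)) :=
    ⟨fun i => ⟨monomial n (D.g (e i * x)), Fil_le (hr (e i))⟩, fun i => rfl⟩
  have hex : ∀ i, e i * x ∈ D.𝔞 := fun i => Ideal.mul_mem_left _ _ hx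
  have huN : u ∈ L2_N 𝓥 ρ := by
    intro j
    have h1 : ∑ i, ρ j i * D.g (e i * x) = 0 := by
      have h2 : ∑ i, ρ j i * D.g (e i * x) = D.g (∑ i, ρ j i ^ p * (e i * x)) := by
        rw [D.g_sum Finset.univ _ fun i _ => Ideal.mul_mem_left _ _ (hex i)]
        exact Finset.sum_congr rfl fun i _ => (D.g_frob _ _ (hex i)).symm
      have h3 : ∑ i, ρ j i ^ p * (e i * x) = 0 := by
        have h4 : ∑ i, ρ j i ^ p * (e i * x) = (∑ i, ρ j i ^ p * e i) * x := by
          rw [Finset.sum_mul]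
          exact Finset.sum_congr rfl fun i _ => by ring
        rw [h4, hρ0 j, zero_mul]
      rw [h2, h3, D.g_zero]
    simp only [hu, C_mul_monomial]
    rw [← map_sum, h1, map_zero]
  have hs0 : s - κ₀ + κ₀ = s := Nat.sub_add_cancel (by omega)
  obtain ⟨a, ha, hua⟩ := hAR (s - κ₀) u huN (fun i => by
    rw [hs0, hu]
    exact hr (e i))
  have hsum := Rep.sum (D := D) (fun k i => (w k i : R[X])) P hP (fun k => (a k : R[X]))
  have hveq : (fun i => ∑ k, (a k : R[X]) * (w k i : R[X])) =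
      fun i => monomial n (D.g (e i * x)) := by
    funext i
    rw [← hu i, hua, Finset.sum_apply, AddSubmonoidClass.coe_finsetSum]
    rfl
  rw [hveq] at hsum
  rw [Rep.unique he (L2_rep D e n hx) hsum]
  have hp : 1 ≤ p := (Fact.out : p.Prime).one_le
  refine Submodule.sum_mem _ fun k _ => Fil_absorb (c := c) (hc k) (Fil_anti ?_ (Fil_pow (ha k)))
  have h1 : s - κ₀ = (s - (κ₀ + c)) + c := by omega
  rw [h1, mul_add]
  exact Nat.add_le_add_left (Nat.le_mul_of_pos_left c hp) _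

end Pool.Agent.UL35
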