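import Mathlib
import Pool.Agent.W_35cfd6_h67.L1
import Pool.Agent.W_35cfd6_h67.L2

/-!
One step of the induction of proofs row 303.
-/

namespace Pool.Agent.UL35

open IsLocalRing Polynomial Pool.Agent.W_MP_35cfd6_ag

variable {p : ℕ} {R : Type*} [Fact p.Prime] [CommRing R] [CharP R p] [IsLocalRing R]

/-- `ψ` is a linear map `F^k_* R → W n` modulo `𝔪^s V_n`. -/
def Approx (D : FData p R) (𝓥 : Subalgebra R R[X]) (k n s : ℕ) (ψ : R → R) : Prop :=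
  (∀ r, ψ r ∈ D.W n) ∧ (∀ r r', monomial n (ψ (r + r') - ψ r - ψ r') ∈ Fil 𝓥 s) ∧
    ∀ a r, monomial n (ψ (a ^ p ^ k * r) - a * ψ r) ∈ Fil 𝓥 s

/-- `Φ` is a linear map `F^k_* R → W n`. -/
def Exact (D : FData p R) (k n : ℕ) (Φ : R → R) : Prop :=
  (∀ r, Φ r ∈ D.W n) ∧ (∀ r r', Φ (r + r') = Φ r + Φ r') ∧ ∀ a r, Φ (a ^ p ^ k * r) = a * Φ r

theorem Step_zero {D : FData p R} {𝓥 : Subalgebra R R[X]} {k n s : ℕ} {ψ : R → R}
    (h : Approx D 𝓥 k n s ψ) : monomial n (ψ 0) ∈ Fil 𝓥 s := by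
  have h1 := h.2.2 0 0
  rwa [mul_zero, zero_mul, sub_zero] at h1

theorem Approx.sum {D : FData p R} {𝓥 : Subalgebra R R[X]} {k n s : ℕ} {ψ : R → R}
    (h : Approx D 𝓥 k n s ψ) {ι : Type*} (t : Finset ι) (a r : ι → R) :
    monomial n (ψ (∑ i ∈ t, a i ^ p ^ k * r i) - ∑ i ∈ t, a i * ψ (r i)) ∈ Fil 𝓥 s := by
  classical
  induction t using Finset.induction_on with
  | empty =>
    rw [Finset.sum_empty, Finset.sum_empty, sub_zero]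
    exact Step_zero h
  | insert j t hj ih =>
    rw [Finset.sum_insert hj, Finset.sum_insert hj]
    have h1 := h.2.1 (a j ^ p ^ k * r j) (∑ i ∈ t, a i ^ p ^ k * r i)
    have h2 := h.2.2 (a j) (r j)
    have h3 : monomial n (ψ (a j ^ p ^ k * r j + ∑ i ∈ t, a i ^ p ^ k * r i) -
        (a j * ψ (r j) + ∑ i ∈ t, a i * ψ (r i))) =
        monomial n (ψ (a j ^ p ^ k * r j + ∑ i ∈ t, a i ^ p ^ k * r i) -
          ψ (a j ^ p ^ k * r j) - ψ (∑ i ∈ t, a i ^ p ^ k * r i)) +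
        monomial n (ψ (a j ^ p ^ k * r j) - a j * ψ (r j)) +
        monomial n (ψ (∑ i ∈ t, a i ^ p ^ k * r i) - ∑ i ∈ t, a i * ψ (r i)) := by
      rw [← map_add, ← map_add]
      congr 1
      ring
    rw [h3]
    exact add_mem (add_mem h1 h2) ih

/-- the construction of `ψ' μ` -/
theorem Step_point {D : FData p R} {𝓥 : Subalgebra R R[X]} {α β : ℕ} {e : Fin α → R}
    {ρ : Fin β → Fin α → R} (he : ∀ r : R, ∃ c : Fin α → R, r = ∑ i, c i ^ p * e i)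
    (hρe : ∀ j, ∑ i, ρ j i ^ p * e i = 0)
    (hρ : ∀ v : Fin α → R, (∀ j, ∑ i, ρ j i * v i = 0) →
      ∃ φ : FPush p 1 R →ₗ[R] R, ∀ i, φ (toF (e i)) = v i) {κ₁ : ℕ}
    (hL1 : ∀ n s, κ₁ ≤ s → ∀ v : Fin α → R, (∀ i, v i ∈ D.W n) →
      (∀ j, monomial n (∑ i, ρ j i * v i) ∈ Fil 𝓥 s) →
      ∃ v' : Fin α → R, (∀ i, v' i ∈ D.W n) ∧ (∀ i, monomial n (v i - v' i) ∈ Fil 𝓥 (s - κ₁)) ∧
        ∀ j, ∑ i, ρ j i * v' i = 0) {k n s : ℕ} (hs : κ₁ ≤ s) {ψ : R → R}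
    (hψ : Approx D 𝓥 (k + 1) n s ψ) (μ : R) :
    ∃ x : R, x ∈ D.𝔞 ∧ x ∈ D.W (p * n + 1) ∧
      ∀ r, monomial n (D.g (r * x) - ψ (r ^ p ^ k * μ)) ∈ Fil 𝓥 (s - κ₁) := by
  have hexp : ∀ c : Fin α → R, ∑ i, c i ^ p ^ (k + 1) * (e i ^ p ^ k * μ) =
      (∑ i, c i ^ p * e i) ^ p ^ k * μ := by
    intro c
    rw [sum_pow_char_pow, Finset.sum_mul]
    refine Finset.sum_congr rfl fun i _ => ?_
    rw [mul_pow, ← pow_mul, ← mul_assoc, pow_succ' p k]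
  have happ : ∀ c : Fin α → R, monomial n (ψ ((∑ i, c i ^ p * e i) ^ p ^ k * μ) -
      ∑ i, c i * ψ (e i ^ p ^ k * μ)) ∈ Fil 𝓥 s := by
    intro c
    have h1 := hψ.sum Finset.univ c (fun i => e i ^ p ^ k * μ)
    rwa [hexp] at h1
  obtain ⟨v', hv'W, hv'F, hv'0⟩ := hL1 n s hs (fun i => ψ (e i ^ p ^ k * μ)) (fun i => hψ.1 _) (by
    intro j
    have h1 := happ (ρ j)
    have hp0 : p ^ k ≠ 0 := pow_ne_zero _ (Fact.out : p.Prime).ne_zero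
    rw [hρe j, zero_pow hp0, zero_mul, map_sub] at h1
    have h2 := sub_mem (Step_zero hψ) h1
    rwa [sub_sub_cancel] at h2)
  obtain ⟨φ, hφ⟩ := hρ v' hv'0
  obtain ⟨x, hx, hφx⟩ := D.dual φ
  have hg : ∀ c : Fin α → R, D.g ((∑ i, c i ^ p * e i) * x) = ∑ i, c i * v' i := by
    intro c
    rw [← hφx]
    have h1 : (toF (∑ i, c i ^ p * e i) : FPush p 1 R) = ∑ i, c i • (toF (e i) : FPush p 1 R) := by
      rw [Finset.sum_congr rfl fun i _ => smul_toF (c i) (e i)]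
      rfl
    rw [h1, map_sum]
    refine Finset.sum_congr rfl fun i _ => ?_
    rw [map_smul, hφ, smul_eq_mul]
  refine ⟨x, hx, ?_, ?_⟩
  · apply D.mem_W n x hx
    intro r
    obtain ⟨c, hc⟩ := he r
    rw [hc, hg]
    exact Ideal.sum_mem _ fun i _ => Ideal.mul_mem_left _ _ (hv'W i)
  · intro r
    obtain ⟨c, hc⟩ := he r
    rw [hc, hg]
    have h1 := Fil_anti (Nat.sub_le s κ₁) (happ c)
    have h2 : monomial n (∑ i, c i * (ψ (e i ^ p ^ k * μ) - v' i)) ∈ Fil 𝓥 (s - κ₁) := by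
      rw [map_sum]
      refine sum_mem fun i _ => ?_
      have h3 := Submodule.smul_mem (Fil 𝓥 (s - κ₁)) (c i) (hv'F i)
      rwa [smul_monomial, smul_eq_mul] at h3
    have h4 : monomial n (∑ i, c i * v' i - ψ ((∑ i, c i ^ p * e i) ^ p ^ k * μ)) =
        -(monomial n (ψ ((∑ i, c i ^ p * e i) ^ p ^ k * μ) - ∑ i, c i * ψ (e i ^ p ^ k * μ))) -
          monomial n (∑ i, c i * (ψ (e i ^ p ^ k * μ) - v' i)) := by
      rw [← map_neg, ← map_sub]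
      congr 1
      simp only [mul_sub, Finset.sum_sub_distrib]
      ring
    rw [h4]
    exact sub_mem (neg_mem h1) h2

/-- Let `κ` be larger than the constants of `L1` (for the relations `ρ` of `exists_presentation`) and
`L2` (both may be enlarged, by `Fil_anti`). Let `ψ` be approximate for `k + 1, n, s`. Fix `μ` and put
`v i = ψ (e_i ^ p ^ k * μ)`. By `Approx.sum`, `∑ i, ρ j i * v i` is
`ψ (∑ i, ρ j i ^ p ^ (k+1) * e_i ^ p ^ k * μ) = ψ ((∑ i, ρ j i ^ p * e_i) ^ p ^ k * μ) = ψ 0` up to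
`Fil 𝓥 s` (`sum_pow_char_pow`), and `ψ 0` is in it as well (take `a = 0` in the third property). `L1` gives
`v'`, hence `φ : F_* R → R` with `φ (e i) = v' i`, hence `x ∈ 𝔞` with `g (r x) = φ r` (`D.dual`),
and `x ∈ W (p n + 1)` (`D.mem_W`). For `r = ∑ c_i^p e_i`: `g (r x) = ∑ c_i v' i`, which is
`∑ c_i v i`, which is `ψ (r ^ p ^ k * μ)`, up to `Fil 𝓥 (s - κ)`. Let `ψ' μ = x` (choice). It is
approximate: for `δ = ψ' (μ + μ') - ψ' μ - ψ' μ' ∈ 𝔞` the element `g (r δ)` is in `Fil 𝓥 (s - κ)`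
for every `r`, so `L2` applies and `p * (s - κ - κ) = p * (s - 2 * κ)`; the same for
`δ = ψ' (a ^ p ^ k * μ) - a * ψ' μ` (`r ^ p ^ k * a ^ p ^ k = (r a) ^ p ^ k`). -/
theorem step [IsNoetherianRing R] (D : FData p R) {𝓥 : Subalgebra R R[X]} (h𝓥 : Good D 𝓥)
    (hF : Module.Finite R (FPush p 1 R)) :
    ∃ κ, ∀ k n s, 2 * κ ≤ s → ∀ ψ, Approx D 𝓥 (k + 1) n s ψ →
      ∃ ψ' : R → R, Approx D 𝓥 k (p * n + 1) (p * (s - 2 * κ)) ψ' ∧
        ∀ r μ, monomial n (D.g (r * ψ' μ) - ψ (r ^ p ^ k * μ)) ∈ Fil 𝓥 (s - κ) := by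
  obtain ⟨α, e, β, ρ, he, hρe, hρ⟩ := exists_presentation hF
  obtain ⟨κ₁, hL1⟩ := L1 D h𝓥 ρ
  obtain ⟨κ₂, hL2⟩ := L2 D h𝓥 hF
  refine ⟨κ₁ + κ₂, fun k n s hs ψ hψ => ?_⟩
  choose ψ' hψ'a hψ'W hψ'F using fun μ =>
    Step_point he hρe hρ hL1 (show κ₁ ≤ s by omega) hψ μ
  have hF' : ∀ μ r, monomial n (D.g (r * ψ' μ) - ψ (r ^ p ^ k * μ)) ∈ Fil 𝓥 (s - (κ₁ + κ₂)) :=
    fun μ r => Fil_anti (by omega) (hψ'F μ r)
  have hψm : ∀ f ∈ Fil 𝓥 s, f ∈ Fil 𝓥 (s - (κ₁ + κ₂)) := fun f hf => Fil_anti (Nat.sub_le _ _) hf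
  have hL2' : ∀ x ∈ D.𝔞, (∀ r, monomial n (D.g (r * x)) ∈ Fil 𝓥 (s - (κ₁ + κ₂))) →
      monomial (p * n + 1) x ∈ Fil 𝓥 (p * (s - 2 * (κ₁ + κ₂))) := by
    intro x hx hr
    refine Fil_anti ?_ (hL2 n (s - (κ₁ + κ₂)) (by omega) x hx hr)
    exact Nat.mul_le_mul_left _ (by omega)
  refine ⟨ψ', ⟨hψ'W, ?_, ?_⟩, fun r μ => hF' μ r⟩
  · intro r r'
    apply hL2' _ (sub_mem (sub_mem (hψ'a _) (hψ'a _)) (hψ'a _))
    intro t
    have ha : ∀ μ, t * ψ' μ ∈ D.𝔞 := fun μ => Ideal.mul_mem_left _ _ (hψ'a μ)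
    rw [mul_sub, mul_sub, D.g_sub (sub_mem (ha _) (ha _)) (ha _), D.g_sub (ha _) (ha _)]
    have h1 := hψm _ (hψ.2.1 (t ^ p ^ k * r) (t ^ p ^ k * r'))
    have h2 := hF' (r + r') t
    have h3 := hF' r t
    have h4 := hF' r' t
    rw [mul_add] at h2
    have h5 : monomial n (D.g (t * ψ' (r + r')) - D.g (t * ψ' r) - D.g (t * ψ' r')) =
        monomial n (D.g (t * ψ' (r + r')) - ψ (t ^ p ^ k * r + t ^ p ^ k * r')) -
        monomial n (D.g (t * ψ' r) - ψ (t ^ p ^ k * r)) -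
        monomial n (D.g (t * ψ' r') - ψ (t ^ p ^ k * r')) +
        monomial n (ψ (t ^ p ^ k * r + t ^ p ^ k * r') - ψ (t ^ p ^ k * r) -
          ψ (t ^ p ^ k * r')) := by
      rw [← map_sub, ← map_sub, ← map_add]
      congr 1
      ring
    rw [h5]
    exact add_mem (sub_mem (sub_mem h2 h3) h4) h1
  · intro a r
    apply hL2' _ (sub_mem (hψ'a _) (Ideal.mul_mem_left _ _ (hψ'a _)))
    intro t
    have ha : ∀ t μ, t * ψ' μ ∈ D.𝔞 := fun t μ => Ideal.mul_mem_left _ _ (hψ'a μ)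
    rw [mul_sub, ← mul_assoc, D.g_sub (ha _ _) (ha _ _)]
    have h2 := hF' (a ^ p ^ k * r) t
    have h3 := hF' r (t * a)
    rw [mul_pow, mul_assoc (t ^ p ^ k)] at h3
    have h5 : monomial n (D.g (t * ψ' (a ^ p ^ k * r)) - D.g (t * a * ψ' r)) =
        monomial n (D.g (t * ψ' (a ^ p ^ k * r)) - ψ (t ^ p ^ k * (a ^ p ^ k * r))) -
        monomial n (D.g (t * a * ψ' r) - ψ (t ^ p ^ k * (a ^ p ^ k * r))) := by
      rw [← map_sub]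
      congr 1
      ring
    rw [h5]
    exact sub_mem h2 h3

end Pool.Agent.UL35
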