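import Mathlib
import Pool.Agent.W_35cfd6_h67.Step
import Pool.Agent.W_35cfd6_h67.L3

/-!
The induction of proofs row 303.
-/

namespace Pool.Agent.UL35

open IsLocalRing Polynomial Pool.Agent.W_MP_35cfd6_ag

variable {p : ℕ} {R : Type*} [Fact p.Prime] [CommRing R] [CharP R p] [IsLocalRing R]

theorem Claim_arith {p s lam κ₁ κ₃ : ℕ} (hp : 2 ≤ p) (hlam : lam = 4 * κ₁ + κ₃) (hs : lam < s) :
    lam < p * (s - 2 * κ₁) ∧ p * (s - lam) + κ₃ ≤ p * (s - 2 * κ₁) - lam := by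
  obtain ⟨q, rfl⟩ := Nat.exists_eq_add_of_le hp
  obtain ⟨t, rfl⟩ := Nat.exists_eq_add_of_lt hs
  subst hlam
  have h1 : 4 * κ₁ + κ₃ + t + 1 - 2 * κ₁ = 2 * κ₁ + κ₃ + t + 1 := by omega
  have h2 : 4 * κ₁ + κ₃ + t + 1 - (4 * κ₁ + κ₃) = t + 1 := by omega
  rw [h1, h2]
  have h3 : (2 + q) * (2 * κ₁ + κ₃ + t + 1) =
      2 * (2 * κ₁ + κ₃ + t + 1) + (q * κ₁ * 2 + q * κ₃ + q * (t + 1)) := by ring
  have h4 : (2 + q) * (t + 1) = 2 * (t + 1) + q * (t + 1) := by ring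
  rw [h3, h4]
  constructor
  · omega
  · omega

/-- Let `κ₁` be the constant of `step`, `κ₃` the one of `L3`, `lam = 4 κ₁ + κ₃`. Induction on `k`.
`k = 0`: `Φ r = r * ψ 1`. `k + 1`: take `ψ'` from `step`; `s' = p (s - 2 κ₁) ≥ 2 (s - 2 κ₁) ≥ s > lam` as
`s ≥ 4 κ₁`; the induction hypothesis gives `Φ'` for `ψ'`; put `Φ = g ∘ Φ'`. It is exact:
`Φ' r ∈ W (p n + 1) ≤ 𝔞`, `g_add`, `Φ' (a ^ p ^ (k+1) * r) = Φ' ((a ^ p) ^ p ^ k * r) = a ^ p * Φ' r`,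
`g_frob`, `g_mem`. And `Φ r - ψ r = g (Φ' r - ψ' r) + (g (ψ' r) - ψ r)`; the second summand is in
`Fil 𝓥 (s - κ₁)` (`step` with `r = 1`), the first one in `Fil 𝓥 (s - lam)` by `L3`, since `Φ' r - ψ' r` is
in `Fil 𝓥 (p (s - 2 κ₁) - lam)` and `p (s - 2 κ₁) - lam ≥ p (s - lam) + κ₃`, i.e.
`(p - 1) lam ≥ 2 p κ₁ + κ₃` (`p ≥ 2`). -/
theorem claim [IsNoetherianRing R] (D : FData p R) {𝓥 : Subalgebra R R[X]} (h𝓥 : Good D 𝓥)
    (hF : Module.Finite R (FPush p 1 R)) :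
    ∃ lam, ∀ k n s, lam < s → ∀ ψ, Approx D 𝓥 k n s ψ →
      ∃ Φ, Exact D k n Φ ∧ ∀ r, monomial n (Φ r - ψ r) ∈ Fil 𝓥 (s - lam) := by
  obtain ⟨κ₁, H1⟩ := step D h𝓥 hF
  obtain ⟨κ₃, H3⟩ := L3 D h𝓥
  have hp2 : 2 ≤ p := (Fact.out : p.Prime).two_le
  refine ⟨4 * κ₁ + κ₃, fun k => ?_⟩
  induction k with
  | zero =>
    intro n s hs ψ hψ
    obtain ⟨h1, h2, h3⟩ := hψ
    refine ⟨fun r => r * ψ 1, ⟨fun r => (D.W n).mul_mem_left _ (h1 1), fun r r' => add_mul _ _ _,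
      fun a r => ?_⟩, fun r => ?_⟩
    · show a ^ p ^ 0 * r * ψ 1 = a * (r * ψ 1)
      rw [pow_zero, pow_one, mul_assoc]
    · have h4 := h3 r 1
      rw [pow_zero, pow_one, mul_one] at h4
      have h5 := neg_mem h4
      rw [← map_neg, neg_sub] at h5
      exact Fil_anti (Nat.sub_le _ _) h5
  | succ k ih =>
    intro n s hs ψ hψ
    obtain ⟨ψ', hψ', happ⟩ := H1 k n s (by omega) ψ hψ
    obtain ⟨ha1, ha2⟩ := Claim_arith (p := p) (κ₁ := κ₁) (κ₃ := κ₃) hp2 rfl hs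
    obtain ⟨Φ', ⟨hE1, hE2, hE3⟩, hΦ'⟩ := ih (p * n + 1) (p * (s - 2 * κ₁)) ha1 ψ' hψ'
    have hΦa : ∀ r, Φ' r ∈ D.𝔞 := fun r => D.W_le n (hE1 r)
    have hψa : ∀ r, ψ' r ∈ D.𝔞 := fun r => D.W_le n (hψ'.1 r)
    refine ⟨fun r => D.g (Φ' r), ⟨fun r => D.g_mem n _ (hE1 r), fun r r' => ?_, fun a r => ?_⟩,
      fun r => ?_⟩
    · show D.g (Φ' (r + r')) = D.g (Φ' r) + D.g (Φ' r')
      rw [hE2, D.g_add _ (hΦa r) _ (hΦa r')]
    · show D.g (Φ' (a ^ p ^ (k + 1) * r)) = a * D.g (Φ' r)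
      have h4 : a ^ p ^ (k + 1) = (a ^ p) ^ p ^ k := by
        rw [← pow_mul, pow_succ, mul_comm (p ^ k) p]
      rw [h4, hE3, D.g_frob a _ (hΦa r)]
    · show monomial n (D.g (Φ' r) - ψ r) ∈ Fil 𝓥 (s - (4 * κ₁ + κ₃))
      have h5 : D.g (Φ' r) - ψ r = D.g (Φ' r - ψ' r) + (D.g (ψ' r) - ψ r) := by
        rw [D.g_sub (hΦa r) (hψa r)]
        ring
      rw [h5, map_add]
      refine add_mem ?_ ?_
      · exact H3 n _ _ (Fil_anti ha2 (hΦ' r))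
      · have h6 := happ 1 r
        rw [one_mul, one_pow, one_mul] at h6
        exact Fil_anti (by omega) h6

/-- `T = lam + 1`, `n = 0`, `s = T`: lift `φ : F^e_* R → R ⧸ 𝔪^T` to a function `ψ : R → R`
(`W 0 = ⊤`); it is approximate by `C_mem_Fil`. `Φ` is linear by exactness, and
`Φ r - 1 ∈ 𝔪` by `mem_pow_of_C_mem`, so `Φ r` is a unit. -/
theorem uniformLift_of_good [IsNoetherianRing R] (D : FData p R) {𝓥 : Subalgebra R R[X]}
    (h𝓥 : Good D 𝓥) (hF : Module.Finite R (FPush p 1 R)) : UniformLift p R := by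
  obtain ⟨lam, H⟩ := claim D h𝓥 hF
  refine ⟨lam + 1, fun e φ r hr => ?_⟩
  have hlift : ∀ x : R, ∃ y : R, Ideal.Quotient.mk (maximalIdeal R ^ (lam + 1)) y = φ (toF x) :=
    fun x => Ideal.Quotient.mk_surjective _
  choose ψ hψ using hlift
  have hap : Approx D 𝓥 e 0 (lam + 1) ψ := by
    refine ⟨fun x => ?_, fun x y => ?_, fun a x => ?_⟩
    · rw [D.W_zero]
      exact Submodule.mem_top
    · refine C_mem_Fil ?_
      rw [← Ideal.Quotient.eq_zero_iff_mem, map_sub, map_sub, hψ, hψ, hψ]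
      have h1 : (toF (x + y) : FPush p e R) = toF x + toF y := rfl
      rw [h1, map_add]
      ring
    · refine C_mem_Fil ?_
      rw [← Ideal.Quotient.eq_zero_iff_mem, map_sub, map_mul, hψ, hψ]
      have h1 : (toF (a ^ p ^ e * x) : FPush p e R) = a • toF x := rfl
      rw [h1, map_smul, Algebra.smul_def]
      exact sub_self _
  obtain ⟨Φ, ⟨-, hΦ2, hΦ3⟩, hΦ⟩ := H e 0 (lam + 1) (Nat.lt_succ_self _) ψ hap
  let Φl : FPush p e R →ₗ[R] R :=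
    { toFun := fun x => Φ (ofF x)
      map_add' := fun x y => hΦ2 (ofF x) (ofF y)
      map_smul' := fun a x => hΦ3 a (ofF x) }
  refine ⟨Φl, ?_⟩
  have h1 := mem_pow_of_C_mem (hΦ (ofF r))
  rw [Nat.add_sub_cancel_left, pow_one] at h1
  have h2 : ψ (ofF r) - 1 ∈ maximalIdeal R := by
    have h3 : ψ (ofF r) - 1 ∈ maximalIdeal R ^ (lam + 1) := by
      rw [← Ideal.Quotient.eq_zero_iff_mem, map_sub, hψ, map_one]
      have h4 : φ (toF (ofF r)) = 1 := hr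
      rw [h4, sub_self]
    exact Ideal.pow_le_self (Nat.succ_ne_zero _) h3
  have h5 : Φ (ofF r) - 1 ∈ maximalIdeal R := by
    have h6 := add_mem h1 h2
    rwa [sub_add_sub_cancel] at h6
  show IsUnit (Φ (ofF r))
  by_contra hcon
  have h7 : Φ (ofF r) ∈ maximalIdeal R := (mem_maximalIdeal _).2 hcon
  have h8 : (1 : R) ∈ maximalIdeal R := by
    have h9 := sub_mem h7 h5
    rwa [sub_sub_cancel] at h9
  exact (Ideal.ne_top_iff_one _).1 (maximalIdeal.isMaximal R).ne_top h8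

end Pool.Agent.UL35
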