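import Mathlib
import Pool.Agent.W_35cfd6_h67.KL

/-!
(A.c) and (A.b) of proofs row 303. Write `K` for `FractionRing R` and `ι` for `algebraMap R K`.
-/

namespace Pool.Agent.UL35

open IsLocalRing Polynomial Pool.Agent.W_MP_35cfd6_ag

variable {p : ℕ} {R : Type*} [Fact p.Prime] [CommRing R] [CharP R p] [IsDomain R]
  [IsNoetherianRing R] [IsIntegrallyClosed R]

omit [IsDomain R] [IsNoetherianRing R] [IsIntegrallyClosed R] in
theorem dual1_smul (a x : R) : (a • (toF x : FPush p 1 R)) = toF (a ^ p * x) := by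
  change (iterateFrobenius R p 1 a) • (show R from x) = _
  rw [iterateFrobenius_def, pow_one]
  rfl

/-- A map `φ : R → K` with values in `R` which is additive and `p^{-1}`-linear is `r ↦ g (r x)` for
some `x ∈ 𝔞`. (Build the linear map `F_* R → R` with `Classical.choose`, and use `D.dual`. The action
of `R` on `F_* R` is `a • r = a ^ p ^ 1 * r`, see `fpush_smul`.) -/
theorem PreData.dual' (D : PreData p R) (φ : R → FractionRing R)
    (h1 : ∀ r, φ r ∈ (algebraMap R (FractionRing R)).range)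
    (h2 : ∀ r s, φ (r + s) = φ r + φ s)
    (h3 : ∀ a r, φ (a ^ p * r) = algebraMap R (FractionRing R) a * φ r) :
    ∃ x ∈ D.𝔞, ∀ r, φ r = algebraMap R (FractionRing R) (D.g (r * x)) := by
  classical
  have hinj : Function.Injective (algebraMap R (FractionRing R)) :=
    IsFractionRing.injective R (FractionRing R)
  choose ψ hψ using h1
  let Φ : FPush p 1 R →ₗ[R] R :=
    { toFun := fun r => ψ (ofF r)
      map_add' := fun r s => hinj (by
        rw [map_add, hψ, hψ, hψ]
        exact h2 (ofF r) (ofF s))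
      map_smul' := fun a r => hinj (by
        have h : (a • r : FPush p 1 R) = toF (a ^ p * ofF r) := dual1_smul a r
        rw [h, RingHom.id_apply, smul_eq_mul, map_mul, hψ, hψ]
        exact h3 a (ofF r)) }
  obtain ⟨x, hx, hx2⟩ := D.dual Φ
  refine ⟨x, hx, fun r => ?_⟩
  rw [← hx2 r, ← hψ r]
  rfl

/-- (A.c) Let `x ∈ 𝔞^{(1)}` and `0 ≠ b ∈ 𝔞`. Put `φ r = ι (g (r b^p x)) / ι b`. It takes values in `R`
by `mem_range_of_mul_inv` for `𝔟 = 𝔞`: for `z ∈ (R : 𝔞)`, `a ∈ 𝔞` let `y = z a ∈ R` (i.e. `ι y = z ι a`); then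
`y x ∈ 𝔞` (`ι (y x) = (z ι x) ι a` and `z ι x ∈ R`), so `y^p x ∈ 𝔞` and
`y φ r = ι (g (r b^p y^p x)) / ι b = ι (g (r y^p x)) ∈ R` (`g_frob`). So by `PreData.dual'` there is
`x'' ∈ 𝔞` with `g (r b^p x) = b g (r x'') = g (r b^p x'')`, hence `b^p x = b^p x''` by `uniq` (and
`g_sub`), `x = x''`. -/
theorem PreData.symb_one (D : PreData p R) : symb D.𝔞 1 = D.𝔞 := by
  apply le_antisymm
  · intro x hx
    have hinj : Function.Injective (algebraMap R (FractionRing R)) :=
      IsFractionRing.injective R (FractionRing R)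
    obtain ⟨b, hb, hb0⟩ := Submodule.exists_mem_ne_zero_of_ne_bot D.ne_bot
    have hb1 : algebraMap R (FractionRing R) b ≠ 0 := fun h => hb0 (hinj (by rw [h, map_zero]))
    have hp : 0 < p := (Fact.out : p.Prime).pos
    have hbp : ∀ c : R, c * b ^ p ∈ D.𝔞 := fun c =>
      Ideal.mul_mem_left _ _ (Ideal.pow_mem_of_mem _ hb p hp)
    have hmem : ∀ r : R, r * (b ^ p * x) ∈ D.𝔞 := by
      intro r
      have h := Ideal.mul_mem_right x D.𝔞 (hbp r)
      rwa [mul_assoc] at h
    have hA : ∀ r, algebraMap R (FractionRing R) (D.g (r * (b ^ p * x))) /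
        algebraMap R (FractionRing R) b ∈ (algebraMap R (FractionRing R)).range := by
      intro r
      refine mem_range_of_mul_inv D.ne_bot fun z hz a ha => ?_
      obtain ⟨y, hy⟩ := hz a ha
      obtain ⟨c, hc⟩ := hx z (by rwa [pow_one])
      have hyx : y * x ∈ D.𝔞 := by
        have h1 : y * x = c * a := by
          apply hinj
          rw [map_mul, map_mul, hy, hc]
          ring
        rw [h1]
        exact Ideal.mul_mem_left _ _ ha
      have hypx : ∀ r : R, r * (y ^ p * x) ∈ D.𝔞 := by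
        intro r
        have h1 : r * (y ^ p * x) = (r * y ^ (p - 1)) * (y * x) := by
          rw [← Nat.sub_add_cancel hp, pow_succ, Nat.add_sub_cancel]
          ring
        rw [h1]
        exact Ideal.mul_mem_left _ _ hyx
      refine ⟨D.g (r * (y ^ p * x)), ?_⟩
      have h2 : b * D.g (r * (y ^ p * x)) = y * D.g (r * (b ^ p * x)) := by
        rw [← D.g_frob b _ (hypx r), ← D.g_frob y _ (hmem r)]
        congr 1
        ring
      rw [← hy, div_mul_eq_mul_div, eq_div_iff hb1, ← map_mul, ← map_mul]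
      congr 1
      rw [mul_comm, h2, mul_comm]
    have hB : ∀ r s, algebraMap R (FractionRing R) (D.g ((r + s) * (b ^ p * x))) /
        algebraMap R (FractionRing R) b = algebraMap R (FractionRing R) (D.g (r * (b ^ p * x))) /
        algebraMap R (FractionRing R) b + algebraMap R (FractionRing R) (D.g (s * (b ^ p * x))) /
        algebraMap R (FractionRing R) b := by
      intro r s
      rw [← add_div, ← map_add, ← D.g_add _ (hmem r) _ (hmem s), add_mul]
    have hC : ∀ a r, algebraMap R (FractionRing R) (D.g (a ^ p * r * (b ^ p * x))) /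
        algebraMap R (FractionRing R) b = algebraMap R (FractionRing R) a *
        (algebraMap R (FractionRing R) (D.g (r * (b ^ p * x))) /
        algebraMap R (FractionRing R) b) := by
      intro a r
      rw [← mul_div_assoc, ← map_mul, ← D.g_frob a _ (hmem r), mul_assoc (a ^ p)]
    obtain ⟨x', hx', h⟩ := D.dual'
      (fun r => algebraMap R (FractionRing R) (D.g (r * (b ^ p * x))) /
        algebraMap R (FractionRing R) b) hA hB hC
    have h1 : ∀ r, D.g (r * (b ^ p * x)) = D.g (r * (b ^ p * x')) := by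
      intro r
      apply hinj
      have h2 := h r
      rw [div_eq_iff hb1, ← map_mul] at h2
      rw [h2]
      congr 1
      have h3 : r * (b ^ p * x') = b ^ p * (r * x') := by ring
      rw [h3, D.g_frob b (r * x') (Ideal.mul_mem_left _ _ hx'), mul_comm]
    have h4 : b ^ p * x - b ^ p * x' = 0 := by
      have hm1 : b ^ p * x ∈ D.𝔞 := by
        have := hmem 1
        rwa [one_mul] at this
      have hm2 : b ^ p * x' ∈ D.𝔞 := Ideal.mul_mem_left _ _ hx'
      refine D.uniq _ (sub_mem hm1 hm2) fun r => ?_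
      rw [mul_sub, D.g_sub (hmem r) (Ideal.mul_mem_left _ _ hm2), h1 r, sub_self]
    have h5 : x = x' := mul_left_cancel₀ (pow_ne_zero p hb0) (sub_eq_zero.1 h4)
    rw [h5]
    exact hx'
  · have h := le_symb D.𝔞 1
    rwa [pow_one] at h

/-- `z ^ p x ∈ 𝔞` for `z ∈ (R : 𝔞^n)`, `x ∈ 𝔞^{(pn+1)}`: for `z₁ ∈ (R : 𝔞)` one has
`z₁ z^p ∈ (R : 𝔞 (𝔞^n)^p) = (R : 𝔞^{pn+1})`, so `z₁ z^p x ∈ R`; `z₁ = 1` shows `z^p x = ι x'`, and then
`x' ∈ 𝔞^{(1)} = 𝔞` by `symb_one`. -/
theorem PreData.pow_mul_mem (D : PreData p R) {n : ℕ} {x : R} (hx : x ∈ symb D.𝔞 (p * n + 1))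
    {z : FractionRing R} (hz : z ∈ inv (D.𝔞 ^ n)) :
    ∃ x' ∈ D.𝔞, z ^ p * algebraMap R (FractionRing R) x = algebraMap R (FractionRing R) x' := by
  have key : ∀ z₁ ∈ inv D.𝔞, z₁ * z ^ p * algebraMap R (FractionRing R) x ∈
      (algebraMap R (FractionRing R)).range := by
    intro z₁ hz₁
    apply hx
    have h1 := mul_mem_inv hz₁ (pow_mem_inv hz p)
    rwa [← pow_mul, mul_comm n p, ← pow_succ'] at h1
  obtain ⟨x', hx'⟩ := key 1 (one_mem_inv _)
  rw [one_mul] at hx'
  refine ⟨x', ?_, hx'.symm⟩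
  rw [← D.symb_one]
  intro z₁ hz₁
  rw [pow_one] at hz₁
  rw [hx', ← mul_assoc]
  exact key z₁ hz₁

/-- (A.b) `x ∈ 𝔞^{(pn+1)} ⟹ g x ∈ 𝔞^{(n)}`: for `z = ι u / ι v ∈ (R : 𝔞^n)` take `x'` from
`pow_mul_mem`; `u^p x = v^p x'`, so `u g(x) = v g(x')` by `g_frob` (`x ∈ 𝔞` by `symb_anti` and
`symb_one`), that is `z ι (g x) = ι (g x')`. -/
theorem PreData.g_mem_symb (D : PreData p R) {n : ℕ} {x : R} (hx : x ∈ symb D.𝔞 (p * n + 1)) :
    D.g x ∈ symb D.𝔞 n := by
  intro z hz
  have hinj : Function.Injective (algebraMap R (FractionRing R)) :=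
    IsFractionRing.injective R (FractionRing R)
  obtain ⟨x', hx', h⟩ := D.pow_mul_mem hx hz
  obtain ⟨u, v, hv, rfl⟩ := IsFractionRing.div_surjective (A := R) z
  have hv0 : v ≠ 0 := nonZeroDivisors.ne_zero hv
  have hv1 : algebraMap R (FractionRing R) v ≠ 0 := fun h => hv0 (hinj (by rw [h, map_zero]))
  have hx1 : x ∈ D.𝔞 := by
    rw [← D.symb_one]
    exact symb_anti D.𝔞 (Nat.le_add_left 1 _) hx
  have h1 : u ^ p * x = v ^ p * x' := by
    apply hinj
    rw [div_pow, div_mul_eq_mul_div, div_eq_iff (pow_ne_zero p hv1)] at h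
    rw [map_mul, map_mul, map_pow, map_pow, h, mul_comm]
  have h2 : u * D.g x = v * D.g x' := by
    rw [← D.g_frob u x hx1, h1, D.g_frob v x' hx']
  refine ⟨D.g x', ?_⟩
  rw [div_mul_eq_mul_div, eq_div_iff hv1, ← map_mul, ← map_mul, h2, mul_comm]

end Pool.Agent.UL35
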