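import Mathlib
import Pool.Agent.W_35cfd6_h67.Dual1

/-!
(A.a) of proofs row 303, and the construction of the data. Write `K` for `FractionRing R` and `ι` for
`algebraMap R K`.
-/

namespace Pool.Agent.UL35

open IsLocalRing Polynomial Pool.Agent.W_MP_35cfd6_ag

variable {p : ℕ} {R : Type*} [Fact p.Prime] [CommRing R] [CharP R p] [IsDomain R]
  [IsNoetherianRing R] [IsIntegrallyClosed R]

/-- If `x ∈ 𝔞` and `g (r x) ∈ 𝔞^{(n)}` for all `r` then `z^p x ∈ 𝔞` for all `z = ι u / ι v ∈ (R : 𝔞^n)`: the map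
`r ↦ z ι (g (r x))` satisfies the hypotheses of `PreData.dual'` (`g_add`, `g_frob`), so it is `ι (g (r x'))`
with `x' ∈ 𝔞`; then `u g(rx) = v g(rx')`, `g (r (u^p x - v^p x')) = 0` for all `r`, and
`u^p x = v^p x'` by `uniq`. -/
theorem PreData.pow_mul_mem_of_g (D : PreData p R) {n : ℕ} {x : R} (hx : x ∈ D.𝔞)
    (h : ∀ r, D.g (r * x) ∈ symb D.𝔞 n) {z : FractionRing R} (hz : z ∈ inv (D.𝔞 ^ n)) :
    ∃ x' ∈ D.𝔞, z ^ p * algebraMap R (FractionRing R) x = algebraMap R (FractionRing R) x' := by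
  obtain ⟨u, v, hv, hz0⟩ := IsFractionRing.div_surjective (A := R) z
  have hv0 : algebraMap R (FractionRing R) v ≠ 0 :=
    IsFractionRing.to_map_ne_zero_of_mem_nonZeroDivisors hv
  obtain ⟨x', hx', hφ⟩ := D.dual' (fun r => z * algebraMap R (FractionRing R) (D.g (r * x)))
    (fun r => h r z hz)
    (fun r s => by
      rw [add_mul, D.g_add _ (D.𝔞.mul_mem_left _ hx) _ (D.𝔞.mul_mem_left _ hx), map_add, mul_add])
    (fun a r => by
      rw [mul_assoc, D.g_frob _ _ (D.𝔞.mul_mem_left _ hx), map_mul]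
      ring)
  refine ⟨x', hx', ?_⟩
  have hinj := IsFractionRing.injective R (FractionRing R)
  have h1 : ∀ r, u * D.g (r * x) = v * D.g (r * x') := by
    intro r
    refine hinj ?_
    rw [map_mul, map_mul, ← hφ r, ← hz0]
    field_simp
  have h2 : u ^ p * x = v ^ p * x' := by
    refine sub_eq_zero.mp (D.uniq _ (sub_mem (D.𝔞.mul_mem_left _ hx) (D.𝔞.mul_mem_left _ hx'))
      fun r => ?_)
    have e1 : r * (u ^ p * x - v ^ p * x') = u ^ p * (r * x) - v ^ p * (r * x') := by ring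
    rw [e1, D.g_sub (D.𝔞.mul_mem_left _ (D.𝔞.mul_mem_left _ hx))
      (D.𝔞.mul_mem_left _ (D.𝔞.mul_mem_left _ hx')), D.g_frob _ _ (D.𝔞.mul_mem_left _ hx),
      D.g_frob _ _ (D.𝔞.mul_mem_left _ hx'), h1 r, sub_self]
  have h3 := congrArg (algebraMap R (FractionRing R)) h2
  rw [map_mul, map_mul, map_pow, map_pow] at h3
  rw [← hz0, div_pow, div_mul_eq_mul_div, h3, mul_div_assoc, mul_comm,
    div_mul_cancel₀ _ (pow_ne_zero p hv0)]

/-- For `z_1, …, z_p ∈ (R : 𝔞^n)` the element `t = x z_1 ⋯ z_p` is in `𝔞`: for `z' ∈ (R : 𝔞)`,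
`(t z')^p = ∏ (z_i^p x z') ∈ R` by the previous lemma, so `t z' ∈ R` by `mem_range_of_pow_mem`;
`z' = 1` shows `t = ι t₀`, and `t₀ ∈ 𝔞^{(1)} = 𝔞` (`symb_one`). -/
theorem PreData.prod_mul_mem_of_g (D : PreData p R) {n : ℕ} {x : R} (hx : x ∈ D.𝔞)
    (h : ∀ r, D.g (r * x) ∈ symb D.𝔞 n) (z : Fin p → FractionRing R)
    (hz : ∀ i, z i ∈ inv (D.𝔞 ^ n)) :
    ∃ t ∈ D.𝔞, algebraMap R (FractionRing R) x * ∏ i, z i = algebraMap R (FractionRing R) t := by
  have h1 : ∀ i, ∃ x' ∈ D.𝔞, z i ^ p * algebraMap R (FractionRing R) x =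
      algebraMap R (FractionRing R) x' := fun i => D.pow_mul_mem_of_g hx h (hz i)
  choose y hy hy' using h1
  have hp : 0 < p := (Fact.out : p.Prime).pos
  have key : ∀ z' ∈ inv D.𝔞, z' * (algebraMap R (FractionRing R) x * ∏ i, z i) ∈
      (algebraMap R (FractionRing R)).range := by
    intro z' hz'
    refine mem_range_of_pow_mem hp ?_
    have e1 : (z' * (algebraMap R (FractionRing R) x * ∏ i, z i)) ^ p =
        ∏ i, (z' * algebraMap R (FractionRing R) (y i)) := by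
      have e2 : ∀ i, z' * algebraMap R (FractionRing R) (y i) =
          z i ^ p * (z' * algebraMap R (FractionRing R) x) := by
        intro i
        rw [← hy' i]
        ring
      rw [Finset.prod_congr rfl fun i _ => e2 i, Finset.prod_mul_distrib, Finset.prod_pow,
        Finset.prod_const, Finset.card_univ, Fintype.card_fin]
      ring
    rw [e1]
    exact prod_mem fun i _ => hz' _ (hy i)
  obtain ⟨t, ht⟩ := key 1 (one_mem_inv _)
  rw [one_mul] at ht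
  refine ⟨t, ?_, ht.symm⟩
  rw [← D.symb_one]
  intro z' hz'
  rw [pow_one] at hz'
  rw [ht]
  exact key z' hz'

/-- (A.a) Let `z₀ ∈ (R : 𝔞^{pn+1})`; to show `w = z₀ ι x ∈ R` use `mem_range_of_prod_inv` for
`𝔟 = 𝔞^n` (nonzero, `R` is a domain) and `p`: `w ∏ (z_i ι y_i) = z₀ ι (t ∏ y_i)` with `t` from
`prod_mul_mem_of_g`, and `t ∏ y_i ∈ 𝔞 (𝔞^n)^p = 𝔞^{pn+1}`. -/
theorem PreData.mem_symb_of_g (D : PreData p R) {n : ℕ} {x : R} (hx : x ∈ D.𝔞)
    (h : ∀ r, D.g (r * x) ∈ symb D.𝔞 n) : x ∈ symb D.𝔞 (p * n + 1) := by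
  intro z₀ hz₀
  refine mem_range_of_prod_inv (𝔟 := D.𝔞 ^ n) (pow_ne_zero n D.ne_bot) p fun z y hz hy => ?_
  obtain ⟨t, ht, ht'⟩ := D.prod_mul_mem_of_g hx h z hz
  have e1 : z₀ * algebraMap R (FractionRing R) x *
      ∏ i, (z i * algebraMap R (FractionRing R) (y i)) =
      z₀ * algebraMap R (FractionRing R) (t * ∏ i, y i) := by
    rw [Finset.prod_mul_distrib, map_mul, map_prod, ← ht']
    ring
  rw [e1]
  refine hz₀ _ ?_
  have e2 : D.𝔞 ^ (p * n + 1) = D.𝔞 * (D.𝔞 ^ n) ^ p := by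
    rw [← pow_mul, pow_succ, mul_comm n p, mul_comm]
  rw [e2]
  refine Ideal.mul_mem_mul ht ?_
  have h2 := Ideal.prod_mem_prod (ι := Fin p) (s := Finset.univ) (I := fun _ => D.𝔞 ^ n) (x := y)
    fun i _ => hy i
  rwa [Finset.prod_const, Finset.card_univ, Fintype.card_fin] at h2

/-- The data, with `W n = 𝔞^{(n)}`. -/
noncomputable def PreData.toFData (D : PreData p R) : FData p R where
  toPreData := D
  W := symb D.𝔞
  W_zero := symb_zero D.𝔞
  W_mul := symb_mul_le D.𝔞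
  W_le := fun n => by
    have h := symb_anti D.𝔞 (m := 1) (n := p * n + 1) (Nat.le_add_left 1 _)
    rwa [D.symb_one] at h
  g_mem := fun _ _ hx => D.g_mem_symb hx
  mem_W := fun _ _ hx h => D.mem_symb_of_g hx h

omit [IsDomain R] [IsNoetherianRing R] [IsIntegrallyClosed R] in
/-- From `IsFDual`: `g x = γ ⟨x, _⟩` for `x ∈ 𝔞` and `0` otherwise. The action of `R` on `F_* 𝔞` is
`a • x = a ^ p ^ 1 • x` (`fpush_smul`). -/
theorem exists_preData {𝔞 : Ideal R} (h0 : 𝔞 ≠ ⊥) (h : IsFDual p 𝔞) :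
    ∃ D : PreData p R, D.𝔞 = 𝔞 := by
  classical
  obtain ⟨γ, hγ⟩ := h
  have hsm : ∀ (a : R) (x : 𝔞), (a • (toF x : FPush p 1 𝔞)) = toF (a ^ p • x) := by
    intro a x
    change (iterateFrobenius R p 1 a) • x = a ^ p • x
    rw [iterateFrobenius_def, pow_one]
  refine ⟨⟨𝔞, fun x => if hx : x ∈ 𝔞 then γ (toF ⟨x, hx⟩) else 0, h0, ?_, ?_, ?_, ?_⟩, rfl⟩
  · intro x hx y hy
    rw [dif_pos hx, dif_pos hy, dif_pos (add_mem hx hy), ← map_add]
    rfl
  · intro r x hx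
    rw [dif_pos hx, dif_pos (𝔞.mul_mem_left _ hx)]
    have h4 := map_smul γ r (toF ⟨x, hx⟩ : FPush p 1 𝔞)
    rw [hsm, smul_eq_mul] at h4
    exact h4
  · intro φ
    obtain ⟨x, hx, -⟩ := hγ φ
    refine ⟨x.1, x.2, fun r => ?_⟩
    rw [dif_pos (𝔞.mul_mem_left _ x.2), hx r]
    rfl
  · intro x hx h1
    have h2 := (hγ 0).unique (y₁ := ⟨x, hx⟩) (y₂ := 0) (fun r => by
      have h3 := h1 r
      rw [dif_pos (𝔞.mul_mem_left _ hx)] at h3
      rw [LinearMap.zero_apply]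
      exact h3.symm) (fun r => by
      rw [LinearMap.zero_apply, smul_zero]
      exact (map_zero γ).symm)
    exact congrArg Subtype.val h2

end Pool.Agent.UL35
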