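import Mathlib
import Pool.Agent.W_35cfd6_h67.VD1
import Pool.Agent.W_35cfd6_h67.VD2
import Pool.Agent.W_35cfd6_h67.Dual2
import Pool.Agent.W_35cfd6_h67.Claim

/-!
Assembly: finite generation on the punctured spectrum implies uniform lifting.
-/

namespace Pool.Agent.UL35

open IsLocalRing Polynomial Pool.Agent.W_MP_35cfd6_ag

variable {p : ℕ} {R : Type*} [Fact p.Prime] [CommRing R] [CharP R p] [IsDomain R]
  [IsNoetherianRing R] [IsIntegrallyClosed R] [IsLocalRing R]

omit [IsDomain R] [IsIntegrallyClosed R] in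
/-- For `x ∈ symb 𝔞 n` the ideal of all `y` with `monomial n (y * x) ∈ 𝓥` contains a power of every
`y ∈ 𝔪`, so it contains a power of `𝔪` (`Ideal.exists_pow_le_of_le_radical_of_fg`). -/
theorem exists_pow_tors {𝓥 : Subalgebra R R[X]} {n : ℕ} {x : R}
    (h : ∀ y ∈ maximalIdeal R, ∃ N : ℕ, monomial n (y ^ N * x) ∈ 𝓥) :
    ∃ c, ∀ y ∈ maximalIdeal R ^ c, monomial n (y * x) ∈ 𝓥 := by
  let J : Ideal R :=
    { carrier := {y | monomial n (y * x) ∈ 𝓥}
      zero_mem' := by
        change monomial n (0 * x) ∈ 𝓥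
        rw [zero_mul, map_zero]
        exact 𝓥.zero_mem
      add_mem' := by
        intro a b ha hb
        change monomial n ((a + b) * x) ∈ 𝓥
        rw [add_mul, map_add]
        exact 𝓥.add_mem ha hb
      smul_mem' := by
        intro r a ha
        change monomial n (r * a * x) ∈ 𝓥
        have h1 : monomial n (r * a * x) = r • monomial n (a * x) := by
          rw [smul_monomial, smul_eq_mul, mul_assoc]
        rw [h1]
        exact 𝓥.smul_mem ha r }
  have hJ : maximalIdeal R ≤ J.radical := fun y hy => h y hy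
  obtain ⟨c, hc⟩ := Ideal.exists_pow_le_of_le_radical_of_fg hJ
    (IsNoetherian.noetherian (maximalIdeal R))
  exact ⟨c, fun y hy => hc hy⟩

/-- `𝓥 = genAlg 𝔞 d`. -/
theorem exists_good (D : PreData p R) (hF : Module.Finite R (FPush p 1 R))
    (h : FGPunctured D.𝔞) : ∃ 𝓥 : Subalgebra R R[X], Good D.toFData 𝓥 := by
  obtain ⟨d, hd⟩ := h
  refine ⟨genAlg D.𝔞 d, ?_, ?_, ?_, ?_, ?_⟩
  · exact genAlg_noeth D.𝔞 d
  · exact fun f hf n => genAlg_graded D.𝔞 d hf n
  · exact exists_ffin hF (genAlg_fg D.𝔞 d)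
  · exact fun f hf n => genAlg_le D.𝔞 d hf n
  · exact fun n x hx => exists_pow_tors (hd n x hx)

theorem uniformLift_of_fg {𝔞 : Ideal R} (h0 : 𝔞 ≠ ⊥) (h𝔞 : IsFDual p 𝔞)
    (hF : Module.Finite R (FPush p 1 R)) (h : FGPunctured 𝔞) : UniformLift p R := by
  obtain ⟨D, hD⟩ := exists_preData h0 h𝔞
  rw [← hD] at h
  obtain ⟨𝓥, h𝓥⟩ := exists_good D hF h
  exact uniformLift_of_good D.toFData h𝓥 hF

end Pool.Agent.UL35
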