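import Mathlib
import Pool.Agent.W_35cfd6_h67.VD3
import Pool.Agent.W_35cfd6_h67.QG
import Pool.Agent.W_35cfd6_h67.Dim2
import Pool.Agent.W_35cfd6_h67.Ex3
import Pool.Agent.W_35cfd6_h67.NonSplit
import Pool.Agent.W_35cfd6_h67.Ident

/-!
The main theorem of proofs row 303.
-/

namespace Pool.Agent.UL35

open IsLocalRing Pool.Agent.W_MP_35cfd6_ag

theorem main {p : ℕ} [Fact p.Prime] {R : Type*} [CommRing R] [IsDomain R] [IsLocalRing R]
    [IsNoetherianRing R] [IsIntegrallyClosed R] [CharP R p] (hR : ¬ IsField R)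
    (hF : Module.Finite R (FPush p 1 R))
    (h : ringKrullDim R ≤ 2 ∨ ¬ FSplit p R ∨
      ∃ 𝔞 : Ideal R, 𝔞 ≠ ⊥ ∧ IsFDual p 𝔞 ∧ (QGorPunctured 𝔞 ∨ FGPunctured 𝔞)) :
    ∃ I J : Ideal R, I < J ∧ I.radical = maximalIdeal R ∧ J.radical = maximalIdeal R ∧
      ∀ e : ℕ, (freeRank R (FPush p e R) : ℚ) /
          (Module.finrank (ResidueField R) (FPush p e (ResidueField R)) : ℚ) =
        ((HK p I e : ℚ) - (HK p J e : ℚ)) / (lengthBetween I J : ℚ) := by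
  apply identity_of_uniformLift hR hF
  rcases h with h | h | ⟨𝔞, h0, h𝔞, h | h⟩
  · obtain ⟨𝔞, h0, h𝔞⟩ := exists_isFDual hF
    exact uniformLift_of_fg h0 h𝔞 hF (fgPunctured_of_qGor h0 (qGorPunctured_of_dim h 𝔞))
  · exact uniformLift_of_not_fsplit hF h
  · exact uniformLift_of_fg h0 h𝔞 hF (fgPunctured_of_qGor h0 h)
  · exact uniformLift_of_fg h0 h𝔞 hF h

end Pool.Agent.UL35
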